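import Pool.Agent.Lib.MP_db21fa_an.TP.Prim

/-!
Project THETA, part 2: data for the rank bound.
-/

set_option autoImplicit false

open Filter Topology Metric

namespace Pool.Agent.Lib.MP_db21fa_an.TF

/-- data for the rank bound -/
structure BData {G ι : Type} [NormedAddCommGroup G] [NormedSpace ℂ G] (ω : ι → G)
    (m : ι → G →L[ℂ] ℂ) (Θ Θ' : G → ℂ) : Prop where
  d : Differentiable ℂ Θ
  d' : Differentiable ℂ Θ'
  ne : Θ ≠ 0
  ne' : Θ' ≠ 0
  mult : ∀ i, Mult Θ (ω i) (m i)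
  mult' : ∀ i, Mult Θ' (ω i) (m i)
  nd : ∀ (u₀ : G) (A : G →L[ℂ] ℂ), (∀ i, m i u₀ = A (ω i)) → u₀ = 0

end Pool.Agent.Lib.MP_db21fa_an.TF
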