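import Pool.Agent.Lib.MP_db21fa_an.TP.Defs

/-!
Project THETA, part 2: closed groups of symmetries.
-/

set_option autoImplicit false

open Filter Topology Metric NormedSpace

namespace Pool.Agent.Lib.MP_db21fa_an.TF

/-- A closed commutative group of pairs (translation, unit of `A`), containing all scalars,
stable under complexification of lines and with compact fibres modulo scalars. -/
structure CGrp (G A : Type) [NormedAddCommGroup G] [NormedSpace ℂ G] [NormedCommRing A]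
    [NormedAlgebra ℂ A] where
  S : Set (G × A)
  χ : A →ₐ[ℂ] ℂ
  unit : ∀ w γ, (w, γ) ∈ S → IsUnit γ
  one : ((0 : G), (1 : A)) ∈ S
  mul : ∀ w γ w' γ', (w, γ) ∈ S → (w', γ') ∈ S → (w + w', γ * γ') ∈ S
  inv : ∀ w γ γ', (w, γ) ∈ S → γ * γ' = 1 → (-w, γ') ∈ S
  smul : ∀ w γ (c : ℂ), c ≠ 0 → (w, γ) ∈ S → (w, c • γ) ∈ S
  closed : ∀ (s : ℕ → G × A) (w : G) (γ : A), (∀ j, s j ∈ S) → Tendsto s atTop (𝓝 (w, γ)) →
    IsUnit γ → (w, γ) ∈ S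
  line : ∀ (w : G) (ξ : A), (∀ t : ℝ, ((t : ℂ) • w, exp ((t : ℂ) • ξ)) ∈ S) →
    ∀ t : ℂ, (t • w, exp (t • ξ)) ∈ S
  cpt : ∀ s : ℕ → G × A, (∀ j, s j ∈ S) → (∀ j, χ (s j).2 = 1) → (∃ C, ∀ j, ‖(s j).1‖ ≤ C) →
    ∃ (φ : ℕ → ℕ) (w : G) (γ : A), StrictMono φ ∧ Tendsto (s ∘ φ) atTop (𝓝 (w, γ)) ∧ (w, γ) ∈ S

end Pool.Agent.Lib.MP_db21fa_an.TF
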