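import Pool.Agent.Lib.MP_db21fa_an.TP.Xi

/-!
Project THETA, part 2: flat sections and finite order.
-/

set_option autoImplicit false

open Filter Topology Metric NormedSpace

namespace Pool.Agent.Lib.MP_db21fa_an.TF

variable {G A : Type} [NormedAddCommGroup G] [NormedSpace ℂ G] [FiniteDimensional ℂ G]
  [NormedCommRing A] [NormedAlgebra ℂ A] [FiniteDimensional ℂ A]

/-- holomorphic characters of the additive group are exponentials of linear forms -/
theorem exists_char {E : Type} [NormedAddCommGroup E] [NormedSpace ℂ E] {f : E → ℂ}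
    (h0 : f 0 = 1) (hadd : ∀ x y, f (x + y) = f x * f y) (hd : Differentiable ℂ f) :
    ∃ μ : E →L[ℂ] ℂ, ∀ a, f a = Complex.exp (μ a) := by
  refine ⟨fderiv ℂ f 0, fun a => ?_⟩
  set μ := fderiv ℂ f 0 with hμ
  have hφ0 : HasDerivAt (fun s : ℂ => f (s • a)) (μ a) 0 := by
    have h1 : HasFDerivAt f μ ((0 : ℂ) • a) := by
      rw [zero_smul]
      exact (hd 0).hasFDerivAt
    have h2 : HasDerivAt (fun s : ℂ => s • a) ((1 : ℂ) • a) 0 := (hasDerivAt_id _).smul_const a
    have h3 := h1.comp_hasDerivAt (0 : ℂ) h2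
    rwa [one_smul] at h3
  have hφ : ∀ t : ℂ, HasDerivAt (fun s : ℂ => f (s • a)) (f (t • a) * μ a) t := by
    intro t
    have h1 : (fun s : ℂ => f (s • a)) = fun s : ℂ => f (t • a) * f ((s - t) • a) := by
      funext s
      rw [← hadd, ← add_smul]
      congr 2
      ring
    rw [h1]
    apply HasDerivAt.const_mul
    have h2 : HasDerivAt (fun s : ℂ => f (s • a)) (μ a) (t - t) := by rw [sub_self]; exact hφ0
    exact h2.comp_sub_const t t
  have hconst : ∀ t : ℂ, HasDerivAt (fun s : ℂ => f (s • a) * Complex.exp (-(s * μ a))) 0 t := by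
    intro t
    have h1 : HasDerivAt (fun s : ℂ => Complex.exp (-(s * μ a)))
        (Complex.exp (-(t * μ a)) * (-(1 * μ a))) t :=
      (((hasDerivAt_id t).mul_const (μ a)).neg).cexp
    have h2 := (hφ t).mul h1
    refine h2.congr_deriv ?_
    ring
  have h2 := is_const_of_deriv_eq_zero (fun t => (hconst t).differentiableAt)
    (fun t => (hconst t).deriv) 1 0
  simp only [one_smul, one_mul, zero_smul, zero_mul, neg_zero, Complex.exp_zero, mul_one, h0] at h2
  rw [Complex.exp_neg] at h2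
  exact (mul_inv_eq_one₀ (Complex.exp_ne_zero _)).mp h2

/-- the group contains a flat section, and everything else is of finite order modulo scalars -/
theorem CGrp.main (C : CGrp G A) {E ι : Type} [NormedAddCommGroup E] [NormedSpace ℂ E]
    [Fintype ι] (v : E →L[ℂ] G) (ω : Module.Basis ι ℝ G) (hm : HMin v ω) (R : E → A)
    (hR0 : R 0 = 1) (hRadd : ∀ x y, R (x + y) = R x * R y) (hRd : Differentiable ℂ R)
    (hR : ∀ a, (v a, R a) ∈ C.S) (g : ι → A) (hg : ∀ i, (-ω i, g i) ∈ C.S) :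
    ∃ ξ : G →L[ℂ] A, (∀ w, (w, exp (ξ w)) ∈ C.S) ∧
      (∃ μ : E →L[ℂ] ℂ, ∀ a, R a = Complex.exp (μ a) • exp (ξ (v a))) ∧
      ∃ (k : ℕ) (c : ι → ℂ), 0 < k ∧ ∀ i, g i ^ k = Complex.exp (c i) • exp (-((k : ℂ) • ξ (ω i))) := by
  have hω : ∀ i, ∃ γ, (ω i, γ) ∈ C.S := by
    intro i
    obtain ⟨γ', hγ'⟩ := (C.unit _ _ (hg i)).exists_right_inv
    have := C.inv _ _ _ (hg i) hγ'
    rw [neg_neg] at this
    exact ⟨γ', this⟩
  obtain ⟨ξ, hξ0, hξ⟩ := C.exists_xi v ω hm (fun a => ⟨_, hR a⟩) hω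
  refine ⟨ξ, hξ, ?_, ?_⟩
  · -- the exponential polynomials
    obtain ⟨μ, hμ⟩ := exists_char (f := fun a => C.χ (R a)) (by rw [hR0, map_one])
      (fun x y => by rw [hRadd, map_mul])
      ((LinearMap.toContinuousLinearMap C.χ.toLinearMap).differentiable.comp hRd)
    refine ⟨μ, fun a => ?_⟩
    have hS : ∀ a, ((0 : G), Complex.exp (-μ a) • (R a * exp (-ξ (v a)))) ∈ C.S := by
      intro a
      apply C.smul _ _ _ (Complex.exp_ne_zero _)
      have h1 := C.mul _ _ _ _ (hR a) (C.inv _ _ _ (hξ (v a)) (expA_mul_neg _))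
      rwa [add_neg_cancel] at h1
    have hχ : ∀ a, C.χ (Complex.exp (-μ a) • (R a * exp (-ξ (v a)))) = 1 := by
      intro a
      rw [map_smul, map_mul, chiA_exp, map_neg, hξ0, neg_zero, Complex.exp_zero, mul_one, hμ,
        smul_eq_mul, ← Complex.exp_add, neg_add_cancel, Complex.exp_zero]
    have hbd : ∃ M : ℝ, ∀ a, ‖Complex.exp (-μ a) • (R a * exp (-ξ (v a)))‖ ≤ M := by
      by_contra hcon
      push Not at hcon
      choose z hz using fun n : ℕ => hcon (n : ℝ)
      obtain ⟨φ, w, γ, hφ, hlim, -⟩ := C.cpt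
        (fun n => ((0 : G), Complex.exp (-μ (z n)) • (R (z n) * exp (-ξ (v (z n))))))
        (fun n => hS _) (fun n => hχ _) ⟨0, fun n => by simp⟩
      have h2 : Tendsto (fun n => ‖Complex.exp (-μ (z (φ n))) •
          (R (z (φ n)) * exp (-ξ (v (z (φ n)))))‖) atTop (𝓝 ‖γ‖) :=
        ((continuous_snd.tendsto _).comp hlim).norm
      have h3 : Tendsto (fun n => ((φ n : ℕ) : ℝ)) atTop atTop :=
        tendsto_natCast_atTop_atTop.comp hφ.tendsto_atTop
      have h4 := tendsto_atTop_mono (fun n => (hz (φ n)).le) h3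
      exact not_tendsto_nhds_of_tendsto_atTop h4 _ h2
    obtain ⟨M, hM⟩ := hbd
    have hdiff : Differentiable ℂ fun t : ℂ =>
        Complex.exp (-μ (t • a)) • (R (t • a) * exp (-ξ (v (t • a)))) := by
      have h1 : Differentiable ℂ fun t : ℂ => Complex.exp (-μ (t • a)) := by fun_prop
      have h2 : Differentiable ℂ fun t : ℂ => R (t • a) := by fun_prop
      have h3 : Differentiable ℂ fun t : ℂ => exp (-ξ (v (t • a))) := by
        have h4 := expA_differentiable_smul (-ξ (v a))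
        have h5 : (fun t : ℂ => exp (t • -ξ (v a))) = fun t : ℂ => exp (-ξ (v (t • a))) := by
          funext t
          rw [map_smul, map_smul, smul_neg]
        rwa [h5] at h4
      exact h1.smul (h2.mul h3)
    have hb : Bornology.IsBounded (Set.range fun t : ℂ =>
        Complex.exp (-μ (t • a)) • (R (t • a) * exp (-ξ (v (t • a))))) := by
      rw [isBounded_iff_forall_norm_le]
      refine ⟨M, ?_⟩
      rintro _ ⟨t, rfl⟩
      exact hM _
    have h6 := hdiff.apply_eq_apply_of_bounded hb 1 0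
    simp only [one_smul, zero_smul, map_zero, neg_zero, Complex.exp_zero, exp_zero, mul_one,
      hR0] at h6
    have h7 : exp (-ξ (v a)) * exp (ξ (v a)) = 1 := by rw [mul_comm]; exact expA_mul_neg _
    have h8 : Complex.exp (μ a) * Complex.exp (-μ a) = 1 := by
      rw [← Complex.exp_add, add_neg_cancel, Complex.exp_zero]
    calc R a = (1 : ℂ) • (R a * (exp (-ξ (v a)) * exp (ξ (v a)))) := by rw [h7, mul_one, one_smul]
      _ = Complex.exp (μ a) • ((Complex.exp (-μ a) • (R a * exp (-ξ (v a)))) * exp (ξ (v a))) := by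
          rw [← h8, mul_smul, smul_mul_assoc, mul_assoc]
      _ = Complex.exp (μ a) • exp (ξ (v a)) := by rw [h6, one_mul]
  · -- the periods
    have hne : ∀ i, C.χ (g i) ≠ 0 := fun i => ((C.unit _ _ (hg i)).map C.χ).ne_zero
    have hS : ∀ i, ((0 : G), (C.χ (g i))⁻¹ • (g i * exp (ξ (ω i)))) ∈ C.S := by
      intro i
      apply C.smul _ _ _ (inv_ne_zero (hne i))
      have h1 := C.mul _ _ _ _ (hg i) (hξ (ω i))
      rwa [neg_add_cancel] at h1
    have hχ : ∀ i, C.χ ((C.χ (g i))⁻¹ • (g i * exp (ξ (ω i)))) = 1 := by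
      intro i
      rw [map_smul, map_mul, chiA_exp, hξ0, Complex.exp_zero, mul_one, smul_eq_mul,
        inv_mul_cancel₀ (hne i)]
    choose k hk0 hk using fun i => C.finite_order (hχ i) (hS i)
    refine ⟨∏ i, k i, fun i => ((∏ i, k i : ℕ) : ℂ) * Complex.log (C.χ (g i)),
      Finset.prod_pos fun i _ => hk0 i, fun i => ?_⟩
    set K := ∏ i, k i with hK
    have h1 : ((C.χ (g i))⁻¹ • (g i * exp (ξ (ω i)))) ^ K = 1 := by
      obtain ⟨m, hm'⟩ := Finset.dvd_prod_of_mem k (Finset.mem_univ i)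
      rw [hK, hm', pow_mul, hk, one_pow]
    have h2 : Complex.exp ((K : ℂ) * Complex.log (C.χ (g i))) = C.χ (g i) ^ K := by
      rw [Complex.exp_nat_mul, Complex.exp_log (hne i)]
    have h3 : exp (ξ (ω i)) ^ K * exp (-((K : ℂ) • ξ (ω i))) = 1 := by
      rw [← expA_nsmul, ← Nat.cast_smul_eq_nsmul ℂ]
      exact expA_mul_neg _
    rw [h2]
    have h4 : C.χ (g i) ^ K * (C.χ (g i))⁻¹ ^ K = 1 := by
      rw [← mul_pow, mul_inv_cancel₀ (hne i), one_pow]
    rw [smul_pow, mul_pow] at h1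
    calc g i ^ K = (1 : ℂ) • (g i ^ K * (exp (ξ (ω i)) ^ K * exp (-((K : ℂ) • ξ (ω i))))) := by
          rw [h3, mul_one, one_smul]
      _ = C.χ (g i) ^ K • (((C.χ (g i))⁻¹ ^ K • (g i ^ K * exp (ξ (ω i)) ^ K)) *
          exp (-((K : ℂ) • ξ (ω i)))) := by
          rw [← h4, mul_smul, smul_mul_assoc, mul_assoc]
      _ = C.χ (g i) ^ K • exp (-((K : ℂ) • ξ (ω i))) := by rw [h1, one_mul]

end Pool.Agent.Lib.MP_db21fa_an.TF
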