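import Pool.Agent.Lib.MP_db21fa_an.TF.MinData
import Pool.Agent.Lib.MP_db21fa_an.TF.StepTwo

/-!
Project THETA, part 2: if `h (x - y) * b (x + y)` has rank `≤ N` then theta functions of `m`
variables with `2 ^ m ≤ N` suffice.  Definitions.
-/

set_option autoImplicit false

open Filter Topology Metric

namespace Pool.Agent.Lib.MP_db21fa_an.TF

/-- No proper complex subspace which contains the image of `v` is spanned by lattice vectors. -/
def HMin {E G ι : Type*} [NormedAddCommGroup E] [NormedSpace ℂ E] [NormedAddCommGroup G]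
    [NormedSpace ℂ G] (v : E →L[ℂ] G) (ω : ι → G) : Prop :=
  ∀ S : Submodule ℂ G, (∀ x, v x ∈ S) →
    (∀ s ∈ S, s ∈ Submodule.span ℝ {γ : G | γ ∈ AddSubgroup.closure (Set.range ω) ∧ γ ∈ S}) → S = ⊤

/-- `γ` is a multiplier period of `Θ` with linear form `l`. -/
def Mult {G : Type*} [NormedAddCommGroup G] [NormedSpace ℂ G] (Θ : G → ℂ) (γ : G)
    (l : G →L[ℂ] ℂ) : Prop :=
  ∃ c : ℂ, ∀ u, Θ (u + γ) = Complex.exp (l u + c) * Θ u

section rep

variable {E G ι : Type} [NormedAddCommGroup E] [NormedSpace ℂ E] [NormedAddCommGroup G]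
  [NormedSpace ℂ G]

/-- Representation data: a vector of theta functions with commuting multipliers, written with a
commutative algebra `A`. -/
structure Rep (v : E →L[ℂ] G) (ω : ι → G) (l : ι → G →L[ℂ] ℂ) (A : Type) [NormedCommRing A]
    [NormedAlgebra ℂ A] where
  /-- the exponential polynomials -/
  R : E → A
  R_zero : R 0 = 1
  R_add : ∀ x y, R (x + y) = R x * R y
  R_diff : Differentiable ℂ R
  /-- the multipliers -/
  g : ι → A
  g_unit : ∀ i, IsUnit (g i)
  /-- the theta functions -/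
  ev : G → A →L[ℂ] ℂ
  ev_diff : ∀ X, Differentiable ℂ fun w => ev w X
  per : ∀ i w X, ev (w + ω i) X = Complex.exp (l i w) * ev w (g i * X)

variable {v : E →L[ℂ] G} {ω : ι → G} {l : ι → G →L[ℂ] ℂ} {A : Type} [NormedCommRing A]
  [NormedAlgebra ℂ A]

/-- the functions of the representation -/
noncomputable def Rep.q (ρ : Rep v ω l A) (w : G) (X : A) (x : E) : ℂ := ρ.ev (v x + w) (ρ.R x * X)

/-- `q` has a representation with an algebra of dimension `k` -/
def HasRep (v : E →L[ℂ] G) (ω : ι → G) (l : ι → G →L[ℂ] ℂ) (q : E → ℂ) (k : ℕ) : Prop :=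
  ∃ (A : Type) (_ : NormedCommRing A) (_ : NormedAlgebra ℂ A) (_ : FiniteDimensional ℂ A)
    (ρ : Rep v ω l A), Module.finrank ℂ A = k ∧ q = ρ.q 0 1

end rep

end Pool.Agent.Lib.MP_db21fa_an.TF
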