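import Pool.Agent.Lib.MP_db21fa_an.TP.Defs

/-!
Project THETA, part 2: Fourier coefficients in the first variable.
-/

set_option autoImplicit false
set_option linter.unusedSectionVars false

open Filter Topology Metric MeasureTheory

namespace Pool.Agent.Lib.MP_db21fa_an.TF

variable {H : Type} [NormedAddCommGroup H] [NormedSpace ℂ H] [FiniteDimensional ℂ H]

/-- the `k`-th Fourier coefficient of `F (·, u)` -/
noncomputable def fc (F : ℂ × H → ℂ) (k : ℤ) (u : H) : ℂ :=
  ∫ t in (0 : ℝ)..1, F ((t : ℂ), u) * Complex.exp (-(2 * Real.pi * Complex.I * k * t))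

/-! ### parametric integrals -/

private theorem continuous_fderiv_entire {E : Type} [NormedAddCommGroup E] [NormedSpace ℂ E]
    [FiniteDimensional ℂ E] {f : E → ℂ} (hf : Differentiable ℂ f) :
    Continuous (fderiv ℂ f) :=
  continuous_clm_apply.2 fun y => (differentiable_dirDeriv hf y).continuous

private theorem hasFDerivAt_param {Φ : ℂ × H → ℂ} (hΦ : Differentiable ℂ Φ) (u : H) :
    HasFDerivAt (fun u => ∫ t in (0 : ℝ)..1, Φ ((t : ℂ), u))
      (∫ t in (0 : ℝ)..1, (fderiv ℂ Φ ((t : ℂ), u)).comp (ContinuousLinearMap.inr ℂ ℂ H)) u := by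
  have : ProperSpace H := FiniteDimensional.proper ℂ H
  have hc := continuous_fderiv_entire hΦ
  set D : H → ℝ → (H →L[ℂ] ℂ) := fun u t =>
    (fderiv ℂ Φ ((t : ℂ), u)).comp (ContinuousLinearMap.inr ℂ ℂ H) with hD
  have hDc : Continuous fun p : H × ℝ => D p.1 p.2 := by
    have h1 : Continuous fun p : H × ℝ => fderiv ℂ Φ ((p.2 : ℂ), p.1) := by
      refine hc.comp ?_
      fun_prop
    exact h1.clm_comp continuous_const
  obtain ⟨C, hC⟩ := ((isCompact_closedBall u 1).prod
    (isCompact_Icc (a := (0 : ℝ)) (b := 1))).exists_bound_of_continuousOn hDc.continuousOn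
  have hΦc : ∀ u : H, Continuous fun t : ℝ => Φ ((t : ℂ), u) := fun u => by
    refine hΦ.continuous.comp ?_
    fun_prop
  refine intervalIntegral.hasFDerivAt_integral_of_dominated_of_fderiv_le (𝕜 := ℂ) (μ := volume)
    (F := fun u t => Φ ((t : ℂ), u)) (F' := D) (bound := fun _ => C) (closedBall_mem_nhds u one_pos)
    (Eventually.of_forall fun x => (hΦc x).aestronglyMeasurable)
    ((hΦc u).intervalIntegrable _ _) ?_ ?_ (continuous_const.intervalIntegrable _ _) ?_
  · have : Continuous (D u) := hDc.comp (by fun_prop : Continuous fun t : ℝ => (u, t))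
    exact this.aestronglyMeasurable
  · refine Eventually.of_forall fun t ht x hx => hC (x, t) ⟨hx, ?_⟩
    rw [Set.uIoc_of_le zero_le_one] at ht
    exact ⟨ht.1.le, ht.2⟩
  · refine Eventually.of_forall fun t _ x _ => ?_
    have h1 : HasFDerivAt Φ (fderiv ℂ Φ ((t : ℂ), x)) ((t : ℂ), x) := (hΦ _).hasFDerivAt
    have h2 : HasFDerivAt (fun x : H => ((t : ℂ), x)) (ContinuousLinearMap.inr ℂ ℂ H) x :=
      hasFDerivAt_prodMk_right _ _
    exact h1.comp x h2

omit [FiniteDimensional ℂ H] in
private theorem differentiable_mul_exp {F : ℂ × H → ℂ} (hF : Differentiable ℂ F) (k : ℤ) :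
    Differentiable ℂ fun p : ℂ × H =>
      F p * Complex.exp (-(2 * Real.pi * Complex.I * k * p.1)) := by
  fun_prop

theorem differentiable_fc {F : ℂ × H → ℂ} (hF : Differentiable ℂ F) (k : ℤ) :
    Differentiable ℂ (fc F k) := fun u =>
  (hasFDerivAt_param (differentiable_mul_exp hF k) u).differentiableAt

/-- shift of the contour -/
private theorem integral_shift {G : ℂ → ℂ} (hG : Differentiable ℂ G) (hper : ∀ z, G (z + 1) = G z)
    (s : ℂ) : ∫ t in (0 : ℝ)..1, G (t + s) = ∫ t in (0 : ℝ)..1, G t := by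
  have hΦ : Differentiable ℂ fun p : ℂ × ℂ => G (p.1 + p.2) := by fun_prop
  have hd : ∀ s : ℂ, HasDerivAt (fun s : ℂ => ∫ t in (0 : ℝ)..1, G (t + s)) 0 s := by
    intro s
    have h1 := (hasFDerivAt_param hΦ s).hasDerivAt
    have h2 : (∫ t in (0 : ℝ)..1, (fderiv ℂ (fun p : ℂ × ℂ => G (p.1 + p.2)) ((t : ℂ), s)).comp
        (ContinuousLinearMap.inr ℂ ℂ ℂ)) 1 = 0 := by
      have hdG : Continuous (deriv G) := (hG.contDiff (n := 1)).continuous_deriv le_rfl
      have hval : ∀ t : ℝ, ((fderiv ℂ (fun p : ℂ × ℂ => G (p.1 + p.2)) ((t : ℂ), s)).comp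
          (ContinuousLinearMap.inr ℂ ℂ ℂ)) 1 = deriv G (t + s) := by
        intro t
        have e1 : HasFDerivAt (fun p : ℂ × ℂ => G (p.1 + p.2))
            ((fderiv ℂ G ((t : ℂ) + s)).comp
              (ContinuousLinearMap.fst ℂ ℂ ℂ + ContinuousLinearMap.snd ℂ ℂ ℂ)) ((t : ℂ), s) := by
          have e2 : HasFDerivAt G (fderiv ℂ G ((t : ℂ) + s)) ((t : ℂ) + s) := (hG _).hasFDerivAt
          exact e2.comp ((t : ℂ), s) ((ContinuousLinearMap.fst ℂ ℂ ℂ).hasFDerivAt.add
            (ContinuousLinearMap.snd ℂ ℂ ℂ).hasFDerivAt)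
        rw [e1.fderiv]
        simp
      have hci : Continuous fun t : ℝ =>
          (fderiv ℂ (fun p : ℂ × ℂ => G (p.1 + p.2)) ((t : ℂ), s)).comp
            (ContinuousLinearMap.inr ℂ ℂ ℂ) := by
        have h3 : Continuous fun t : ℝ =>
            fderiv ℂ (fun p : ℂ × ℂ => G (p.1 + p.2)) ((t : ℂ), s) :=
          (continuous_fderiv_entire hΦ).comp (by fun_prop)
        exact h3.clm_comp continuous_const
      rw [ContinuousLinearMap.intervalIntegral_apply (hci.intervalIntegrable _ _)]
      simp only [hval]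
      have hFTC := intervalIntegral.integral_eq_sub_of_hasDerivAt (a := (0 : ℝ)) (b := 1)
        (f := fun t : ℝ => G (t + s)) (f' := fun t : ℝ => deriv G (t + s))
        (fun t _ => by
          have e1 : HasDerivAt G (deriv G (t + s)) (t + s) := (hG _).hasDerivAt
          have e2 : HasDerivAt (fun t : ℝ => (t : ℂ) + s) 1 t :=
            (Complex.ofRealCLM.hasDerivAt (x := t)).add_const s |>.congr_deriv (by simp)
          have e3 := HasDerivAt.comp t e1 e2
          rw [mul_one] at e3
          exact e3)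
        ((hdG.comp (by fun_prop)).intervalIntegrable _ _)
      rw [hFTC]
      have := hper s
      simp only [Complex.ofReal_one, Complex.ofReal_zero, zero_add]
      rw [add_comm 1 s, this, sub_self]
    rw [h2] at h1
    exact h1
  have hconst := is_const_of_deriv_eq_zero (fun s => (hd s).differentiableAt)
    (fun s => (hd s).deriv) s 0
  simpa using hconst

omit [FiniteDimensional ℂ H] in
/-- the coefficients of a translate in the first variable -/
private theorem integral_translate {F : ℂ × H → ℂ} (hF : Differentiable ℂ F)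
    (hper : ∀ u, F (u + (1, 0)) = F u) (k : ℤ) (s : ℂ) (u : H) :
    ∫ t in (0 : ℝ)..1, F ((t : ℂ) + s, u) * Complex.exp (-(2 * Real.pi * Complex.I * k * t))
      = Complex.exp (2 * Real.pi * Complex.I * k * s) * fc F k u := by
  set G : ℂ → ℂ := fun z => F (z, u) * Complex.exp (-(2 * Real.pi * Complex.I * k * z)) with hG
  have hGd : Differentiable ℂ G := by
    have : Differentiable ℂ fun z : ℂ => F (z, u) :=
      hF.comp (differentiable_id.prodMk (differentiable_const u))
    fun_prop
  have hGp : ∀ z, G (z + 1) = G z := by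
    intro z
    have h1 : F (z + 1, u) = F (z, u) := by
      have := hper (z, u)
      simpa using this
    have h2 : Complex.exp (-(2 * Real.pi * Complex.I * k * (z + 1)))
        = Complex.exp (-(2 * Real.pi * Complex.I * k * z)) := by
      rw [Complex.exp_eq_exp_iff_exists_int]
      exact ⟨-k, by push_cast; ring⟩
    simp only [hG, h1, h2]
  have h := integral_shift hGd hGp s
  have e1 : fc F k u = ∫ t in (0 : ℝ)..1, G t := rfl
  rw [e1, ← h, ← intervalIntegral.integral_const_mul]
  congr 1
  ext1 t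
  simp only [hG]
  have h3 : Complex.exp (-(2 * Real.pi * Complex.I * k * t))
      = Complex.exp (2 * Real.pi * Complex.I * k * s) *
        Complex.exp (-(2 * Real.pi * Complex.I * k * (t + s))) := by
    rw [← Complex.exp_add]
    congr 1
    ring
  rw [h3]
  ring

/-- uniqueness of Fourier coefficients, one variable -/
private theorem eq_zero_of_coeff {f : ℝ → ℂ} (hf : Continuous f) (hper : ∀ t, f (t + 1) = f t)
    (h : ∀ k : ℤ, ∫ t in (0 : ℝ)..1, f t * Complex.exp (-(2 * Real.pi * Complex.I * k * t)) = 0)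
    (t : ℝ) : f t = 0 := by
  have : Fact ((0 : ℝ) < 1) := ⟨one_pos⟩
  have hp : Function.Periodic f 1 := hper
  set g : C(AddCircle (1 : ℝ), ℂ) := ⟨hp.lift, by
    refine continuous_coinduced_dom.2 ?_
    exact hf⟩ with hg
  have hgt : ∀ t : ℝ, g (t : AddCircle (1 : ℝ)) = f t := fun t => hp.lift_coe t
  have hcoef : fourierCoeff g = 0 := by
    funext k
    rw [fourierCoeff_eq_intervalIntegral _ k 0]
    simp only [zero_add, Pi.zero_apply, hgt]
    have e : ∀ x : ℝ, @fourier (1 : ℝ) (-k) (x : AddCircle (1 : ℝ)) • f x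
        = f x * Complex.exp (-(2 * Real.pi * Complex.I * k * x)) := by
      intro x
      rw [fourier_coe_apply, smul_eq_mul, mul_comm]
      congr 2
      push_cast
      ring
    simp only [e, h k, smul_zero]
  have hs := has_pointwise_sum_fourier_series_of_summable (f := g)
    (by rw [hcoef]; exact summable_zero) (t : AddCircle (1 : ℝ))
  rw [hcoef, hgt] at hs
  simp only [Pi.zero_apply, zero_smul] at hs
  exact (hs.unique hasSum_zero)

/-- uniqueness -/
private theorem eq_zero_of_fc {F : ℂ × H → ℂ} (hF : Differentiable ℂ F)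
    (hper : ∀ u, F (u + (1, 0)) = F u) (h : ∀ k : ℤ, fc F k = 0) (u : ℂ × H) : F u = 0 := by
  have h1 := eq_zero_of_coeff (f := fun t : ℝ => F ((t : ℂ) + u.1, u.2))
    (hF.continuous.comp (by fun_prop)) (fun t => by
      have := hper ((t : ℂ) + u.1, u.2)
      have e : (((t + 1 : ℝ) : ℂ) + u.1, u.2) = ((t : ℂ) + u.1, u.2) + ((1 : ℂ), (0 : H)) := by
        ext
        · simp only [Prod.mk_add_mk]
          push_cast
          ring
        · simp
      simp only [e, this]) (fun k => by
      rw [integral_translate hF hper k u.1 u.2, h k]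
      simp) 0
  simpa using h1

private theorem fc_shift {F : ℂ × H → ℂ} (hF : Differentiable ℂ F)
    (hper : ∀ u, F (u + (1, 0)) = F u) (k : ℤ) (s : ℂ) :
    fc (fun p => F (p + (s, 0))) k = fun u => Complex.exp (2 * Real.pi * Complex.I * k * s)
      * fc F k u := by
  ext1 u
  rw [← integral_translate hF hper k s u]
  unfold fc
  simp only [Prod.mk_add_mk, add_zero]

omit [NormedSpace ℂ H] [FiniteDimensional ℂ H] in
private theorem fc_add {F G : ℂ × H → ℂ} (hF : Continuous F) (hG : Continuous G) (k : ℤ) (u : H) :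
    fc (fun p => F p + G p) k u = fc F k u + fc G k u := by
  unfold fc
  rw [← intervalIntegral.integral_add]
  · congr 1
    ext1 t
    ring
  · exact Continuous.intervalIntegrable (by fun_prop) _ _
  · exact Continuous.intervalIntegrable (by fun_prop) _ _

omit [NormedSpace ℂ H] [FiniteDimensional ℂ H] in
private theorem fc_sub {F G : ℂ × H → ℂ} (hF : Continuous F) (hG : Continuous G) (k : ℤ) (u : H) :
    fc (fun p => F p - G p) k u = fc F k u - fc G k u := by
  unfold fc
  rw [← intervalIntegral.integral_sub]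
  · congr 1
    ext1 t
    ring
  · exact Continuous.intervalIntegrable (by fun_prop) _ _
  · exact Continuous.intervalIntegrable (by fun_prop) _ _

private theorem exp_even {k : ℤ} (hk : Even k) :
    Complex.exp (2 * Real.pi * Complex.I * k * (1 / 2)) = 1 := by
  obtain ⟨j, rfl⟩ := hk
  rw [Complex.exp_eq_one_iff]
  exact ⟨j, by push_cast; ring⟩

private theorem exp_odd {k : ℤ} (hk : Odd k) :
    Complex.exp (2 * Real.pi * Complex.I * k * (1 / 2)) = -1 := by
  obtain ⟨j, rfl⟩ := hk
  rw [← Complex.exp_pi_mul_I, Complex.exp_eq_exp_iff_exists_int]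
  exact ⟨j, by push_cast; ring⟩

/-- if all odd coefficients vanish, `1 / 2` is a period -/
theorem half_period_of_odd {F : ℂ × H → ℂ} (hF : Differentiable ℂ F)
    (hper : ∀ u, F (u + (1, 0)) = F u) (h : ∀ k : ℤ, Odd k → fc F k = 0) (u : ℂ × H) :
    F (u + (1 / 2, 0)) = F u := by
  have hFs : Differentiable ℂ fun p : ℂ × H => F (p + (1 / 2, 0)) := by fun_prop
  have h1 := eq_zero_of_fc (F := fun p => F (p + (1 / 2, 0)) - F p) (hFs.sub hF)
    (fun p => by
      have e : p + (1, 0) + (1 / 2, 0) = p + (1 / 2, 0) + ((1 : ℂ), (0 : H)) := add_right_comm _ _ _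
      simp only [e, hper]) (fun k => by
      ext1 w
      rw [fc_sub hFs.continuous hF.continuous, fc_shift hF hper]
      rcases Int.even_or_odd k with hk | hk
      · simp only [exp_even hk, one_mul, sub_self, Pi.zero_apply]
      · simp only [h k hk, Pi.zero_apply, mul_zero, sub_self]) u
  exact sub_eq_zero.1 h1

/-- if all even coefficients vanish, `1 / 2` is an antiperiod -/
theorem half_period_of_even {F : ℂ × H → ℂ} (hF : Differentiable ℂ F)
    (hper : ∀ u, F (u + (1, 0)) = F u) (h : ∀ k : ℤ, Even k → fc F k = 0) (u : ℂ × H) :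
    F (u + (1 / 2, 0)) = -F u := by
  have hFs : Differentiable ℂ fun p : ℂ × H => F (p + (1 / 2, 0)) := by fun_prop
  have h1 := eq_zero_of_fc (F := fun p => F (p + (1 / 2, 0)) + F p) (hFs.add hF)
    (fun p => by
      have e : p + (1, 0) + (1 / 2, 0) = p + (1 / 2, 0) + ((1 : ℂ), (0 : H)) := add_right_comm _ _ _
      simp only [e, hper]) (fun k => by
      ext1 w
      rw [fc_add hFs.continuous hF.continuous, fc_shift hF hper]
      rcases Int.even_or_odd k with hk | hk
      · simp only [h k hk, Pi.zero_apply, mul_zero, add_zero]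
      · simp only [exp_odd hk, neg_mul, one_mul, neg_add_cancel, Pi.zero_apply]) u
  exact eq_neg_of_add_eq_zero_left h1

private theorem integral_exp (k k₀ : ℤ) :
    ∫ t in (0 : ℝ)..1, Complex.exp (2 * Real.pi * Complex.I * k₀ * t) *
      Complex.exp (-(2 * Real.pi * Complex.I * k * t)) = if k = k₀ then 1 else 0 := by
  have e : ∀ t : ℝ, Complex.exp (2 * Real.pi * Complex.I * k₀ * t) *
      Complex.exp (-(2 * Real.pi * Complex.I * k * t))
        = Complex.exp ((2 * Real.pi * Complex.I * (k₀ - k : ℤ)) * t) := by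
    intro t
    rw [← Complex.exp_add]
    congr 1
    push_cast
    ring
  simp only [e]
  split_ifs with hk
  · subst hk
    simp
  · have hne : 2 * (Real.pi : ℂ) * Complex.I * (k₀ - k : ℤ) ≠ 0 := by
      have h1 : ((k₀ - k : ℤ) : ℂ) ≠ 0 := by
        rw [Int.cast_ne_zero]
        exact sub_ne_zero.2 (Ne.symm hk)
      have h2 : (Real.pi : ℂ) ≠ 0 := by exact_mod_cast Real.pi_ne_zero
      exact mul_ne_zero (mul_ne_zero (mul_ne_zero two_ne_zero h2) Complex.I_ne_zero) h1
    rw [integral_exp_mul_complex hne]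
    have h3 : Complex.exp (2 * Real.pi * Complex.I * (k₀ - k : ℤ) * ((1 : ℝ) : ℂ)) = 1 := by
      rw [Complex.exp_eq_one_iff]
      exact ⟨k₀ - k, by push_cast; ring⟩
    rw [h3]
    simp

private theorem eq_single {F : ℂ × H → ℂ} (hF : Differentiable ℂ F)
    (hper : ∀ u, F (u + (1, 0)) = F u) (k₀ : ℤ) (h : ∀ k : ℤ, k ≠ k₀ → fc F k = 0) (u : ℂ × H) :
    F u = Complex.exp (2 * Real.pi * Complex.I * k₀ * u.1) * fc F k₀ u.2 := by
  have hfd := differentiable_fc hF k₀
  set S : ℂ × H → ℂ := fun u => Complex.exp (2 * Real.pi * Complex.I * k₀ * u.1) * fc F k₀ u.2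
    with hS
  have hSd : Differentiable ℂ S := by fun_prop
  have h1 := eq_zero_of_fc (F := fun p => F p - S p) (hF.sub hSd)
    (fun p => by
      have e1 := hper p
      have e2 : S (p + (1, 0)) = S p := by
        simp only [hS, Prod.fst_add, Prod.snd_add, add_zero]
        congr 1
        rw [Complex.exp_eq_exp_iff_exists_int]
        exact ⟨k₀, by ring⟩
      simp only [e1, e2]) (fun k => by
      ext1 w
      rw [fc_sub hF.continuous hSd.continuous]
      have e3 : fc S k w = (if k = k₀ then 1 else 0) * fc F k₀ w := by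
        rw [← integral_exp k k₀, ← intervalIntegral.integral_mul_const]
        unfold fc
        congr 1
        ext1 t
        simp only [hS, fc]
        ring
      rw [e3]
      by_cases hk : k = k₀
      · rw [hk]; simp
      · rw [h k hk]; simp [hk]) u
  exact sub_eq_zero.1 h1

/-- if only the `k₀`-th coefficient is not zero, `F` is an exponential in the first variable -/
theorem deriv_of_single {F : ℂ × H → ℂ} (hF : Differentiable ℂ F)
    (hper : ∀ u, F (u + (1, 0)) = F u) (k₀ : ℤ) (h : ∀ k : ℤ, k ≠ k₀ → fc F k = 0) (u : ℂ × H) :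
    fderiv ℂ F u (1, 0) = 2 * Real.pi * Complex.I * k₀ * F u := by
  have h1 : HasFDerivAt F (fderiv ℂ F u) u := (hF u).hasFDerivAt
  have h2 : HasDerivAt (fun t : ℂ => u + t • ((1 : ℂ), (0 : H))) ((1 : ℂ), (0 : H)) 0 := by
    simpa using ((hasDerivAt_id (0 : ℂ)).smul_const ((1 : ℂ), (0 : H))).const_add u
  have h3 : HasDerivAt (fun t : ℂ => F (u + t • ((1 : ℂ), (0 : H)))) (fderiv ℂ F u (1, 0)) 0 := by
    have h1' : HasFDerivAt F (fderiv ℂ F u) (u + (0 : ℂ) • ((1 : ℂ), (0 : H))) := by
      simpa using h1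
    exact h1'.comp_hasDerivAt 0 h2
  have h4 : (fun t : ℂ => F (u + t • ((1 : ℂ), (0 : H))))
      = fun t => Complex.exp (2 * Real.pi * Complex.I * k₀ * t) * F u := by
    ext1 t
    rw [eq_single hF hper k₀ h (u + t • ((1 : ℂ), (0 : H))), eq_single hF hper k₀ h u]
    simp only [Prod.smul_mk, smul_zero, Prod.fst_add, Prod.snd_add, add_zero, smul_eq_mul, mul_one]
    rw [← mul_assoc, ← Complex.exp_add]
    congr 2
    ring
  rw [h4] at h3
  have h5 : HasDerivAt (fun t : ℂ => Complex.exp (2 * Real.pi * Complex.I * k₀ * t) * F u)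
      (2 * Real.pi * Complex.I * k₀ * F u) 0 := by
    have e : HasDerivAt (fun t : ℂ => 2 * Real.pi * Complex.I * k₀ * t)
        (2 * Real.pi * Complex.I * k₀) 0 := by
      simpa using (hasDerivAt_id (0 : ℂ)).const_mul (2 * Real.pi * Complex.I * k₀ : ℂ)
    simpa using e.cexp.mul_const (F u)
  exact h3.unique h5

theorem exists_fc_ne_zero {F : ℂ × H → ℂ} (hF : Differentiable ℂ F) (h0 : F ≠ 0)
    (hper : ∀ u, F (u + (1, 0)) = F u) : ∃ k, fc F k ≠ 0 := by
  by_contra hcon
  push Not at hcon
  exact h0 (funext fun u => eq_zero_of_fc hF hper hcon u)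

/-- quasi-periodicity of the coefficients -/
theorem fc_quasi {F : ℂ × H → ℂ} (hF : Differentiable ℂ F) (hper : ∀ u, F (u + (1, 0)) = F u)
    {lam : ℂ × H} {l : ℂ × H →L[ℂ] ℂ} (hl : l (1, 0) = 0) {c : ℂ}
    (h : ∀ u, F (u + lam) = Complex.exp (l u + c) * F u) (k : ℤ) (u : H) :
    fc F k (u + lam.2) =
      Complex.exp (l (0, u) + (c - 2 * Real.pi * Complex.I * k * lam.1)) * fc F k u := by
  have h1 := integral_translate hF hper k (-lam.1) u
  have h2 : ∀ t : ℝ, F ((t : ℂ), u + lam.2)
      = Complex.exp (l (0, u) + c) * F ((t : ℂ) + -lam.1, u) := by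
    intro t
    have h3 := h ((t : ℂ) + -lam.1, u)
    have e1 : ((t : ℂ) + -lam.1, u) + lam = ((t : ℂ), u + lam.2) := by
      ext <;> simp
    have e2 : l ((t : ℂ) + -lam.1, u) = l (0, u) := by
      have e3 : (((t : ℂ) + -lam.1, u) : ℂ × H) = ((t : ℂ) + -lam.1) • ((1 : ℂ), (0 : H)) + (0, u) := by
        ext <;> simp
      rw [e3, map_add, map_smul, hl]
      simp
    rw [e1, e2] at h3
    exact h3
  unfold fc at h1 ⊢
  simp only [h2]
  have h4 : ∫ t in (0 : ℝ)..1, Complex.exp (l (0, u) + c) * F ((t : ℂ) + -lam.1, u) *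
      Complex.exp (-(2 * Real.pi * Complex.I * k * t))
      = Complex.exp (l (0, u) + c) * ∫ t in (0 : ℝ)..1, F ((t : ℂ) + -lam.1, u) *
      Complex.exp (-(2 * Real.pi * Complex.I * k * t)) := by
    rw [← intervalIntegral.integral_const_mul]
    congr 1
    ext1 t
    ring
  rw [h4, h1, ← mul_assoc, ← Complex.exp_add]
  congr 2
  ring

end Pool.Agent.Lib.MP_db21fa_an.TF
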