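import Pool.Agent.Lib.MP_db21fa_an.TP.Fc

/-!
Project THETA, part 2: the rank inequality.
-/

set_option autoImplicit false

open Filter Topology Metric MeasureTheory

namespace Pool.Agent.Lib.MP_db21fa_an.TF

variable {H : Type} [NormedAddCommGroup H] [NormedSpace ℂ H] [FiniteDimensional ℂ H]

private theorem shift_per {g : ℝ → ℂ} (h : ∀ t, g (t + 1) = g t) (a : ℝ) :
    ∫ s in (0 : ℝ)..1, g (s + a) = ∫ s in (0 : ℝ)..1, g s := by
  rw [intervalIntegral.integral_comp_add_right (f := g) a]
  have h1 := Function.Periodic.intervalIntegral_add_eq (f := g) (T := 1) h a 0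
  simp only [zero_add] at h1 ⊢
  rw [add_comm 1 a]
  exact h1

private theorem double_per {g : ℝ → ℂ} (hg : Continuous g) (h : ∀ t, g (t + 1) = g t) (a : ℝ) :
    ∫ t in (0 : ℝ)..1, g (a + 2 * t) = ∫ s in (0 : ℝ)..1, g s := by
  have h1 : ∫ t in (0 : ℝ)..1, g (a + 2 * t) = (2 : ℝ)⁻¹ • ∫ s in (a + 2 * 0)..(a + 2 * 1), g s :=
    intervalIntegral.integral_comp_add_mul g (by norm_num) a
  have h2 := Function.Periodic.intervalIntegral_add_zsmul_eq (f := g) (T := 1) h 2 a
    (fun t₁ t₂ => hg.intervalIntegrable t₁ t₂)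
  have h3 := Function.Periodic.intervalIntegral_add_eq (f := g) (T := 1) h a 0
  rw [h1]
  have h4 : a + 2 * 0 = a := by ring
  have h5 : a + 2 * 1 = a + (2 : ℤ) • (1 : ℝ) := by
    simp
  rw [h4, h5, h2, h3, zero_add]
  rw [zsmul_eq_mul, Complex.real_smul]
  push_cast
  ring

private theorem swap_cont {F : ℝ → ℝ → ℂ} (hF : Continuous fun p : ℝ × ℝ => F p.1 p.2) :
    ∫ x in (0 : ℝ)..1, ∫ y in (0 : ℝ)..1, F x y = ∫ y in (0 : ℝ)..1, ∫ x in (0 : ℝ)..1, F x y := by
  refine intervalIntegral_intervalIntegral_swap (F := F) ?_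
  have h1 : IntegrableOn (Function.uncurry F) (Set.Icc (0 : ℝ) 1 ×ˢ Set.Icc (0 : ℝ) 1) :=
    ContinuousOn.integrableOn_compact (isCompact_Icc.prod isCompact_Icc)
      (by exact hF.continuousOn)
  refine h1.mono_set (Set.prod_mono ?_ ?_)
  · rw [Set.uIoc_of_le (by norm_num)]; exact Set.Ioc_subset_Icc_self
  · rw [Set.uIoc_of_le (by norm_num)]; exact Set.Ioc_subset_Icc_self

private theorem exp_per (k : ℤ) (t : ℝ) :
    Complex.exp (-(2 * Real.pi * Complex.I * k * ((t + 1 : ℝ) : ℂ))) =
      Complex.exp (-(2 * Real.pi * Complex.I * k * t)) := by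
  rw [Complex.exp_eq_exp_iff_exists_int]
  refine ⟨-k, ?_⟩
  push_cast
  ring

/-- the product formula, one variable -/
theorem fc_product {F F' : ℝ → ℂ} (hF : Continuous F) (hF' : Continuous F')
    (h1 : ∀ t, F (t + 1) = F t) (h2 : ∀ t, F' (t + 1) = F' t) (α β : ℤ) :
    (∫ t in (0 : ℝ)..1, ∫ s in (0 : ℝ)..1, F (s - t) * F' (s + t) *
      Complex.exp (-(2 * Real.pi * Complex.I * ((α + β) * s + (β - α) * t)))) =
    (∫ t in (0 : ℝ)..1, F t * Complex.exp (-(2 * Real.pi * Complex.I * α * t))) *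
      ∫ t in (0 : ℝ)..1, F' t * Complex.exp (-(2 * Real.pi * Complex.I * β * t)) := by
  set f : ℝ → ℂ := fun t => F t * Complex.exp (-(2 * Real.pi * Complex.I * α * t)) with hf
  set g : ℝ → ℂ := fun t => F' t * Complex.exp (-(2 * Real.pi * Complex.I * β * t)) with hg
  have hfc : Continuous f := by
    refine hF.mul (Complex.continuous_exp.comp ?_)
    fun_prop
  have hgc : Continuous g := by
    refine hF'.mul (Complex.continuous_exp.comp ?_)
    fun_prop
  have hfp : ∀ t, f (t + 1) = f t := fun t => by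
    simp only [hf, h1, exp_per]
  have hgp : ∀ t, g (t + 1) = g t := fun t => by
    simp only [hg, h2, exp_per]
  have e1 : ∀ t s : ℝ, F (s - t) * F' (s + t) *
      Complex.exp (-(2 * Real.pi * Complex.I * ((α + β) * s + (β - α) * t))) =
      f (s - t) * g (s + t) := by
    intro t s
    simp only [hf, hg]
    have : Complex.exp (-(2 * Real.pi * Complex.I * ((α + β) * s + (β - α) * t))) =
        Complex.exp (-(2 * Real.pi * Complex.I * α * ((s - t : ℝ) : ℂ))) *
        Complex.exp (-(2 * Real.pi * Complex.I * β * ((s + t : ℝ) : ℂ))) := by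
      rw [← Complex.exp_add]
      congr 1
      push_cast
      ring
    rw [this]
    ring
  simp only [e1]
  have e2 : ∀ t : ℝ, ∫ s in (0 : ℝ)..1, f (s - t) * g (s + t) =
      ∫ s in (0 : ℝ)..1, f s * g (s + 2 * t) := by
    intro t
    have := shift_per (g := fun s => f (s - t) * g (s + t)) (fun s => by
      have a1 : s + 1 - t = (s - t) + 1 := by ring
      have a2 : s + 1 + t = (s + t) + 1 := by ring
      simp only [a1, a2, hfp, hgp]) t
    rw [← this]
    refine intervalIntegral.integral_congr fun s _ => ?_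
    have a1 : s + t - t = s := by ring
    have a2 : s + t + t = s + 2 * t := by ring
    simp only [a1, a2]
  simp only [e2]
  rw [swap_cont (F := fun t s => f s * g (s + 2 * t)) (by fun_prop)]
  simp only [intervalIntegral.integral_const_mul, double_per hgc hgp]
  rw [intervalIntegral.integral_mul_const]

/-- a rank inequality for the coefficients: `L` is `PK F F'` or one of its parity parts -/
theorem rankLE_fc {K : ℂ × H → ℂ × H → ℂ} (hK : Continuous fun p : (ℂ × H) × (ℂ × H) => K p.1 p.2)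
    {n : ℕ} (hn : RankLE K n) (μ ν : ℤ) :
    RankLE (fun u w : H => ∫ t in (0 : ℝ)..1, ∫ s in (0 : ℝ)..1, K ((s : ℂ), u) ((t : ℂ), w) *
      Complex.exp (-(2 * Real.pi * Complex.I * (μ * s + ν * t)))) n := by
  obtain ⟨r, hr⟩ := FR.exists_rankEq ⟨n, hn⟩
  obtain ⟨a, b, hd⟩ := hr.exists_minor
  refine RankLE.mono ?_ (hr.2 n hn)
  set M := (mm K a b)⁻¹ with hM
  refine ⟨fun i u => ∑ j, (∫ s in (0 : ℝ)..1, K ((s : ℂ), u) (b j) *
      Complex.exp (-(2 * Real.pi * Complex.I * μ * s))) * M j i,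
    fun i w => ∫ t in (0 : ℝ)..1, K (a i) ((t : ℂ), w) *
      Complex.exp (-(2 * Real.pi * Complex.I * ν * t)), fun u w => ?_⟩
  have c1 : ∀ j, Continuous fun s : ℝ => K ((s : ℂ), u) (b j) *
      Complex.exp (-(2 * Real.pi * Complex.I * μ * s)) := fun j => by
    refine Continuous.mul ?_ (by fun_prop)
    exact hK.comp (by fun_prop : Continuous fun s : ℝ => ((((s : ℂ), u) : ℂ × H), b j))
  have c2 : ∀ i, Continuous fun t : ℝ => K (a i) ((t : ℂ), w) *
      Complex.exp (-(2 * Real.pi * Complex.I * ν * t)) := fun i => by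
    refine Continuous.mul ?_ (by fun_prop)
    exact hK.comp (by fun_prop : Continuous fun t : ℝ => (a i, (((t : ℂ), w) : ℂ × H)))
  have e1 : ∀ s t : ℝ, K ((s : ℂ), u) ((t : ℂ), w) *
      Complex.exp (-(2 * Real.pi * Complex.I * (μ * s + ν * t))) =
      ∑ i, ∑ j, (K ((s : ℂ), u) (b j) * Complex.exp (-(2 * Real.pi * Complex.I * μ * s))) * M j i *
        (K (a i) ((t : ℂ), w) * Complex.exp (-(2 * Real.pi * Complex.I * ν * t))) := by
    intro s t
    rw [rank_formula hr.1 hd ((s : ℂ), u) ((t : ℂ), w)]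
    have : Complex.exp (-(2 * Real.pi * Complex.I * (μ * s + ν * t))) =
        Complex.exp (-(2 * Real.pi * Complex.I * μ * s)) *
        Complex.exp (-(2 * Real.pi * Complex.I * ν * t)) := by
      rw [← Complex.exp_add]
      congr 1
      ring
    rw [this, Finset.sum_mul]
    refine Finset.sum_congr rfl fun i _ => ?_
    rw [Finset.sum_mul]
    refine Finset.sum_congr rfl fun j _ => ?_
    ring
  have e2 : ∀ t : ℝ, (∫ s in (0 : ℝ)..1, K ((s : ℂ), u) ((t : ℂ), w) *
      Complex.exp (-(2 * Real.pi * Complex.I * (μ * s + ν * t)))) =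
      ∑ i, ∑ j, (∫ s in (0 : ℝ)..1, K ((s : ℂ), u) (b j) *
        Complex.exp (-(2 * Real.pi * Complex.I * μ * s))) * M j i *
        (K (a i) ((t : ℂ), w) * Complex.exp (-(2 * Real.pi * Complex.I * ν * t))) := by
    intro t
    simp only [e1]
    rw [intervalIntegral.integral_finsetSum]
    · refine Finset.sum_congr rfl fun i _ => ?_
      rw [intervalIntegral.integral_finsetSum]
      · refine Finset.sum_congr rfl fun j _ => ?_
        rw [intervalIntegral.integral_mul_const, intervalIntegral.integral_mul_const]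
      · intro j _
        exact (((c1 j).mul continuous_const).mul continuous_const).intervalIntegrable _ _
    · intro i _
      exact (continuous_finsetSum _ fun j _ =>
        (((c1 j).mul continuous_const).mul continuous_const)).intervalIntegrable _ _
  simp only [e2]
  rw [intervalIntegral.integral_finsetSum]
  · refine Finset.sum_congr rfl fun i _ => ?_
    rw [Finset.sum_mul, intervalIntegral.integral_finsetSum]
    · refine Finset.sum_congr rfl fun j _ => ?_
      rw [intervalIntegral.integral_const_mul]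
    · intro j _
      exact (continuous_const.mul (c2 i)).intervalIntegrable _ _
  · intro i _
    exact (continuous_finsetSum _ fun j _ => continuous_const.mul (c2 i)).intervalIntegrable _ _

/-- the ranks of the two parity parts add up -/
private theorem rank_parts {X : Type*} {K : X → X → ℂ} {N : ℕ} (hN : RankLE K N) (e : X → X)
    (he : ∀ x y, K x (e y) = K (e x) y) (he2 : ∀ x y, K (e (e x)) y = K x y) {p m : ℕ}
    (hp : RankEq (fun x y => (K x y + K (e x) y) / 2) p)
    (hm : RankEq (fun x y => (K x y - K (e x) y) / 2) m) : p + m ≤ N := by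
  set P : X → X → ℂ := fun x y => (K x y + K (e x) y) / 2 with hP
  set M : X → X → ℂ := fun x y => (K x y - K (e x) y) / 2 with hM
  obtain ⟨r, hr⟩ := FR.exists_rankEq ⟨N, hN⟩
  refine le_trans ?_ (hr.2 N hN)
  have := finiteDimensional_rowSp hr.1
  have hP1 : rowSp P ≤ rowSp K := by
    refine Submodule.span_le.2 ?_
    rintro _ ⟨x, rfl⟩
    have : P x = (1 / 2 : ℂ) • (K x + K (e x)) := by
      funext y; simp [hP]; ring
    rw [this]
    exact Submodule.smul_mem _ _ (Submodule.add_mem _ (Submodule.subset_span ⟨x, rfl⟩)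
      (Submodule.subset_span ⟨e x, rfl⟩))
  have hM1 : rowSp M ≤ rowSp K := by
    refine Submodule.span_le.2 ?_
    rintro _ ⟨x, rfl⟩
    have : M x = (1 / 2 : ℂ) • (K x - K (e x)) := by
      funext y; simp [hM]; ring
    rw [this]
    exact Submodule.smul_mem _ _ (Submodule.sub_mem _ (Submodule.subset_span ⟨x, rfl⟩)
      (Submodule.subset_span ⟨e x, rfl⟩))
  have hP2 : ∀ f ∈ rowSp P, ∀ y, f (e y) = f y := by
    intro f hf
    refine Submodule.span_induction (p := fun f _ => ∀ y, f (e y) = f y) ?_ ?_ ?_ ?_ hf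
    · rintro _ ⟨x, rfl⟩ y
      simp only [hP, he, he2]
      ring
    · intro y; simp
    · intro u v _ _ hu hv y
      simp [hu y, hv y]
    · intro c u _ hu y
      simp [hu y]
  have hM2 : ∀ f ∈ rowSp M, ∀ y, f (e y) = -f y := by
    intro f hf
    refine Submodule.span_induction (p := fun f _ => ∀ y, f (e y) = -f y) ?_ ?_ ?_ ?_ hf
    · rintro _ ⟨x, rfl⟩ y
      simp only [hM, he, he2]
      ring
    · intro y; simp
    · intro u v _ _ hu hv y
      simp [hu y, hv y]; ring
    · intro c u _ hu y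
      simp [hu y]
  have hdis : rowSp P ⊓ rowSp M = ⊥ := by
    rw [eq_bot_iff]
    rintro f ⟨hf1, hf2⟩
    refine (Submodule.mem_bot ℂ).2 ?_
    funext y
    have h1 := hP2 f hf1 y
    have h2 := hM2 f hf2 y
    rw [h1] at h2
    have h3 : (2 : ℂ) * f y = 0 := by linear_combination h2
    simpa using h3
  have hsup : rowSp P ⊔ rowSp M ≤ rowSp K := sup_le hP1 hM1
  have hfP : FiniteDimensional ℂ (rowSp P) := Submodule.finiteDimensional_of_le hP1
  have hfM : FiniteDimensional ℂ (rowSp M) := Submodule.finiteDimensional_of_le hM1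
  have h1 := Submodule.finrank_sup_add_finrank_inf_eq (rowSp P) (rowSp M)
  rw [hdis, finrank_bot, add_zero, finrank_rowSp hp, finrank_rowSp hm] at h1
  rw [← h1, ← finrank_rowSp hr]
  exact Submodule.finrank_mono hsup

/-- the coefficient of a parity part -/
private theorem part_coeff {F F' : ℂ × H → ℂ} (hF : Continuous F) (hF' : Continuous F')
    (hper : ∀ u, F (u + (1, 0)) = F u) (hper' : ∀ u, F' (u + (1, 0)) = F' u) (α β : ℤ) (σ : ℂ)
    (hσ : Complex.exp (Real.pi * Complex.I * (α + β)) = σ) (hσ2 : σ * σ = 1) (u w : H) :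
    (∫ t in (0 : ℝ)..1, ∫ s in (0 : ℝ)..1,
      ((PK F F' ((s : ℂ), u) ((t : ℂ), w) + σ * PK F F' (((s : ℂ), u) + (1 / 2, 0)) ((t : ℂ), w)) / 2) *
      Complex.exp (-(2 * Real.pi * Complex.I * (((α + β : ℤ) : ℂ) * s + ((β - α : ℤ) : ℂ) * t)))) =
      PK (fc F α) (fc F' β) u w := by
  have hcF : ∀ z : H, Continuous fun t : ℝ => F ((t : ℂ), z) := fun z => hF.comp (by fun_prop)
  have hcF' : ∀ z : H, Continuous fun t : ℝ => F' ((t : ℂ), z) := fun z => hF'.comp (by fun_prop)
  have hpF : ∀ (z : H) (t : ℝ), F (((t + 1 : ℝ) : ℂ), z) = F ((t : ℂ), z) := fun z t => by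
    have := hper ((t : ℂ), z)
    simpa using this
  have hpF' : ∀ (z : H) (t : ℝ), F' (((t + 1 : ℝ) : ℂ), z) = F' ((t : ℂ), z) := fun z t => by
    have := hper' ((t : ℂ), z)
    simpa using this
  have h0 := fc_product (hcF (u - w)) (hcF' (u + w)) (hpF (u - w)) (hpF' (u + w)) α β
  have e0 : PK (fc F α) (fc F' β) u w =
      (∫ t in (0 : ℝ)..1, F ((t : ℂ), u - w) * Complex.exp (-(2 * Real.pi * Complex.I * α * t))) *
      ∫ t in (0 : ℝ)..1, F' ((t : ℂ), u + w) * Complex.exp (-(2 * Real.pi * Complex.I * β * t)) :=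
    rfl
  rw [e0, ← h0]
  refine intervalIntegral.integral_congr fun t _ => ?_
  -- the function of `s`
  set φ : ℝ → ℂ := fun s => F (((s - t : ℝ) : ℂ), u - w) * F' (((s + t : ℝ) : ℂ), u + w) *
    Complex.exp (-(2 * Real.pi * Complex.I * ((α + β) * s + (β - α) * t))) with hφ
  have hφc : Continuous φ := by
    refine Continuous.mul (Continuous.mul ?_ ?_) (by fun_prop)
    · exact hF.comp (by fun_prop)
    · exact hF'.comp (by fun_prop)
  have hφp : ∀ s, φ (s + 1) = φ s := by
    intro s
    simp only [hφ]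
    have a1 : s + 1 - t = (s - t) + 1 := by ring
    have a2 : s + 1 + t = (s + t) + 1 := by ring
    rw [a1, a2, hpF, hpF']
    congr 1
    rw [Complex.exp_eq_exp_iff_exists_int]
    refine ⟨-(α + β), ?_⟩
    push_cast
    ring
  have e1 : ∀ s : ℝ, ((PK F F' ((s : ℂ), u) ((t : ℂ), w) +
      σ * PK F F' (((s : ℂ), u) + (1 / 2, 0)) ((t : ℂ), w)) / 2) *
      Complex.exp (-(2 * Real.pi * Complex.I * (((α + β : ℤ) : ℂ) * s + ((β - α : ℤ) : ℂ) * t))) =
      (φ s + φ (s + 1 / 2)) / 2 := by
    intro s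
    simp only [hφ, PK]
    have b1 : ((s : ℂ), u) - ((t : ℂ), w) = (((s - t : ℝ) : ℂ), u - w) := by
      ext <;> simp
    have b2 : ((s : ℂ), u) + ((t : ℂ), w) = (((s + t : ℝ) : ℂ), u + w) := by
      ext <;> simp
    have b3 : (((s : ℂ), u) + ((1 / 2 : ℂ), (0 : H))) - ((t : ℂ), w) =
        (((s + 1 / 2 - t : ℝ) : ℂ), u - w) := by
      ext <;> simp
    have b4 : (((s : ℂ), u) + ((1 / 2 : ℂ), (0 : H))) + ((t : ℂ), w) =
        (((s + 1 / 2 + t : ℝ) : ℂ), u + w) := by
      ext <;> simp
    rw [b1, b2, b3, b4]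
    have b5 : Complex.exp (-(2 * Real.pi * Complex.I *
        (((α : ℂ) + β) * ((s + 1 / 2 : ℝ) : ℂ) + (β - α) * t))) =
        σ * Complex.exp (-(2 * Real.pi * Complex.I * (((α : ℂ) + β) * s + (β - α) * t))) := by
      have b6 : σ * Complex.exp (-(Real.pi * Complex.I * (α + β))) = 1 := by
        rw [← hσ, ← Complex.exp_add]
        simp
      have b7 : Complex.exp (-(Real.pi * Complex.I * (α + β))) = σ := by
        calc Complex.exp (-(Real.pi * Complex.I * (α + β)))
            = (σ * σ) * Complex.exp (-(Real.pi * Complex.I * (α + β))) := by rw [hσ2, one_mul]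
          _ = σ * (σ * Complex.exp (-(Real.pi * Complex.I * (α + β)))) := by ring
          _ = σ := by rw [b6, mul_one]
      rw [← b7, ← Complex.exp_add]
      congr 1
      push_cast
      ring
    rw [b5]
    push_cast
    ring
  simp only [e1]
  have hc2 : Continuous fun s : ℝ => φ (s + 1 / 2) := hφc.comp (by fun_prop)
  rw [intervalIntegral.integral_div, intervalIntegral.integral_add (hφc.intervalIntegrable _ _)
    (hc2.intervalIntegrable _ _), shift_per hφp]
  have h9 : ∀ z : ℂ, (z + z) / 2 = z := fun z => by ring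
  exact h9 _

/-- **splitting** -/
theorem rank_split {F F' : ℂ × H → ℂ} (hF : Differentiable ℂ F) (hF' : Differentiable ℂ F')
    (hper : ∀ u, F (u + (1, 0)) = F u) (hper' : ∀ u, F' (u + (1, 0)) = F' u) {N r : ℕ}
    (hN : RankLE (PK F F') N) {α β α' β' : ℤ} (he : Even (α + β)) (ho : Odd (α' + β'))
    (h0 : ∀ n, RankLE (PK (fc F α) (fc F' β)) n → r ≤ n)
    (h1 : ∀ n, RankLE (PK (fc F α') (fc F' β')) n → r ≤ n) : 2 * r ≤ N := by
  set K := PK F F' with hK
  have hKc : Continuous fun p : (ℂ × H) × (ℂ × H) => K p.1 p.2 := by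
    refine Continuous.mul ?_ ?_
    · exact hF.continuous.comp (by fun_prop)
    · exact hF'.continuous.comp (by fun_prop)
  set e : ℂ × H → ℂ × H := fun x => x + (1 / 2, 0) with hE
  have hee : ∀ x : ℂ × H, e (e x) = x + (1, 0) := fun x => by
    simp only [hE, add_assoc]
    congr 1
    ext
    · norm_num
    · simp
  have hKe : ∀ x y, K x (e y) = K (e x) y := by
    intro x y
    simp only [hK, PK]
    have a1 : e x - y = (x - e y) + (1, 0) := by
      rw [← sub_eq_zero]
      simp only [hE]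
      ext
      · simp; ring
      · simp
    have a2 : e x + y = x + e y := by
      simp only [hE]; abel
    rw [a1, a2, hper]
  have hKee : ∀ x y, K (e (e x)) y = K x y := by
    intro x y
    rw [hee]
    simp only [hK, PK]
    have a1 : x + (1, 0) - y = (x - y) + (1, 0) := by abel
    have a2 : x + (1, 0) + y = (x + y) + (1, 0) := by abel
    rw [a1, a2, hper, hper']
  have hfr : ∀ σ : ℂ, FR (fun x y => (K x y + σ * K (e x) y) / 2) := by
    intro σ
    refine ⟨N + N, ?_⟩
    have h2 := (hN.scale (fun _ => (1 / 2 : ℂ)) (fun _ => 1)).add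
      ((hN.comp e id).scale (fun _ => σ / 2) (fun _ => 1))
    have h3 : (fun x y => (K x y + σ * K (e x) y) / 2) =
        fun x y => (1 / 2 : ℂ) * 1 * K x y + σ / 2 * 1 * K (e x) (id y) := by
      funext x y
      simp only [id]
      ring
    rw [h3]
    exact h2
  have key : ∀ (σ : ℂ) (a b : ℤ), Complex.exp (Real.pi * Complex.I * (a + b)) = σ → σ * σ = 1 →
      (∀ n, RankLE (PK (fc F a) (fc F' b)) n → r ≤ n) → ∀ p,
      RankLE (fun x y => (K x y + σ * K (e x) y) / 2) p → r ≤ p := by
    intro σ a b hσ hσ2 hr p hp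
    refine hr p ?_
    have hc : Continuous fun q : (ℂ × H) × (ℂ × H) => (K q.1 q.2 + σ * K (e q.1) q.2) / 2 := by
      refine Continuous.div_const (Continuous.add hKc (continuous_const.mul ?_)) 2
      exact hKc.comp (by fun_prop : Continuous fun q : (ℂ × H) × (ℂ × H) => (e q.1, q.2))
    have h2 := rankLE_fc hc hp (a + b) (b - a)
    have h3 : (fun u w : H => ∫ t in (0 : ℝ)..1, ∫ s in (0 : ℝ)..1,
        ((K ((s : ℂ), u) ((t : ℂ), w) + σ * K (e ((s : ℂ), u)) ((t : ℂ), w)) / 2) *
        Complex.exp (-(2 * Real.pi * Complex.I * (((a + b : ℤ) : ℂ) * s +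
          ((b - a : ℤ) : ℂ) * t)))) = PK (fc F a) (fc F' b) := by
      funext u w
      exact part_coeff hF.continuous hF'.continuous hper hper' a b σ hσ hσ2 u w
    rw [h3] at h2
    exact h2
  obtain ⟨p, hp⟩ := (hfr 1).exists_rankEq
  obtain ⟨m, hm⟩ := (hfr (-1)).exists_rankEq
  have hrp : r ≤ p := by
    refine key 1 α β ?_ (by norm_num) h0 p hp.1
    obtain ⟨k, hk⟩ := he
    rw [Complex.exp_eq_one_iff]
    refine ⟨k, ?_⟩
    have : ((α : ℂ) + β) = k + k := by exact_mod_cast congrArg (fun z : ℤ => (z : ℂ)) hk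
    rw [this]
    ring
  have hrm : r ≤ m := by
    refine key (-1) α' β' ?_ (by norm_num) h1 m hm.1
    obtain ⟨k, hk⟩ := ho
    have h4 : ((α' : ℂ) + β') = 2 * k + 1 := by exact_mod_cast congrArg (fun z : ℤ => (z : ℂ)) hk
    rw [h4]
    have h5 : (Real.pi : ℂ) * Complex.I * (2 * k + 1) = Real.pi * Complex.I +
        k * (2 * Real.pi * Complex.I) := by ring
    rw [h5, Complex.exp_add, Complex.exp_pi_mul_I, Complex.exp_int_mul_two_pi_mul_I, mul_one]
  have hsum : p + m ≤ N := by
    refine rank_parts hN e hKe hKee ?_ ?_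
    · have : (fun x y => (K x y + K (e x) y) / 2) = fun x y => (K x y + 1 * K (e x) y) / 2 := by
        funext x y; rw [one_mul]
      rw [this]
      exact hp
    · have : (fun x y => (K x y - K (e x) y) / 2) = fun x y => (K x y + -1 * K (e x) y) / 2 := by
        funext x y; ring
      rw [this]
      exact hm
  omega

end Pool.Agent.Lib.MP_db21fa_an.TF
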