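import Pool.Agent.Lib.MP_db21fa_an.TP.CGrp

/-!
Project THETA, part 2: the fibre of a closed group.
-/

set_option autoImplicit false

open Filter Topology Metric NormedSpace

namespace Pool.Agent.Lib.MP_db21fa_an.TF

variable {G A : Type} [NormedAddCommGroup G] [NormedSpace ℂ G] [FiniteDimensional ℂ G]
  [NormedCommRing A] [NormedAlgebra ℂ A] [FiniteDimensional ℂ A]

section expFacts

/-- the exponential law in a finite dimensional commutative algebra -/
theorem expA_add (x y : A) : exp (x + y) = exp x * exp y := by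
  let +nondep : NormedAlgebra ℚ A := .restrictScalars ℚ ℂ A
  have : CompleteSpace A := FiniteDimensional.complete ℂ A
  exact exp_add

theorem expA_mul_neg (x : A) : exp x * exp (-x) = 1 := by
  rw [← expA_add, add_neg_cancel, exp_zero]

theorem expA_isUnit (x : A) : IsUnit (exp x) :=
  IsUnit.of_mul_eq_one _ (expA_mul_neg x)

theorem expA_nsmul (n : ℕ) (x : A) : exp (n • x) = exp x ^ n := by
  let +nondep : NormedAlgebra ℚ A := .restrictScalars ℚ ℂ A
  have : CompleteSpace A := FiniteDimensional.complete ℂ A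
  exact exp_nsmul n x

theorem expA_continuous : Continuous (exp : A → A) := by
  let +nondep : NormedAlgebra ℚ A := .restrictScalars ℚ ℂ A
  have : CompleteSpace A := FiniteDimensional.complete ℂ A
  exact exp_continuous

theorem expA_differentiable_smul (x : A) : Differentiable ℂ fun t : ℂ => exp (t • x) := by
  have : CompleteSpace A := FiniteDimensional.complete ℂ A
  exact differentiable_exp_smul_const ℂ x

/-- characters are continuous -/
theorem chiA_continuous (χ : A →ₐ[ℂ] ℂ) : Continuous χ :=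
  χ.toLinearMap.continuous_of_finiteDimensional

/-- characters commute with the exponential -/
theorem chiA_exp (χ : A →ₐ[ℂ] ℂ) (x : A) : χ (exp x) = Complex.exp (χ x) := by
  let +nondep : NormedAlgebra ℚ A := .restrictScalars ℚ ℂ A
  have : CompleteSpace A := FiniteDimensional.complete ℂ A
  rw [map_exp χ (chiA_continuous χ) x, Complex.exp_eq_exp_ℂ]

/-- logarithms of elements close to `1` -/
theorem log_seq (χ : A →ₐ[ℂ] ℂ) {δ : ℕ → A} (h : Tendsto δ atTop (𝓝 1))
    (h1 : ∀ j, χ (δ j) = 1) :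
    ∃ ξ : ℕ → A, Tendsto ξ atTop (𝓝 0) ∧ ∀ᶠ j in atTop, exp (ξ j) = δ j ∧ χ (ξ j) = 0 := by
  have : CompleteSpace A := FiniteDimensional.complete ℂ A
  have hs : HasStrictFDerivAt (exp : A → A) ((ContinuousLinearEquiv.refl ℂ A : A ≃L[ℂ] A) : A →L[ℂ] A) 0 :=
    hasStrictFDerivAt_exp_zero (𝕂 := ℂ) (𝔸 := A)
  have hδ : Tendsto δ atTop (𝓝 (exp (0 : A))) := by rw [exp_zero]; exact h
  refine ⟨fun j => hs.localInverse _ _ _ (δ j), ?_, ?_⟩
  · exact hs.localInverse_tendsto.comp hδ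
  · have e1 : ∀ᶠ j in atTop, exp (hs.localInverse _ _ _ (δ j)) = δ j :=
      hδ.eventually hs.eventually_right_inverse
    have e2 : Tendsto (fun j => χ (hs.localInverse _ _ _ (δ j))) atTop (𝓝 0) := by
      have h2 := ((chiA_continuous χ).tendsto 0).comp (hs.localInverse_tendsto.comp hδ)
      rw [map_zero] at h2
      exact h2
    have e3 : ∀ᶠ j in atTop, ‖χ (hs.localInverse _ _ _ (δ j))‖ < 1 := by
      have h3 := e2.norm
      rw [norm_zero] at h3
      exact h3.eventually (gt_mem_nhds one_pos)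
    filter_upwards [e1, e3] with j hj1 hj3
    refine ⟨hj1, ?_⟩
    have h4 : Complex.exp (χ (hs.localInverse _ _ _ (δ j))) = 1 := by
      rw [← chiA_exp, hj1, h1]
    obtain ⟨n, hn⟩ := Complex.exp_eq_one_iff.mp h4
    by_cases hn0 : n = 0
    · rw [hn, hn0]; simp
    · exfalso
      have h5 : (1 : ℝ) ≤ |(n : ℝ)| := by
        have := Int.one_le_abs hn0
        exact_mod_cast this
      rw [hn] at hj3
      have h6 : ‖(n : ℂ) * (2 * (Real.pi : ℂ) * Complex.I)‖ = |(n : ℝ)| * (2 * Real.pi) := by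
        rw [norm_mul, norm_mul, norm_mul, Complex.norm_I, Complex.norm_intCast, Complex.norm_real,
          Complex.norm_ofNat, Real.norm_of_nonneg Real.pi_pos.le, mul_one]
      rw [h6] at hj3
      nlinarith [Real.pi_gt_three]

/-- limits of quotients: if `γ j → γ` is a unit then `γ' j * (γ j)⁻¹ → γ' * γ⁻¹` -/
theorem tendsto_mul_inverse {γ γ' : ℕ → A} {a b : A} (ha : IsUnit a) (h : Tendsto γ atTop (𝓝 a))
    (h' : Tendsto γ' atTop (𝓝 b)) :
    Tendsto (fun j => γ' j * Ring.inverse (γ j)) atTop (𝓝 (b * Ring.inverse a)) := by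
  have : CompleteSpace A := FiniteDimensional.complete ℂ A
  obtain ⟨u, rfl⟩ := ha
  exact h'.mul ((NormedRing.inverse_continuousAt u).tendsto.comp h)

end expFacts

/-- the group of logarithms -/
noncomputable def CGrp.logGrp (C : CGrp G A) : AddSubgroup (G × A) where
  carrier := {p | C.χ p.2 = 0 ∧ (p.1, exp p.2) ∈ C.S}
  add_mem' := by
    rintro ⟨w, ξ⟩ ⟨w', ξ'⟩ ⟨h1, h2⟩ ⟨h3, h4⟩
    refine ⟨?_, ?_⟩
    · show C.χ (ξ + ξ') = 0
      rw [map_add]
      have h1' : C.χ ξ = 0 := h1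
      have h3' : C.χ ξ' = 0 := h3
      rw [h1', h3', add_zero]
    · show (w + w', exp (ξ + ξ')) ∈ C.S
      rw [expA_add]
      exact C.mul _ _ _ _ h2 h4
  zero_mem' := by
    refine ⟨map_zero _, ?_⟩
    show ((0 : G), exp (0 : A)) ∈ C.S
    rw [exp_zero]
    exact C.one
  neg_mem' := by
    rintro ⟨w, ξ⟩ ⟨h1, h2⟩
    refine ⟨?_, ?_⟩
    · show C.χ (-ξ) = 0
      have h1' : C.χ ξ = 0 := h1
      rw [map_neg, h1', neg_zero]
    · exact C.inv _ _ _ h2 (expA_mul_neg ξ)

theorem CGrp.mem_logGrp (C : CGrp G A) {w : G} {ξ : A} :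
    (w, ξ) ∈ C.logGrp ↔ C.χ ξ = 0 ∧ (w, exp ξ) ∈ C.S := Iff.rfl

theorem CGrp.isClosed_logGrp (C : CGrp G A) : IsClosed (C.logGrp : Set (G × A)) := by
  apply IsSeqClosed.isClosed
  rintro s ⟨w, ξ⟩ hs hlim
  have hl2 : Tendsto (fun j => (s j).2) atTop (𝓝 ξ) :=
    (continuous_snd.tendsto _).comp hlim
  have hl1 : Tendsto (fun j => (s j).1) atTop (𝓝 w) :=
    (continuous_fst.tendsto _).comp hlim
  refine ⟨?_, ?_⟩
  · have h1 : Tendsto (fun j => C.χ (s j).2) atTop (𝓝 (C.χ ξ)) :=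
      ((chiA_continuous C.χ).tendsto _).comp hl2
    have h2 : (fun j => C.χ (s j).2) = fun _ => (0 : ℂ) := by
      funext j
      exact (hs j).1
    rw [h2] at h1
    exact (tendsto_nhds_unique h1 tendsto_const_nhds)
  · refine C.closed (fun j => ((s j).1, exp (s j).2)) w (exp ξ) (fun j => (hs j).2) ?_
      (expA_isUnit ξ)
    exact hl1.prodMk_nhds ((expA_continuous.tendsto _).comp hl2)

/-- small elements of the group of logarithms lie on lines of the group -/
theorem CGrp.small_line (C : CGrp G A) {p : ℕ → G × A} (h : Tendsto p atTop (𝓝 0))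
    (hp : ∀ᶠ j in atTop, p j ∈ C.logGrp) :
    ∀ᶠ j in atTop, ∀ t : ℝ, C.χ (p j).2 = 0 ∧
      ((t : ℂ) • (p j).1, exp ((t : ℂ) • (p j).2)) ∈ C.S := by
  have : FiniteDimensional ℝ G := FiniteDimensional.complexToReal G
  have : FiniteDimensional ℝ A := FiniteDimensional.complexToReal A
  obtain ⟨η, hη, hsm⟩ := small_mem_lineSub C.logGrp C.isClosed_logGrp
  have h1 : ∀ᶠ j in atTop, ‖p j‖ < η := by
    have h3 := h.norm
    rw [norm_zero] at h3
    exact h3.eventually (gt_mem_nhds hη)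
  filter_upwards [h1, hp] with j hj1 hj2 t
  have h2 := hsm _ hj2 hj1 t
  refine ⟨hj2.1, ?_⟩
  exact h2.2

/-- lines in the fibre are trivial -/
theorem CGrp.fiber_line (C : CGrp G A) {ξ : A} (hχ : C.χ ξ = 0)
    (h : ∀ t : ℝ, ((0 : G), exp ((t : ℂ) • ξ)) ∈ C.S) : ξ = 0 := by
  have hc : ∀ t : ℂ, ((0 : G), exp (t • ξ)) ∈ C.S := by
    intro t
    have h1 := C.line 0 ξ (fun t => by rw [smul_zero]; exact h t) t
    rwa [smul_zero] at h1
  have hχ1 : ∀ t : ℂ, C.χ (exp (t • ξ)) = 1 := by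
    intro t
    rw [chiA_exp, map_smul, hχ, smul_zero, Complex.exp_zero]
  have hbd : ∃ M : ℝ, ∀ t : ℂ, ‖exp (t • ξ)‖ ≤ M := by
    by_contra hcon
    push Not at hcon
    choose z hz using fun n : ℕ => hcon (n : ℝ)
    obtain ⟨φ, w, γ, hφ, hlim, -⟩ := C.cpt (fun n => ((0 : G), exp (z n • ξ))) (fun n => hc _)
      (fun n => hχ1 _) ⟨0, fun n => by simp⟩
    have h2 : Tendsto (fun n => ‖exp (z (φ n) • ξ)‖) atTop (𝓝 ‖γ‖) :=
      ((continuous_snd.tendsto _).comp hlim).norm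
    have h3 : Tendsto (fun n => ((φ n : ℕ) : ℝ)) atTop atTop :=
      tendsto_natCast_atTop_atTop.comp hφ.tendsto_atTop
    have h4 : Tendsto (fun n => ‖exp (z (φ n) • ξ)‖) atTop atTop :=
      tendsto_atTop_mono (fun n => (hz (φ n)).le) h3
    exact not_tendsto_nhds_of_tendsto_atTop h4 _ h2
  obtain ⟨M, hM⟩ := hbd
  have hconst : ∀ t : ℂ, exp (t • ξ) = 1 := by
    intro t
    have h5 : Bornology.IsBounded (Set.range fun t : ℂ => exp (t • ξ)) := by
      rw [isBounded_iff_forall_norm_le]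
      refine ⟨M, ?_⟩
      rintro _ ⟨t, rfl⟩
      exact hM t
    have h6 := (expA_differentiable_smul ξ).apply_eq_apply_of_bounded h5 t 0
    simpa using h6
  have : CompleteSpace A := FiniteDimensional.complete ℂ A
  have h7 : HasDerivAt (fun u : ℂ => exp (u • ξ)) (exp ((0 : ℂ) • ξ) * ξ) 0 :=
    hasDerivAt_exp_smul_const ξ 0
  have h8 : HasDerivAt (fun u : ℂ => exp (u • ξ)) 0 0 := by
    have h9 : (fun u : ℂ => exp (u • ξ)) = fun _ => (1 : A) := funext hconst
    rw [h9]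
    exact hasDerivAt_const _ _
  have h10 := h7.unique h8
  rwa [zero_smul, exp_zero, one_mul] at h10

/-- small fibre elements are trivial -/
theorem CGrp.small_fiber (C : CGrp G A) {δ : ℕ → A} (h : Tendsto δ atTop (𝓝 1))
    (h1 : ∀ j, C.χ (δ j) = 1) (h2 : ∀ j, ((0 : G), δ j) ∈ C.S) : ∀ᶠ j in atTop, δ j = 1 := by
  obtain ⟨ξ, hξ, he⟩ := log_seq C.χ h h1
  have h3 : Tendsto (fun j => ((0 : G), ξ j)) atTop (𝓝 0) := tendsto_const_nhds.prodMk_nhds hξ
  have h4 : ∀ᶠ j in atTop, ((0 : G), ξ j) ∈ C.logGrp := by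
    filter_upwards [he] with j hj
    rw [C.mem_logGrp, hj.1]
    exact ⟨hj.2, h2 j⟩
  filter_upwards [he, C.small_line h3 h4] with j hj hj2
  have h5 : ξ j = 0 := by
    apply C.fiber_line hj.2
    intro t
    have h6 := (hj2 t).2
    simpa using h6
  rw [← hj.1, h5, exp_zero]

/-- normalised elements of the fibre have finite order -/
theorem CGrp.finite_order (C : CGrp G A) {γ : A} (hχ : C.χ γ = 1) (h : ((0 : G), γ) ∈ C.S) :
    ∃ k : ℕ, 0 < k ∧ γ ^ k = 1 := by
  have hpow : ∀ n : ℕ, ((0 : G), γ ^ n) ∈ C.S := by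
    intro n
    induction n with
    | zero => rw [pow_zero]; exact C.one
    | succ n ih =>
      have h1 := C.mul _ _ _ _ ih h
      rwa [add_zero, ← pow_succ] at h1
  obtain ⟨φ, w, γ', hφ, hlim, hmem⟩ := C.cpt (fun n => ((0 : G), γ ^ n)) hpow
    (fun n => by show C.χ (γ ^ n) = 1; rw [map_pow, hχ, one_pow]) ⟨0, fun n => by simp⟩
  have hl : Tendsto (fun n => γ ^ φ n) atTop (𝓝 γ') := (continuous_snd.tendsto _).comp hlim
  have hl1 : Tendsto (fun n => γ ^ φ (n + 1)) atTop (𝓝 γ') :=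
    hl.comp (tendsto_add_atTop_nat 1)
  have hu : IsUnit γ' := C.unit _ _ hmem
  have hγ : IsUnit γ := C.unit _ _ h
  have hd : Tendsto (fun j => γ ^ φ (j + 1) * Ring.inverse (γ ^ φ j)) atTop (𝓝 1) := by
    have h1 := tendsto_mul_inverse hu hl hl1
    rwa [Ring.mul_inverse_cancel _ hu] at h1
  have heq : (fun j => γ ^ φ (j + 1) * Ring.inverse (γ ^ φ j)) =
      fun j => γ ^ (φ (j + 1) - φ j) := by
    funext j
    have h1 : φ j ≤ φ (j + 1) := (hφ (Nat.lt_succ_self j)).le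
    have h2 : γ ^ φ (j + 1) = γ ^ (φ (j + 1) - φ j) * γ ^ φ j := by
      rw [← pow_add, Nat.sub_add_cancel h1]
    rw [h2, mul_assoc, Ring.mul_inverse_cancel _ (hγ.pow _), mul_one]
  rw [heq] at hd
  have h3 := C.small_fiber hd (fun j => by rw [map_pow, hχ, one_pow]) (fun j => hpow _)
  obtain ⟨j, hj⟩ := h3.exists
  exact ⟨φ (j + 1) - φ j, Nat.sub_pos_of_lt (hφ (Nat.lt_succ_self j)), hj⟩

end Pool.Agent.Lib.MP_db21fa_an.TF
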