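import Pool.Agent.Lib.MP_db21fa_an.TP.Defs

/-!
Project THETA, part 2: minimal data with the minimality condition.
-/

set_option autoImplicit false

open Filter Topology Metric

namespace Pool.Agent.Lib.MP_db21fa_an.TF

private theorem per_closure {G : Type*} [NormedAddCommGroup G] [NormedSpace ℂ G] {p : G → ℂ}
    {S : Set G} (hS : S ⊆ Per p) {γ : G} (hγ : γ ∈ AddSubgroup.closure S) : γ ∈ Per p := by
  induction hγ using AddSubgroup.closure_induction with
  | mem x hx => exact hS hx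
  | zero => exact ⟨0, 0, fun u => by simp⟩
  | add x y _ _ hx hy =>
    obtain ⟨l, c, h⟩ := hx
    obtain ⟨l', c', h'⟩ := hy
    refine ⟨l + l', c + c' + l' x, fun u => ?_⟩
    rw [← add_assoc, h', h, ← mul_assoc, ← Complex.exp_add]
    congr 2
    simp only [map_add, _root_.add_apply]
    ring
  | neg x _ hx =>
    obtain ⟨l, c, h⟩ := hx
    refine ⟨-l, l x - c, fun u => ?_⟩
    have h1 := h (u + -x)
    rw [neg_add_cancel_right] at h1
    rw [h1, ← mul_assoc, ← Complex.exp_add]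
    have h2 : (-l) u + (l x - c) + (l (u + -x) + c) = 0 := by
      simp only [map_add, map_neg, _root_.neg_apply]
      ring
    rw [h2, Complex.exp_zero, one_mul]


section

variable {E : Type*} [NormedAddCommGroup E] [NormedSpace ℂ E] [FiniteDimensional ℂ E]

/-- minimality of the lattice for minimal data -/
theorem hmin_of_minimal {h : E → ℂ} {m : ℕ} (hmin : ∀ m' < m, ¬ AdmFull h m')
    {v : E →L[ℂ] (Fin m → ℂ)} {B : E →L[ℂ] E →L[ℂ] ℂ} {κ : E →L[ℂ] ℂ}
    {p : (Fin m → ℂ) → ℂ} (hp : Differentiable ℂ p) (hpv : ∃ x, p (v x) ≠ 0)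
    (hs : Sim h (fun x => gs B κ x * p (v x)))
    (ω : Module.Basis (Fin (2 * m)) ℝ (Fin m → ℂ)) (hω : ∀ i, ω i ∈ Per p) :
    HMin v ω := by
  intro S hvS hspan
  by_contra hne
  have hlt : Module.finrank ℂ S < m := by
    have := Submodule.finrank_lt hne
    simpa using this
  refine hmin _ hlt ?_
  let e : S ≃L[ℂ] (Fin (Module.finrank ℂ S) → ℂ) := ContinuousLinearEquiv.ofFinrankEq (by simp)
  let v' : E →L[ℂ] (Fin (Module.finrank ℂ S) → ℂ) := (e : S →L[ℂ] _).comp (v.codRestrict S hvS)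
  let p' : (Fin (Module.finrank ℂ S) → ℂ) → ℂ := fun w => p ((e.symm w : S) : Fin m → ℂ)
  have hpv' : ∀ x, p' (v' x) = p (v x) := by
    intro x
    have h1 : e.symm (v' x) = v.codRestrict S hvS x := e.symm_apply_apply _
    simp only [p', h1]
    rfl
  refine ⟨v', B, κ, p', ?_, ?_, ?_, ?_⟩
  · exact hp.comp ((S.subtypeL.differentiable).comp e.symm.differentiable)
  · obtain ⟨x, hx⟩ := hpv
    exact ⟨x, by rwa [hpv']⟩
  · have key : ∀ (g : Fin m → ℂ) (hg : g ∈ S), g ∈ Per p → e ⟨g, hg⟩ ∈ Per p' := by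
      rintro g hg ⟨l, c, h⟩
      refine ⟨l.comp (S.subtypeL.comp (e.symm : _ →L[ℂ] S)), c, fun w => ?_⟩
      have h1 : e.symm (w + e ⟨g, hg⟩) = e.symm w + ⟨g, hg⟩ := by
        rw [map_add, e.symm_apply_apply]
      simp only [p', h1]
      exact h _
    refine top_le_iff.1 ?_
    intro z _
    have h1 : ∀ g ∈ Submodule.span ℝ {γ : Fin m → ℂ | γ ∈ AddSubgroup.closure (Set.range ω) ∧
        γ ∈ S}, ∃ hg : g ∈ S, e ⟨g, hg⟩ ∈ Submodule.span ℝ (Per p') := by
      intro g hg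
      induction hg using Submodule.span_induction with
      | mem x hx =>
        refine ⟨hx.2, Submodule.subset_span (key x hx.2 ?_)⟩
        refine per_closure ?_ hx.1
        rintro _ ⟨i, rfl⟩
        exact hω i
      | zero =>
        refine ⟨S.zero_mem, ?_⟩
        have : e ⟨0, S.zero_mem⟩ = 0 := e.map_zero
        rw [this]
        exact Submodule.zero_mem _
      | add x y _ _ hx hy =>
        obtain ⟨hxS, hx⟩ := hx
        obtain ⟨hyS, hy⟩ := hy
        refine ⟨S.add_mem hxS hyS, ?_⟩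
        have : e ⟨x + y, S.add_mem hxS hyS⟩ = e ⟨x, hxS⟩ + e ⟨y, hyS⟩ := by
          rw [← map_add]
          rfl
        rw [this]
        exact Submodule.add_mem _ hx hy
      | smul a x _ hx =>
        obtain ⟨hxS, hx⟩ := hx
        have h2 : a • x = (a : ℂ) • x := (Complex.coe_smul a x).symm
        have h3 : a • x ∈ S := by
          rw [h2]
          exact S.smul_mem _ hxS
        refine ⟨h3, ?_⟩
        have : e ⟨a • x, h3⟩ = a • e ⟨x, hxS⟩ := by
          have h4 : (⟨a • x, h3⟩ : S) = (a : ℂ) • ⟨x, hxS⟩ := Subtype.ext h2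
          rw [h4, map_smul, Complex.coe_smul]
        rw [this]
        exact Submodule.smul_mem _ _ hx
    obtain ⟨hg, h2⟩ := h1 _ (hspan _ (e.symm z).2)
    have h3 : e ⟨((e.symm z : S) : Fin m → ℂ), hg⟩ = z := e.apply_symm_apply z
    rwa [h3] at h2
  · have : (fun x => gs B κ x * p' (v' x)) = fun x => gs B κ x * p (v x) := by
      funext x
      rw [hpv']
    rw [this]
    exact hs


end

/-- minimal data with the minimality condition -/
theorem exists_min_data' {E : Type*} [NormedAddCommGroup E] [NormedSpace ℂ E]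
    [FiniteDimensional ℂ E] {h : E → ℂ} (hd : Differentiable ℂ h) (h0 : h ≠ 0) (hs : Sim h h) :
    ∃ (m : ℕ) (v : E →L[ℂ] (Fin m → ℂ)) (B : E →L[ℂ] E →L[ℂ] ℂ) (κ : E →L[ℂ] ℂ)
      (p : (Fin m → ℂ) → ℂ) (ω : Module.Basis (Fin (2 * m)) ℝ (Fin m → ℂ))
      (l : Fin (2 * m) → (Fin m → ℂ) →L[ℂ] ℂ) (c : Fin (2 * m) → ℂ),
      Differentiable ℂ p ∧ (∃ x, p (v x) ≠ 0) ∧ Sim h (fun x => gs B κ x * p (v x)) ∧
      (∀ i u, p (u + ω i) = Complex.exp (l i u + c i) * p u) ∧ ZPrin v (Set.range ω) ∧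
      (∀ (u₀ : Fin m → ℂ) (A : (Fin m → ℂ) →L[ℂ] ℂ), (∀ i, l i u₀ = A (ω i)) → u₀ = 0) ∧
      HMin v ω := by
  classical
  have hex : ∃ m, AdmFull h m := by
    obtain ⟨m, v, B, κ, p, h1, h2, h3, h4⟩ := step_one hd h0 hs
    exact ⟨m, v, B, κ, p, h1, h2, h3, h4⟩
  obtain ⟨v, B, κ, p, hp, hpv, hf, hsim⟩ := Nat.find_spec hex
  have hmin : ∀ m' < Nat.find hex, ¬ AdmFull h m' := fun m' hm' => Nat.find_min hex hm'
  generalize Nat.find hex = m at v B κ p hp hpv hf hsim hmin
  obtain ⟨b, hbs, hbspan, hbli⟩ := exists_linearIndependent ℝ (Per p)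
  have hf' : Submodule.span ℝ (Per p) = ⊤ := hf
  rw [hf'] at hbspan
  let bas : Module.Basis b ℝ (Fin m → ℂ) := Module.Basis.mk hbli (by
    rw [Subtype.range_coe_subtype, Set.setOf_mem_eq, hbspan])
  have hfin : Finite b := Module.Finite.finite_basis bas
  have : Fintype b := Fintype.ofFinite b
  have hcard : Fintype.card b = 2 * m := by
    rw [← Module.finrank_eq_card_basis bas, finrank_real_of_complex]
    simp
  let e : b ≃ Fin (2 * m) := Fintype.equivFinOfCardEq hcard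
  let ω : Module.Basis (Fin (2 * m)) ℝ (Fin m → ℂ) := bas.reindex e
  have hω : ∀ i, ω i ∈ Per p := by
    intro i
    have : ω i = ((e.symm i : b) : Fin m → ℂ) := by
      simp [ω, bas]
    rw [this]
    exact hbs (e.symm i).2
  choose l c hlc using hω
  have hZ := zprin_of_minimal hmin hp hpv hsim ω (fun i => ⟨l i, c i, hlc i⟩)
  exact ⟨m, v, B, κ, p, ω, l, c, hp, hpv, hsim, hlc, hZ,
    nd_of_minimal hd hmin hp hpv hsim ω hlc hZ,
    hmin_of_minimal hmin hp hpv hsim ω (fun i => ⟨l i, c i, hlc i⟩)⟩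

end Pool.Agent.Lib.MP_db21fa_an.TF
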