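import Pool.Agent.Lib.MP_db21fa_an.TP.Defs

/-!
Project THETA, part 2: ranks on `E` and on `G`.
-/

set_option autoImplicit false

open Filter Topology Metric

namespace Pool.Agent.Lib.MP_db21fa_an.TF

variable {E G ι : Type} [NormedAddCommGroup E] [NormedSpace ℂ E] [FiniteDimensional ℂ E]
  [NormedAddCommGroup G] [NormedSpace ℂ G] [FiniteDimensional ℂ G] [Fintype ι]

omit [FiniteDimensional ℂ E] in
/-- principle (Z) for a multiple of the lattice -/
theorem zprin_smul (v : E →L[ℂ] G) (ω ω' : Module.Basis ι ℝ G) (hm : HMin v ω) {K : ℕ}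
    (_hK : 0 < K) (hω' : ∀ i, ω' i = (K : ℝ) • ω i) : ZPrin v (Set.range ω') := by
  refine zprin_of_min v ω' fun S hvS hspan => hm S hvS fun s hs => ?_
  refine Submodule.span_mono ?_ (hspan s hs)
  rintro γ ⟨h1, h2⟩
  refine ⟨?_, h2⟩
  refine (AddSubgroup.closure_le _).2 ?_ h1
  rintro _ ⟨i, rfl⟩
  rw [hω' i]
  have h3 : (K : ℝ) • ω i = (K : ℕ) • ω i := by
    rw [Nat.cast_smul_eq_nsmul]
  rw [h3]
  exact (AddSubgroup.closure (Set.range ω)).nsmul_mem (AddSubgroup.subset_closure ⟨i, rfl⟩) K

omit [FiniteDimensional ℂ E] [FiniteDimensional ℂ G] [Fintype ι] in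
/-- linearly independent theta functions are linearly independent on every translate of `v E` -/
theorem slices_of_zprin {v : E →L[ℂ] G} {ω : ι → G} (hZ : ZPrin v (Set.range ω))
    {l : ι → G →L[ℂ] ℂ} {c : ι → ℂ} {r : ℕ} {q : Fin r → G → ℂ} (hq : ∀ j, q j ∈ ThetaSp ω l c)
    (hli : LinearIndependent ℂ q) (u : G) :
    ∃ t : Fin r → E, (Matrix.of fun i j => q j (v (t i) + u)).det ≠ 0 := by
  have hind : LinearIndependent ℂ (fun j => fun t : E => q j (v t + u)) := by
    rw [Fintype.linearIndependent_iff]
    intro g hg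
    have hg' : ∀ t : E, ∑ j, g j * q j (v t + u) = 0 := by
      intro t
      have := congrFun hg t
      simpa [Finset.sum_apply] using this
    have hqd : ∀ j, Differentiable ℂ (q j) := fun j => (hq j).1
    have hqp : ∀ j i u, q j (u + ω i) = Complex.exp (l i u + c i) * q j u :=
      fun j => (hq j).2
    have hA := hZ {w | ∀ t : E, ∑ j, g j * q j (v t + w) = 0} ?_ ⟨u, hg'⟩ ?_ ?_
    · have hall : ∀ w, ∑ j, g j * q j w = 0 := by
        intro w
        have hw : w ∈ {w | ∀ t : E, ∑ j, g j * q j (v t + w) = 0} := by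
          rw [hA]
          exact Set.mem_univ w
        have := hw 0
        simpa using this
      refine Fintype.linearIndependent_iff.1 hli g ?_
      funext w
      have := hall w
      simpa [Finset.sum_apply] using this
    · intro w₀
      refine ⟨Set.univ, isOpen_univ, Set.mem_univ _,
        Set.range (fun (t : E) (w : G) => ∑ j, g j * q j (v t + w)), ?_, ?_⟩
      · rintro f ⟨t, rfl⟩
        refine Differentiable.differentiableOn ?_
        exact Differentiable.fun_sum fun j _ =>
          ((hqd j).comp (differentiable_id.const_add _)).const_mul _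
      · intro w _
        refine ⟨?_, ?_⟩
        · rintro hw f ⟨t, rfl⟩
          exact hw t
        · intro hw t
          exact hw _ ⟨t, rfl⟩
    · intro w hw x t
      have h1 := hw (t + x)
      have h2 : v (t + x) + w = v t + (w + v x) := by
        rw [map_add]
        abel
      rw [h2] at h1
      exact h1
    · rintro w hw _ ⟨i, rfl⟩
      have key : ∀ (w : G) (t : E), ∑ j, g j * q j (v t + (w + ω i)) =
          Complex.exp (l i (v t + w) + c i) * ∑ j, g j * q j (v t + w) := by
        intro w t
        rw [Finset.mul_sum]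
        refine Finset.sum_congr rfl fun j _ => ?_
        rw [← add_assoc, hqp]
        ring
      refine ⟨fun t => ?_, fun t => ?_⟩
      · rw [key, hw t, mul_zero]
      · have h1 := key (w - ω i) t
        rw [sub_add_cancel, hw t] at h1
        exact (mul_eq_zero.1 h1.symm).resolve_left (Complex.exp_ne_zero _)
  exact exists_det_ne_zero (fun j => fun t : E => q j (v t + u)) hind

omit [FiniteDimensional ℂ E] in
/-- the rank on `G` is the rank on `E` -/
theorem rankLE_of_comp (v : E →L[ℂ] G) (ω : Module.Basis ι ℝ G) (hZ : ZPrin v (Set.range ω))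
    {l : ι → G →L[ℂ] ℂ} {C C' : ι → ℂ} {Θ Θ' : G → ℂ} (h : Θ ∈ ThetaSp ω l C)
    (h' : Θ' ∈ ThetaSp ω l C') {N : ℕ}
    (hN : RankLE (PK (fun x => Θ (v x)) (fun x => Θ' (v x))) N) : RankLE (PK Θ Θ') N := by
  obtain ⟨r, hr⟩ := (sim_theta ω l C C' h h' : FR (PK Θ Θ')).exists_rankEq
  obtain ⟨X, Y, hd⟩ := hr.exists_minor
  -- the columns
  have hF : ∀ y : G, (fun x => PK Θ Θ' x y) ∈ ThetaSp ω (fun i => (2 : ℂ) • l i)
      (fun i => C i + C' i) := by
    intro y
    refine ⟨?_, fun i x => ?_⟩
    · exact (h.1.comp (differentiable_id.sub_const y)).mul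
        (h'.1.comp (differentiable_id.add_const y))
    · have e1 : x + ω i - y = (x - y) + ω i := by abel
      have e2 : x + ω i + y = (x + y) + ω i := by abel
      simp only [PK]
      rw [e1, e2, h.2 i, h'.2 i]
      have e3 : ((2 : ℂ) • l i) x + (C i + C' i) = (l i (x - y) + C i) + (l i (x + y) + C' i) := by
        rw [smul_apply, map_sub, map_add, smul_eq_mul]; ring
      rw [e3, Complex.exp_add (l i (x - y) + C i)]
      ring
  -- the rows
  have hG : ∀ x : G, (fun y => PK Θ Θ' x y) ∈ ThetaSp ω (fun i => (2 : ℂ) • l i)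
      (fun i => l i (ω i) - C i + C' i) := by
    intro x
    refine ⟨?_, fun i y => ?_⟩
    · exact (h.1.comp (differentiable_id.const_sub x)).mul
        (h'.1.comp (differentiable_id.const_add x))
    · have e1 : x - y = (x - (y + ω i)) + ω i := by abel
      have e2 : x + (y + ω i) = (x + y) + ω i := by abel
      have e4 := h.2 i (x - (y + ω i))
      rw [← e1] at e4
      simp only [PK]
      rw [e2, h'.2 i, e4]
      have e3 : ((2 : ℂ) • l i) y + (l i (ω i) - C i + C' i) =
          -(l i (x - (y + ω i)) + C i) + (l i (x + y) + C' i) := by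
        rw [smul_apply, map_sub, map_add, map_add, smul_eq_mul]; ring
      have e5 : Complex.exp (-(l i (x - (y + ω i)) + C i)) *
          Complex.exp (l i (x - (y + ω i)) + C i) = 1 := by
        rw [← Complex.exp_add, neg_add_cancel, Complex.exp_zero]
      rw [e3, Complex.exp_add (-(l i (x - (y + ω i)) + C i))]
      linear_combination (-(Complex.exp (l i (x + y) + C' i) * Θ (x - (y + ω i)) *
        Θ' (x + y))) * e5
  have hliF : LinearIndependent ℂ (fun j => fun x => PK Θ Θ' x (Y j)) := by
    rw [Fintype.linearIndependent_iff]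
    intro g hg
    have h1 : (mm (PK Θ Θ') X Y).mulVec g = 0 := by
      funext i
      have := congrFun hg (X i)
      simp only [Finset.sum_apply, Pi.smul_apply, smul_eq_mul, Pi.zero_apply] at this
      simp only [Matrix.mulVec, dotProduct, mm, Matrix.of_apply, Pi.zero_apply]
      rw [← this]
      exact Finset.sum_congr rfl fun j _ => mul_comm _ _
    have h2 := Matrix.eq_zero_of_mulVec_eq_zero hd h1
    exact fun j => congrFun h2 j
  have hliG : LinearIndependent ℂ (fun i => fun y => PK Θ Θ' (X i) y) := by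
    rw [Fintype.linearIndependent_iff]
    intro g hg
    have h1 : Matrix.vecMul g (mm (PK Θ Θ') X Y) = 0 := by
      funext j
      have := congrFun hg (Y j)
      simp only [Finset.sum_apply, Pi.smul_apply, smul_eq_mul, Pi.zero_apply] at this
      simp only [Matrix.vecMul, dotProduct, mm, Matrix.of_apply, Pi.zero_apply]
      rw [← this]
    have h2 := Matrix.eq_zero_of_vecMul_eq_zero hd h1
    exact fun j => congrFun h2 j
  obtain ⟨x, hx⟩ := slices_of_zprin hZ (fun j => hF (Y j)) hliF 0
  obtain ⟨y, hy⟩ := slices_of_zprin hZ (fun i => hG (X i)) hliG 0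
  simp only [add_zero] at hx hy
  have hfac : mm (PK (fun x => Θ (v x)) (fun x => Θ' (v x))) x y =
      (Matrix.of fun i j => PK Θ Θ' (v (x i)) (Y j)) * (mm (PK Θ Θ') X Y)⁻¹ *
        (Matrix.of fun i j => PK Θ Θ' (X j) (v (y i))).transpose := by
    ext i j
    have h1 := rank_formula hr.1 hd (v (x i)) (v (y j))
    have h2 : mm (PK (fun x => Θ (v x)) (fun x => Θ' (v x))) x y i j =
        PK Θ Θ' (v (x i)) (v (y j)) := by
      simp only [mm, Matrix.of_apply, PK, map_sub, map_add]
    rw [h2, h1, Matrix.mul_apply]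
    refine Finset.sum_congr rfl fun a _ => ?_
    rw [Matrix.mul_apply, Finset.sum_mul]
    refine Finset.sum_congr rfl fun b _ => ?_
    simp only [Matrix.of_apply, Matrix.transpose_apply]
  have hdet : (mm (PK (fun x => Θ (v x)) (fun x => Θ' (v x))) x y).det ≠ 0 := by
    rw [hfac, Matrix.det_mul, Matrix.det_mul, Matrix.det_transpose]
    refine mul_ne_zero (mul_ne_zero hx ?_) hy
    rw [Matrix.det_nonsing_inv]
    simpa using hd
  have hle : RankLE (PK (fun x => Θ (v x)) (fun x => Θ' (v x))) r := rankLE_PK_comp hr.1 v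
  exact hr.1.mono ((rankEq_of_minor hle hdet).2 N hN)

end Pool.Agent.Lib.MP_db21fa_an.TF
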