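import Pool.Agent.Lib.MP_db21fa_an.TP.Defs

/-!
Project THETA, part 2: representations from step 2.
-/

set_option autoImplicit false

open Filter Topology Metric

namespace Pool.Agent.Lib.MP_db21fa_an.TF

namespace RepOfDat

variable {E G ι : Type} [NormedAddCommGroup E] [NormedSpace ℂ E] [NormedAddCommGroup G]
  [NormedSpace ℂ G] [FiniteDimensional ℂ E] [FiniteDimensional ℂ G]

/-- the evaluation -/
noncomputable def evL (D : Dat E G ι) (A : G → D.ZEl) (g₀ : G) (w : G) : D.CC →ₗ[ℂ] ℂ where
  toFun X := (D.p g₀)⁻¹ * S10.cmpL D (A w).Φ X 0 (g₀ - w)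
  map_add' X Y := by rw [map_add]; simp only [Pi.add_apply]; ring
  map_smul' s X := by rw [map_smul]; simp only [Pi.smul_apply, smul_eq_mul, RingHom.id_apply]; ring

/-- the algebraic form of step 2 -/
theorem exists_alg (D : Dat E G ι) : ∃ (k : ℕ) (b : Module.Basis (Fin k) ℂ D.CC) (c : E → D.CC)
    (γ : ι → D.CC) (ev : G → D.CC →ₗ[ℂ] ℂ), c 0 = 1 ∧ (∀ x y, c (x + y) = c x * c y) ∧
      (∀ j, Differentiable ℂ fun x => b.repr (c x) j) ∧ (∀ i, IsUnit (γ i)) ∧
      (∀ X, Differentiable ℂ fun w => ev w X) ∧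
      (∀ i w X, ev (w + D.ω i) X = Complex.exp (D.l i w) * ev w (γ i * X)) ∧
      ∀ x, D.h x = ev (D.v x) (c x) := by
  classical
  have : FiniteDimensional ℂ D.CC := D.finiteDimensional_CC
  obtain ⟨A, A0, Aadd, Aw, Ahol⟩ := D.exists_flat
  obtain ⟨x₀, hx₀⟩ := D.pv
  set g₀ : G := D.v x₀ with hg₀
  let k := Module.finrank ℂ D.CC
  let b : Module.Basis (Fin k) ℂ D.CC := Module.finBasis ℂ D.CC
  -- the function `c`
  have hcw : ∀ x, (A (-(D.v x)) * S10.T D x).w = 0 := fun x => by
    rw [Dat.ZEl.mul_w, Aw]; exact neg_add_cancel _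
  let c : E → D.CC := fun x => S10.ofZ (A (-(D.v x)) * S10.T D x) (hcw x)
  have htz : ∀ x, S10.tz (c x) = A (-(D.v x)) * S10.T D x := fun x => S10.tz_ofZ _ _
  have cadd : ∀ x y, c (x + y) = c x * c y := by
    intro x y
    apply S10.tz_inj
    rw [S10.tz_mul, htz, htz, htz, S10.T_add, map_add, neg_add, Aadd]
    exact mul_mul_mul_comm _ _ _ _
  have c0 : c 0 = 1 := by
    apply S10.tz_inj
    rw [htz, map_zero, neg_zero, A0, one_mul, S10.T_zero, S10.tz_one]
  have hT : ∀ x, S10.T D x = A (D.v x) * S10.tz (c x) := by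
    intro x
    rw [htz, ← mul_assoc, ← Aadd, add_neg_cancel, A0, one_mul]
  let e : Fin k → E → ℂ := fun j x => b.repr (c x) j
  have hsum : ∀ x, c x = ∑ j, e j x • b j := fun x => (b.sum_repr (c x)).symm
  -- the units `γ i`
  have hgw : ∀ i, (S10.Mu' D i * A (D.ω i)).w = 0 := fun i => by
    rw [Dat.ZEl.mul_w, Aw]; exact neg_add_cancel _
  have hdw : ∀ i, (S10.Mu D i * A (-D.ω i)).w = 0 := fun i => by
    rw [Dat.ZEl.mul_w, Aw]; exact add_neg_cancel _
  let γ : ι → D.CC := fun i => S10.ofZ (S10.Mu' D i * A (D.ω i)) (hgw i)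
  let δ : ι → D.CC := fun i => S10.ofZ (S10.Mu D i * A (-D.ω i)) (hdw i)
  have hγ : ∀ i, S10.tz (γ i) = S10.Mu' D i * A (D.ω i) := fun i => S10.tz_ofZ _ _
  have hδ : ∀ i, S10.tz (δ i) = S10.Mu D i * A (-D.ω i) := fun i => S10.tz_ofZ _ _
  have hγδ : ∀ i, γ i * δ i = 1 := by
    intro i
    apply S10.tz_inj
    rw [S10.tz_mul, hγ, hδ, S10.tz_one, mul_mul_mul_comm, mul_comm (S10.Mu' D i), S10.Mu_mul,
      one_mul, ← Aadd, add_neg_cancel, A0]
  have hAω : ∀ i, A (D.ω i) = S10.Mu D i * S10.tz (γ i) := by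
    intro i
    rw [hγ, ← mul_assoc, S10.Mu_mul, one_mul]
  have hAis : ∀ w, D.IsH w (A w).Φ := fun w => by
    have := (A w).isZ.isH
    rwa [Aw w] at this
  have hbis : ∀ j, D.IsH 0 (b j).1 := fun j => (b j).2.isH
  refine ⟨k, b, c, γ, evL D A g₀, c0, cadd, ?_, ?_, ?_, ?_, ?_⟩
  · -- the coordinates of `c` are entire
    intro j
    have hF : ∀ i : Fin k, HolFam (fun (_ : G) => (b i).1) (Set.univ : Set G) := by
      intro i
      exact ((hbis i).diff.comp (differentiable_snd (𝕜 := ℂ) (E := G) (F := E × G))).differentiableOn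
    have hli : LinearIndependent ℂ (fun i : Fin k => (b i).1) :=
      b.linearIndependent.map' (S10.valL D) (LinearMap.ker_eq_bot.2 S10.valL_inj)
    have hA' : HolFam (fun x : E => (A (-(D.v x))).Φ) (Set.univ : Set E) := by
      have h1 : Differentiable ℂ (fun q : E × (E × G) => (-(D.v q.1), (q.2.1, q.2.2))) :=
        ((D.v.differentiable.comp differentiable_fst).neg).prodMk
          ((differentiable_fst.comp differentiable_snd).prodMk
            (differentiable_snd.comp differentiable_snd))
      have h2 : Differentiable ℂ (fun q : G × (E × G) => (A q.1).Φ q.2.1 q.2.2) := by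
        have := Ahol
        unfold HolFam at this
        rwa [Set.univ_prod_univ, differentiableOn_univ] at this
      exact (h2.comp h1).differentiableOn
    have htr : HolFam (fun x : E => D.tr x) (Set.univ : Set E) := by
      have h1 : Differentiable ℂ (fun q : E × (E × G) => D.h (q.2.1 + q.1)) :=
        D.hh.comp ((differentiable_fst.comp differentiable_snd).add differentiable_fst)
      have h2 : Differentiable ℂ (fun q : E × (E × G) => D.p (q.2.2 + D.v q.1)) :=
        D.hp.comp ((differentiable_snd.comp differentiable_snd).add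
          (D.v.differentiable.comp differentiable_fst))
      exact (h1.mul h2).differentiableOn
    have hΦ : HolFam (fun x : E => (c x).1) (Set.univ : Set E) := by
      refine Dat.HolFam.cmp (w := fun x : E => -(D.v x)) (w' := fun x : E => D.v x) isOpen_univ
        D.v.differentiable.differentiableOn (fun x _ => hAis _) (fun x _ => Dat.isH_tr x) hA' htr
    obtain ⟨α, hα, hα'⟩ := hol_coords (U := (Set.univ : Set G)) isOpen_univ hF
      (fun _ _ => hli) (O := (Set.univ : Set E)) isOpen_univ (w := fun _ => (0 : G))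
      (Φ := fun x => (c x).1) (fun _ _ => Set.mem_univ _) (differentiableOn_const _) hΦ (by
        intro x _
        have : (c x).1 = ∑ j, e j x • (b j).1 := by
          have h := congrArg (S10.valL D) (hsum x)
          rw [map_sum] at h
          simpa only [map_smul, S10.valL_apply] using h
        simp only [this]
        exact Submodule.sum_mem _ fun j _ => Submodule.smul_mem _ _
          (Submodule.subset_span ⟨j, rfl⟩))
    have hαe : ∀ j x, α j x = e j x := by
      intro j x
      have h1 : c x = ∑ j, α j x • b j := by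
        apply S10.valL_inj
        rw [map_sum]
        simpa only [map_smul, S10.valL_apply] using hα' x (Set.mem_univ x)
      show α j x = b.repr (c x) j
      rw [h1, b.repr_sum_self]
    have : (fun x => e j x) = α j := by funext x; exact (hαe j x).symm
    show Differentiable ℂ (fun x => e j x)
    rw [this]
    exact differentiableOn_univ.1 (hα j)
  · intro i
    exact IsUnit.of_mul_eq_one _ (hγδ i)
  · -- the evaluations are entire
    intro X
    have hF : HolFam (fun (_ : G) => X.1) (Set.univ : Set G) :=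
      (X.2.isH.diff.comp (differentiable_snd (𝕜 := ℂ) (E := G) (F := E × G))).differentiableOn
    have h1 : HolFam (fun w => D.cmp 0 (A w).Φ X.1) (Set.univ : Set G) :=
      Dat.HolFam.cmp (w := fun w : G => w) (w' := fun _ : G => (0 : G)) isOpen_univ
        (differentiableOn_const _) (fun w _ => hAis w) (fun w _ => X.2.isH) Ahol hF
    have h2 : Differentiable ℂ (fun q : G × (E × G) => D.cmp 0 (A q.1).Φ X.1 q.2.1 q.2.2) := by
      unfold HolFam at h1
      rwa [Set.univ_prod_univ, differentiableOn_univ] at h1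
    have h3 : Differentiable ℂ (fun w : G => (w, ((0 : E), g₀ - w))) :=
      differentiable_id.prodMk ((differentiable_const _).prodMk
        ((differentiable_const _).sub differentiable_id))
    exact (h2.comp h3).const_mul _
  · -- periods
    intro i u X
    have h1 : A (u + D.ω i) * S10.tz X = S10.Mu D i * (A u * S10.tz (γ i * X)) := by
      rw [Aadd, hAω, S10.tz_mul]
      simp only [mul_assoc, mul_left_comm]
    have h2 := congrArg Dat.ZEl.Φ h1
    have h3 : (S10.Mu D i * (A u * S10.tz (γ i * X))).Φ =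
        fun z g => Complex.exp (D.l i (A u * S10.tz (γ i * X)).w) *
          Complex.exp (D.l i (D.v z)) * (A u * S10.tz (γ i * X)).Φ z (g + D.ω i) :=
      Dat.mu_cmp i (A u * S10.tz (γ i * X)).isZ.isH
    have h4 : (A u * S10.tz (γ i * X)).w = u := by
      rw [Dat.ZEl.mul_w, Aw]; exact add_zero _
    rw [h3, h4] at h2
    have h5 := congrFun (congrFun h2 0) (g₀ - (u + D.ω i))
    simp only [map_zero, Complex.exp_zero, mul_one] at h5
    have h6 : g₀ - (u + D.ω i) + D.ω i = g₀ - u := by abel
    rw [h6] at h5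
    have h9 : S10.cmpL D (A (u + D.ω i)).Φ X 0 (g₀ - (u + D.ω i)) = Complex.exp (D.l i u) *
        S10.cmpL D (A u).Φ (γ i * X) 0 (g₀ - u) := h5
    show (D.p g₀)⁻¹ * S10.cmpL D (A (u + D.ω i)).Φ X 0 (g₀ - (u + D.ω i)) =
      Complex.exp (D.l i u) * ((D.p g₀)⁻¹ * S10.cmpL D (A u).Φ (γ i * X) 0 (g₀ - u))
    rw [h9]
    ring
  · -- the formula for `h`
    intro x
    have h1 : (S10.T D x).Φ = D.cmp 0 (A (D.v x)).Φ (c x).1 := by
      rw [hT]; rfl
    have h2 : D.tr x 0 (g₀ - D.v x) = D.cmp 0 (A (D.v x)).Φ (c x).1 0 (g₀ - D.v x) := by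
      rw [← h1]; rfl
    rw [← S10.cmpL_apply] at h2
    have h3 : D.tr x 0 (g₀ - D.v x) = D.h x * D.p g₀ := by
      simp [Dat.tr]
    rw [h3] at h2
    show D.h x = (D.p g₀)⁻¹ * S10.cmpL D (A (D.v x)).Φ (c x) 0 (g₀ - D.v x)
    rw [← h2]
    field_simp

end RepOfDat

open scoped Matrix.Norms.Operator in
/-- step 2 gives a representation -/
theorem hasRep_of_dat {E G ι : Type} [NormedAddCommGroup E] [NormedSpace ℂ E]
    [NormedAddCommGroup G] [NormedSpace ℂ G] [FiniteDimensional ℂ E] [FiniteDimensional ℂ G]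
    (D : Dat E G ι) : ∃ k, HasRep D.v D.ω D.l D.h k := by
  obtain ⟨k, b, c, γ, ev, c0, cadd, cd, hγ, evd, hper, hh⟩ := RepOfDat.exists_alg D
  let nr : NormedCommRing D.CC := NormedCommRing.induced D.CC (Matrix (Fin k) (Fin k) ℂ)
    (Algebra.leftMulMatrix b) (Algebra.leftMulMatrix_injective b)
  let na : NormedAlgebra ℂ D.CC := NormedAlgebra.induced ℂ D.CC (Matrix (Fin k) (Fin k) ℂ)
    (Algebra.leftMulMatrix b)
  have fd : FiniteDimensional ℂ D.CC := b.finiteDimensional_of_finite
  let ρ : Rep D.v D.ω D.l D.CC :=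
    { R := c
      R_zero := c0
      R_add := cadd
      R_diff := by
        have h1 : c = fun x => ∑ j, b.repr (c x) j • b j := by
          funext x; exact (b.sum_repr (c x)).symm
        rw [h1]
        exact Differentiable.fun_sum fun j _ => (cd j).smul_const (b j)
      g := γ
      g_unit := hγ
      ev := fun w => LinearMap.toContinuousLinearMap (ev w)
      ev_diff := fun X => evd X
      per := fun i w X => hper i w X }
  refine ⟨_, D.CC, nr, na, fd, ρ, rfl, ?_⟩
  funext x
  show D.h x = ρ.ev (D.v x + 0) (ρ.R x * 1)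
  rw [add_zero, mul_one]
  exact hh x

end Pool.Agent.Lib.MP_db21fa_an.TF
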