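import Pool.Agent.Lib.MP_db21fa_an.TP.ScalarRep

/-!
Project THETA, part 2: reduction of pairs to scalar theta functions.
-/

set_option autoImplicit false

open Filter Topology Metric NormedSpace

namespace Pool.Agent.Lib.MP_db21fa_an.TF

variable {E G ι : Type} [NormedAddCommGroup E] [NormedSpace ℂ E] [FiniteDimensional ℂ E]
  [NormedAddCommGroup G] [NormedSpace ℂ G] [FiniteDimensional ℂ G] [Fintype ι] {v : E →L[ℂ] G}
  {l : ι → G →L[ℂ] ℂ}

omit [FiniteDimensional ℂ E] [FiniteDimensional ℂ G] [Fintype ι] in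
theorem iter_mult {Θ : G → ℂ} {γ : G} {m : G →L[ℂ] ℂ} {c : ℂ}
    (h : ∀ u, Θ (u + γ) = Complex.exp (m u + c) * Θ u) (n : ℕ) :
    ∃ c' : ℂ, ∀ u, Θ (u + (n : ℝ) • γ) = Complex.exp ((n : ℂ) * m u + c') * Θ u := by
  induction n with
  | zero => exact ⟨0, fun u => by simp⟩
  | succ n ih =>
    obtain ⟨c', hc'⟩ := ih
    refine ⟨c' + m ((n : ℝ) • γ) + c, fun u => ?_⟩
    have e1 : u + ((n + 1 : ℕ) : ℝ) • γ = (u + (n : ℝ) • γ) + γ := by
      push_cast
      rw [add_smul, one_smul, add_assoc]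
    rw [e1, h, hc', ← mul_assoc, ← Complex.exp_add]
    congr 2
    rw [map_add]
    push_cast
    ring

omit [FiniteDimensional ℂ E] in
theorem rankLE_PK_swap {h b : E → ℂ} {N : ℕ} (hN : RankLE (PK h b) N) : RankLE (PK b h) N := by
  have h1 := hN.comp (fun x : E => x) (fun y : E => -y)
  refine (congrArg (fun K => RankLE K N) ?_).mpr h1
  funext x y
  simp only [PK, sub_neg_eq_add, ← sub_eq_add_neg]
  ring

/-- both functions -/
theorem exists_scalar_pair (ω : Module.Basis ι ℝ G) (hm : HMin v ω) {h b : E → ℂ} {N : ℕ}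
    (hh : h ≠ 0) (hb : b ≠ 0) (hh' : ∃ k, HasRep v ω l h k) (hb' : ∃ k, HasRep v ω l b k)
    (hN : RankLE (PK h b) N) :
    ∃ (Θ Θ' : G → ℂ) (K : ℕ) (C C' : ι → ℂ), 0 < K ∧ Differentiable ℂ Θ ∧ Differentiable ℂ Θ' ∧
      (∃ x, Θ (v x) ≠ 0) ∧ (∃ x, Θ' (v x) ≠ 0) ∧
      (∀ i u, Θ (u + (K : ℝ) • ω i) = Complex.exp ((K : ℂ) * l i u + C i) * Θ u) ∧
      (∀ i u, Θ' (u + (K : ℝ) • ω i) = Complex.exp ((K : ℂ) * l i u + C' i) * Θ' u) ∧
      RankLE (PK (fun x => Θ (v x)) (fun x => Θ' (v x))) N := by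
  obtain ⟨Θ, μ, K₁, C₁, hK₁, hd, hx, hp, hr⟩ := exists_scalar ω hm hh hh' hN
  obtain ⟨Θ', μ', K₂, C₂, hK₂, hd', hx', hp', hr'⟩ :=
    exists_scalar ω hm hb hb' (rankLE_PK_swap hr)
  have hr2 := rankLE_PK_swap hr'
  have hr3 : RankLE (PK (fun x => Θ (v x)) (fun x => Θ' (v x))) N := by
    have h1 := rankLE_PK_exp hr2 (-μ) (-μ') 1 1
    refine (congrArg (fun K => RankLE K N) ?_).mpr h1
    congr 1
    · funext x
      have : Complex.exp ((-μ) x) * Complex.exp (μ x) = 1 := by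
        rw [← Complex.exp_add]; simp
      linear_combination (-Θ (v x)) * this
    · funext x
      have : Complex.exp ((-μ') x) * Complex.exp (μ' x) = 1 := by
        rw [← Complex.exp_add]; simp
      linear_combination (-Θ' (v x)) * this
  choose C hC using fun i => iter_mult (m := (K₁ : ℂ) • l i) (hp i) K₂
  choose C' hC' using fun i => iter_mult (m := (K₂ : ℂ) • l i) (hp' i) K₁
  refine ⟨Θ, Θ', K₁ * K₂, C, C', Nat.mul_pos hK₁ hK₂, hd, hd', hx, hx', fun i u => ?_,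
    fun i u => ?_, hr3⟩
  · have e1 : ((K₁ * K₂ : ℕ) : ℝ) • ω i = (K₂ : ℝ) • ((K₁ : ℝ) • ω i) := by
      rw [smul_smul]; push_cast; rw [mul_comm]
    rw [e1, hC i u]
    congr 2
    rw [smul_apply, smul_eq_mul]
    push_cast
    ring
  · have e1 : ((K₁ * K₂ : ℕ) : ℝ) • ω i = (K₁ : ℝ) • ((K₂ : ℝ) • ω i) := by
      rw [smul_smul]; push_cast; rfl
    rw [e1, hC' i u]
    congr 2
    rw [smul_apply, smul_eq_mul]
    push_cast
    ring

end Pool.Agent.Lib.MP_db21fa_an.TF
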