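import Pool.Agent.Lib.MP_db21fa_an.TP.BData
import Pool.Agent.Lib.MP_db21fa_an.TF.SimCalc

/-!
Project THETA, part 2: normalised coordinates.
-/

set_option autoImplicit false
set_option linter.unusedSectionVars false

open Filter Topology Metric

namespace Pool.Agent.Lib.MP_db21fa_an.TF

variable {H ι : Type} [NormedAddCommGroup H] [NormedSpace ℂ H] [FiniteDimensional ℂ H] [Fintype ι]

section gauge

variable {G : Type} [NormedAddCommGroup G] [NormedSpace ℂ G]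

private theorem gs_add (B : G →L[ℂ] G →L[ℂ] ℂ) (κ : G →L[ℂ] ℂ) (u γ : G) :
    gs B κ (u + γ) = Complex.exp (B γ u + B u γ + (B γ γ + κ γ)) * gs B κ u := by
  rw [gs, gs, ← Complex.exp_add]
  congr 1
  simp only [map_add, add_apply]
  ring

private theorem gs_cancel (B : G →L[ℂ] G →L[ℂ] ℂ) (κ : G →L[ℂ] ℂ) (u : G) :
    gs (-B) (-κ) u * gs B κ u = 1 := by
  rw [gs, gs, ← Complex.exp_add]
  simp only [neg_apply]
  rw [show -(B u) u + -κ u + ((B u) u + κ u) = 0 by ring, Complex.exp_zero]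

/-- multiplier periods after a Gaussian gauge -/
private theorem Mult.gauss {Θ : G → ℂ} {γ : G} {l : G →L[ℂ] ℂ} (h : Mult Θ γ l)
    (B : G →L[ℂ] G →L[ℂ] ℂ) (κ : G →L[ℂ] ℂ) :
    Mult (fun u => gs B κ u * Θ u) γ (l + B γ + B.flip γ) := by
  obtain ⟨c, hc⟩ := h
  refine ⟨c + (B γ γ + κ γ), fun u => ?_⟩
  simp only [gs_add, hc, add_apply, ContinuousLinearMap.flip_apply]
  rw [show l u + B γ u + B u γ + (c + (B γ γ + κ γ)) = (B γ u + B u γ + (B γ γ + κ γ)) + (l u + c)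
    by ring, Complex.exp_add (B γ u + B u γ + (B γ γ + κ γ))]
  ring

variable {G' : Type} [NormedAddCommGroup G'] [NormedSpace ℂ G']

/-- multiplier periods after a change of coordinates -/
private theorem Mult.comp_equiv {Θ : G → ℂ} {γ : G} {l : G →L[ℂ] ℂ} (h : Mult Θ γ l)
    (ψ : G' ≃L[ℂ] G) {γ' : G'} (hγ : ψ γ' = γ) :
    Mult (fun z => Θ (ψ z)) γ' (l.comp (ψ : G' →L[ℂ] G)) := by
  obtain ⟨c, hc⟩ := h
  refine ⟨c, fun z => ?_⟩
  simp only [map_add, hγ, hc]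
  rfl

private theorem differentiable_gs' (B : G →L[ℂ] G →L[ℂ] ℂ) (κ : G →L[ℂ] ℂ) :
    Differentiable ℂ (gs B κ) := by
  have h1 : Differentiable ℂ fun x => B x x := by
    intro x
    exact (B.differentiableAt.clm_apply differentiableAt_id)
  exact (h1.add κ.differentiable).cexp

end gauge

/-- coordinates adapted to a nonzero vector -/
private theorem exists_coord {G : Type} [NormedAddCommGroup G] [NormedSpace ℂ G]
    [FiniteDimensional ℂ G] {M : ℕ} (hG : Module.finrank ℂ G = M + 1) {e : G} (he : e ≠ 0) :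
    ∃ ψ : (ℂ × (Fin M → ℂ)) ≃L[ℂ] G, ψ (1, 0) = e := by
  obtain ⟨W, hW⟩ := Submodule.exists_isCompl (Submodule.span ℂ {e})
  have h1 : Module.finrank ℂ (Submodule.span ℂ {e}) = 1 := finrank_span_singleton he
  have h2 : Module.finrank ℂ W = M := by
    have h3 := Submodule.finrank_add_eq_of_isCompl hW
    omega
  let e₁ : ℂ ≃ₗ[ℂ] Submodule.span ℂ {e} := LinearEquiv.toSpanNonzeroSingleton ℂ G e he
  let e₂ : (Fin M → ℂ) ≃ₗ[ℂ] W := LinearEquiv.ofFinrankEq _ _ (by simp [h2])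
  let E : (ℂ × (Fin M → ℂ)) ≃ₗ[ℂ] G :=
    (LinearEquiv.prodCongr e₁ e₂).trans (Submodule.prodEquivOfIsCompl _ _ hW)
  refine ⟨E.toContinuousLinearEquiv, ?_⟩
  change E (1, 0) = e
  simp [E, e₁, e₂]

/-- transport to the normalised situation -/
theorem BData.exists_normalised {G : Type} [NormedAddCommGroup G] [NormedSpace ℂ G]
    [FiniteDimensional ℂ G] (ω : Module.Basis ι ℝ G) {m : ι → G →L[ℂ] ℂ} {Θ Θ' : G → ℂ}
    (D : BData ω m Θ Θ') {M : ℕ} (hG : Module.finrank ℂ G = M + 1) (i₀ : ι) {N : ℕ}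
    (hN : RankLE (PK Θ Θ') N) :
    ∃ (ω₁ : Module.Basis ι ℝ (ℂ × (Fin M → ℂ))) (m₁ : ι → ℂ × (Fin M → ℂ) →L[ℂ] ℂ)
      (Θ₁ Θ₁' : ℂ × (Fin M → ℂ) → ℂ) (J : ℕ), BData ω₁ m₁ Θ₁ Θ₁' ∧
      (∀ u, Θ₁ (u + (1, 0)) = Θ₁ u) ∧ (∀ u, Θ₁' (u + (1, 0)) = Θ₁' u) ∧
      ω₁ i₀ = ((2 : ℂ) ^ J, 0) ∧ m₁ i₀ = 0 ∧
      (¬ ∃ l, Mult Θ₁ (1 / 2, 0) l ∧ Mult Θ₁' (1 / 2, 0) l) ∧ RankLE (PK Θ₁ Θ₁') N := by
  have hω0 : ω i₀ ≠ 0 := ω.ne_zero i₀
  obtain ⟨J, ⟨c, hc⟩, ⟨c', hc'⟩, hprim⟩ :=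
    exists_primitive D.d D.ne D.d' D.ne' D.mult D.mult' D.nd i₀ hω0
  have h2J : ((2 : ℝ) ^ J) ≠ 0 := by positivity
  have h2Jc : ((2 : ℂ) ^ J) ≠ 0 := pow_ne_zero _ two_ne_zero
  set e : G := ((1 : ℝ) / 2 ^ J) • ω i₀ with he
  set le : G →L[ℂ] ℂ := ((1 : ℂ) / 2 ^ J) • m i₀ with hle
  have he0 : e ≠ 0 := smul_ne_zero (one_div_ne_zero h2J) hω0
  have hωe : ω i₀ = ((2 : ℂ) ^ J) • e := by
    rw [he, ← Complex.coe_smul, smul_smul]
    push_cast
    rw [mul_one_div_cancel h2Jc, one_smul]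
  have hme : m i₀ = ((2 : ℂ) ^ J) • le := by
    rw [hle, smul_smul, mul_one_div_cancel h2Jc, one_smul]
  obtain ⟨ψ, hψ⟩ := exists_coord hG he0
  -- the form `φ`
  let φ : G →L[ℂ] ℂ := (ContinuousLinearMap.fst ℂ ℂ (Fin M → ℂ)).comp (ψ.symm : G →L[ℂ] _)
  have hφe : φ e = 1 := by
    change (ψ.symm e).1 = 1
    rw [← hψ, ContinuousLinearEquiv.symm_apply_apply]
  let B : G →L[ℂ] G →L[ℂ] ℂ := φ.smulRight (-(le - (le e / 2) • φ))
  have hB : ∀ u w, B u w = φ u * (-(le w - le e / 2 * φ w)) := fun u w => by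
    simp [B]
  let κ : G →L[ℂ] ℂ := (le e / 2 - c) • φ
  let κ' : G →L[ℂ] ℂ := (le e / 2 - c') • φ
  have hBe : le + B e + B.flip e = 0 := by
    refine ContinuousLinearMap.ext fun u => ?_
    simp only [add_apply, ContinuousLinearMap.flip_apply, hB, hφe, zero_apply]
    ring
  let Θ₁ : ℂ × (Fin M → ℂ) → ℂ := fun z => gs B κ (ψ z) * Θ (ψ z)
  let Θ₁' : ℂ × (Fin M → ℂ) → ℂ := fun z => gs B κ' (ψ z) * Θ' (ψ z)
  -- the period
  have hper : ∀ {F : G → ℂ} {c : ℂ}, (∀ u, F (u + e) = Complex.exp (le u + c) * F u) →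
      ∀ z, (fun z => gs B ((le e / 2 - c) • φ) (ψ z) * F (ψ z)) (z + (1, 0))
        = gs B ((le e / 2 - c) • φ) (ψ z) * F (ψ z) := by
    intro F c hF z
    simp only [map_add, hψ, hF, gs_add]
    have h1 : B e (ψ z) + B (ψ z) e = - le (ψ z) := by
      have h2 := congrArg (fun f : G →L[ℂ] ℂ => f (ψ z)) hBe
      simp only [add_apply, ContinuousLinearMap.flip_apply, zero_apply] at h2
      linear_combination h2
    have h3 : B e e + ((le e / 2 - c) • φ) e = -c := by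
      have h4 : ((le e / 2 - c) • φ) e = (le e / 2 - c) * φ e := rfl
      rw [h4, hB, hφe]
      ring
    rw [h1, h3]
    have h5 : Complex.exp (-le (ψ z) + -c) * Complex.exp (le (ψ z) + c) = 1 := by
      rw [← Complex.exp_add, show -le (ψ z) + -c + (le (ψ z) + c) = 0 by ring, Complex.exp_zero]
    linear_combination (gs B ((le e / 2 - c) • φ) (ψ z) * F (ψ z)) * h5
  -- the basis
  let ψR : G ≃ₗ[ℝ] ℂ × (Fin M → ℂ) := (ψ.symm.toLinearEquiv.restrictScalars ℝ)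
  have hψR : ∀ u, ψR u = ψ.symm u := fun u => rfl
  let ω₁ : Module.Basis ι ℝ (ℂ × (Fin M → ℂ)) := ω.map ψR
  have hω₁ : ∀ i, ω₁ i = ψ.symm (ω i) := fun i => by
    rw [← hψR]
    exact Module.Basis.map_apply ω ψR i
  have hψω : ∀ i, ψ (ω₁ i) = ω i := fun i => by rw [hω₁]; exact ψ.apply_symm_apply _
  let m₁ : ι → ℂ × (Fin M → ℂ) →L[ℂ] ℂ := fun i =>
    (m i + B (ω i) + B.flip (ω i)).comp (ψ : (ℂ × (Fin M → ℂ)) →L[ℂ] G)
  have hm₁ : ∀ i z, m₁ i z = m i (ψ z) + B (ω i) (ψ z) + B (ψ z) (ω i) := fun i z => rfl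
  have hne : ∀ {F : G → ℂ} (κ : G →L[ℂ] ℂ), F ≠ 0 → (fun z => gs B κ (ψ z) * F (ψ z)) ≠ 0 := by
    intro F κ hF h0
    obtain ⟨u, hu⟩ := Function.ne_iff.1 hF
    have h1 := congrFun h0 (ψ.symm u)
    simp only [ContinuousLinearEquiv.apply_symm_apply, Pi.zero_apply] at h1
    exact (mul_ne_zero (Complex.exp_ne_zero _) hu) h1
  have hhalf : ψ (1 / 2, 0) = ((1 : ℝ) / 2 ^ (J + 1)) • ω i₀ := by
    have h1 : ((1 / 2, 0) : ℂ × (Fin M → ℂ)) = (1 / 2 : ℂ) • (1, 0) := by simp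
    rw [h1, map_smul, hψ, hωe, ← Complex.coe_smul, smul_smul]
    congr 1
    push_cast
    rw [pow_succ]
    field_simp
  refine ⟨ω₁, m₁, Θ₁, Θ₁', J, ⟨?_, ?_, hne κ D.ne, hne κ' D.ne', ?_, ?_, ?_⟩, hper hc, hper hc',
    ?_, ?_, ?_, ?_⟩
  · exact ((differentiable_gs' B κ).comp ψ.differentiable).mul (D.d.comp ψ.differentiable)
  · exact ((differentiable_gs' B κ').comp ψ.differentiable).mul (D.d'.comp ψ.differentiable)
  · intro i
    exact ((D.mult i).gauss B κ).comp_equiv ψ (hψω i)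
  · intro i
    exact ((D.mult' i).gauss B κ').comp_equiv ψ (hψω i)
  · -- nondegeneracy
    intro u₀ A hA
    have h1 : ψ u₀ = 0 := by
      refine D.nd (ψ u₀) (A.comp (ψ.symm : G →L[ℂ] _) - B.flip (ψ u₀) - B (ψ u₀)) fun i => ?_
      have h2 := hA i
      rw [hm₁, hω₁] at h2
      simp only [sub_apply, ContinuousLinearMap.flip_apply, ContinuousLinearMap.comp_apply,
        ContinuousLinearEquiv.coe_coe]
      linear_combination h2
    exact (map_eq_zero_iff ψ ψ.injective).1 h1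
  · -- the first lattice vector
    rw [hω₁, hωe, map_smul, ← hψ, ContinuousLinearEquiv.symm_apply_apply]
    simp
  · -- its multiplier
    refine ContinuousLinearMap.ext fun z => ?_
    rw [hm₁, hme, hωe]
    have h1 := congrArg (fun f : G →L[ℂ] ℂ => f (ψ z)) hBe
    simp only [add_apply, ContinuousLinearMap.flip_apply, zero_apply] at h1
    simp only [map_smul, FunLike.coe_smul, Pi.smul_apply, smul_eq_mul, zero_apply]
    linear_combination ((2 : ℂ) ^ J) * h1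
  · -- primitivity
    rintro ⟨l, h1, h2⟩
    refine hprim ⟨l.comp (ψ.symm : G →L[ℂ] _) + (-B) (ψ (1 / 2, 0)) + (-B).flip (ψ (1 / 2, 0)),
      ?_, ?_⟩
    · have h3 := (Mult.comp_equiv h1 ψ.symm (γ' := ψ (1 / 2, 0))
        (ψ.symm_apply_apply _)).gauss (-B) (-κ)
      rw [← hhalf]
      refine (congrArg (fun F => Mult F _ _) ?_).mpr h3
      funext u
      simp only [Θ₁, ContinuousLinearEquiv.apply_symm_apply]
      rw [← mul_assoc, gs_cancel, one_mul]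
    · have h3 := (Mult.comp_equiv h2 ψ.symm (γ' := ψ (1 / 2, 0))
        (ψ.symm_apply_apply _)).gauss (-B) (-κ')
      rw [← hhalf]
      refine (congrArg (fun F => Mult F _ _) ?_).mpr h3
      funext u
      simp only [Θ₁', ContinuousLinearEquiv.apply_symm_apply]
      rw [← mul_assoc, gs_cancel, one_mul]
  · exact rankLE_PK_comp (rankLE_PK_gauss hN B κ κ') (ψ : (ℂ × (Fin M → ℂ)) →L[ℂ] G)

end Pool.Agent.Lib.MP_db21fa_an.TF
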