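import Pool.Agent.Lib.MP_db21fa_an.TP.Defs

/-!
Project THETA, part 2: periods which are not divisible by two.
-/

set_option autoImplicit false

open Filter Topology Metric

namespace Pool.Agent.Lib.MP_db21fa_an.TF

variable {G : Type} [NormedAddCommGroup G] [NormedSpace ℂ G]

theorem Mult.zero (Θ : G → ℂ) : Mult Θ 0 0 := ⟨0, fun u => by simp⟩

theorem Mult.add {Θ : G → ℂ} {γ γ' : G} {l l' : G →L[ℂ] ℂ} (h : Mult Θ γ l) (h' : Mult Θ γ' l') :
    Mult Θ (γ + γ') (l + l') := by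
  obtain ⟨c, hc⟩ := h
  obtain ⟨c', hc'⟩ := h'
  refine ⟨c + c' + l' γ, fun u => ?_⟩
  rw [← add_assoc, hc' (u + γ), hc u, ← mul_assoc, ← Complex.exp_add]
  congr 2
  simp only [map_add, add_apply]
  ring

theorem Mult.neg {Θ : G → ℂ} {γ : G} {l : G →L[ℂ] ℂ} (h : Mult Θ γ l) : Mult Θ (-γ) (-l) := by
  obtain ⟨c, hc⟩ := h
  refine ⟨l γ - c, fun u => ?_⟩
  have h1 := hc (u + -γ)
  rw [neg_add_cancel_right] at h1
  rw [h1, ← mul_assoc, ← Complex.exp_add]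
  have h2 : (-l) u + (l γ - c) + (l (u + -γ) + c) = 0 := by
    simp only [map_add, map_neg, neg_apply]
    ring
  rw [h2, Complex.exp_zero, one_mul]

theorem Mult.zsmul {Θ : G → ℂ} {γ : G} {l : G →L[ℂ] ℂ} (h : Mult Θ γ l) (n : ℤ) :
    Mult Θ (n • γ) (n • l) := by
  induction n using Int.induction_on with
  | zero =>
    have h1 : ((0 : ℤ) • l) = 0 := by
      ext v
      simp
    rw [zero_smul, h1]
    exact Mult.zero Θ
  | succ n ih =>
    have h1 := ih.add h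
    rwa [add_one_zsmul, add_one_zsmul]
  | pred n ih =>
    have h1 := ih.add h.neg
    rwa [sub_one_zsmul, sub_one_zsmul]

/-- a nonzero function has a nonzero value -/
theorem exists_ne_of_ne {X : Type} {Θ : X → ℂ} (h0 : Θ ≠ 0) : ∃ u, Θ u ≠ 0 := by
  by_contra hcon
  push Not at hcon
  exact h0 (funext hcon)

theorem Mult.unique {Θ : G → ℂ} (hΘ : Differentiable ℂ Θ) (h0 : Θ ≠ 0) {γ : G} {l l' : G →L[ℂ] ℂ}
    (h : Mult Θ γ l) (h' : Mult Θ γ l') : l = l' := by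
  obtain ⟨c, hc⟩ := h
  obtain ⟨c', hc'⟩ := h'
  obtain ⟨u₀, hu₀⟩ := exists_ne_of_ne h0
  have h1 : ∀ᶠ u in 𝓝 u₀, Θ u ≠ 0 := hΘ.continuous.continuousAt.eventually_ne hu₀
  have h2 : ∀ᶠ u in 𝓝 u₀, Complex.exp ((l - l') u + (c - c')) = 1 := by
    filter_upwards [h1] with u hu
    have h3 : Complex.exp (l u + c) = Complex.exp (l' u + c') := by
      apply mul_right_cancel₀ hu
      rw [← hc u, ← hc' u]
    have h4 : (l - l') u + (c - c') = (l u + c) - (l' u + c') := by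
      simp only [sub_apply]
      ring
    rw [h4, Complex.exp_sub, h3, div_self (Complex.exp_ne_zero _)]
  have h5 : HasFDerivAt (fun u => Complex.exp ((l - l') u + (c - c')))
      (Complex.exp ((l - l') u₀ + (c - c')) • (l - l')) u₀ :=
    (((l - l').hasFDerivAt).add_const (c - c')).cexp
  have h6 : HasFDerivAt (fun u => Complex.exp ((l - l') u + (c - c'))) (0 : G →L[ℂ] ℂ) u₀ := by
    have h7 : HasFDerivAt (fun _ : G => (1 : ℂ)) (0 : G →L[ℂ] ℂ) u₀ := hasFDerivAt_const 1 u₀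
    exact h7.congr_of_eventuallyEq h2
  have h8 := h5.unique h6
  ext v
  have h9 := DFunLike.congr_fun h8 v
  have h10 : Complex.exp ((l - l') u₀ + (c - c')) * (l v - l' v) = 0 := h9
  rcases mul_eq_zero.mp h10 with h | h
  · exact absurd h (Complex.exp_ne_zero _)
  · exact sub_eq_zero.mp h

/-- if `γ / 2 ^ j` is a multiplier period for all `j`, then `∂_γ Θ = (l + c) Θ` -/
theorem deriv_of_divisible {Θ : G → ℂ} (hΘ : Differentiable ℂ Θ) (h0 : Θ ≠ 0) {γ : G}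
    {l : G →L[ℂ] ℂ} (h : ∀ j : ℕ, Mult Θ (((1 : ℝ) / 2 ^ j) • γ) (((1 : ℂ) / 2 ^ j) • l)) :
    ∃ c : ℂ, ∀ u, fderiv ℂ Θ u γ = (l u + c) * Θ u := by
  obtain ⟨u₀, hu₀⟩ := exists_ne_of_ne h0
  refine ⟨fderiv ℂ Θ u₀ γ / Θ u₀ - l u₀, fun u => ?_⟩
  choose c hc using h
  -- the sequence
  let t : ℕ → ℂ := fun j => (1 / 2) ^ j
  have ht0 : ∀ j, t j ≠ 0 := fun j => pow_ne_zero _ (by norm_num)
  have htt : Tendsto t atTop (𝓝[≠] 0) := by
    refine tendsto_nhdsWithin_iff.mpr ⟨?_, Eventually.of_forall ht0⟩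
    exact tendsto_pow_atTop_nhds_zero_of_norm_lt_one (by norm_num)
  have hγ : ∀ j, ((1 : ℝ) / 2 ^ j) • γ = t j • γ := by
    intro j
    have h1 : t j = (((1 : ℝ) / 2 ^ j : ℝ) : ℂ) := by
      simp only [t]
      push_cast
      rw [one_div, one_div, inv_pow]
    rw [h1, Complex.coe_smul]
  have htl : ∀ j v, (((1 : ℂ) / 2 ^ j) • l) v = t j * l v := by
    intro j v
    simp only [smul_apply, smul_eq_mul, t]
    rw [one_div, one_div, inv_pow]
  -- the difference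
  let D : ℂ → ℂ := fun s => Θ (u + s • γ) * Θ u₀ - Complex.exp (s * l (u - u₀)) * Θ (u₀ + s • γ) * Θ u
  have hD0 : D 0 = 0 := by simp [D, mul_comm]
  have hDt : ∀ j, D (t j) = 0 := by
    intro j
    simp only [D]
    rw [← hγ j, hc j u, hc j u₀, htl, htl]
    have h2 : Complex.exp (t j * l (u - u₀)) * (Complex.exp (t j * l u₀ + c j) * Θ u₀) * Θ u =
        Complex.exp (t j * l u + c j) * Θ u * Θ u₀ := by
      have h3 : t j * l u + c j = t j * l (u - u₀) + (t j * l u₀ + c j) := by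
        rw [map_sub]; ring
      rw [h3, Complex.exp_add (t j * l (u - u₀)) (t j * l u₀ + c j)]
      ring
    rw [h2, sub_self]
  have hder1 : ∀ w : G, HasDerivAt (fun s : ℂ => Θ (w + s • γ)) (fderiv ℂ Θ w γ) 0 := by
    intro w
    have h4 : HasDerivAt (fun s : ℂ => w + s • γ) γ 0 := by
      have := ((hasDerivAt_id (0 : ℂ)).smul_const γ).const_add w
      simpa using this
    have h5 : HasFDerivAt Θ (fderiv ℂ Θ w) (w + (0 : ℂ) • γ) := by
      rw [zero_smul, add_zero]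
      exact (hΘ w).hasFDerivAt
    exact h5.comp_hasDerivAt (0 : ℂ) h4
  have hder2 : HasDerivAt (fun s : ℂ => Complex.exp (s * l (u - u₀))) (l (u - u₀)) 0 := by
    have := ((hasDerivAt_id (0 : ℂ)).mul_const (l (u - u₀))).cexp
    simpa using this
  have hD : HasDerivAt D (fderiv ℂ Θ u γ * Θ u₀ -
      ((l (u - u₀) * Θ (u₀ + (0 : ℂ) • γ) + Complex.exp (0 * l (u - u₀)) * fderiv ℂ Θ u₀ γ) * Θ u))
      0 := by
    exact ((hder1 u).mul_const _).sub ((hder2.mul (hder1 u₀)).mul_const _)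
  have h6 : fderiv ℂ Θ u γ * Θ u₀ -
      ((l (u - u₀) * Θ (u₀ + (0 : ℂ) • γ) + Complex.exp (0 * l (u - u₀)) * fderiv ℂ Θ u₀ γ) * Θ u)
      = 0 := by
    have h7 := (hasDerivAt_iff_tendsto_slope.mp hD).comp htt
    have h8 : (slope D 0) ∘ t = fun _ => (0 : ℂ) := by
      funext j
      simp [slope, hD0, hDt]
    rw [h8] at h7
    exact (tendsto_const_nhds_iff.mp h7).symm
  rw [zero_smul, add_zero, zero_mul, Complex.exp_zero, one_mul, map_sub] at h6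
  apply mul_right_cancel₀ hu₀
  have h9 : fderiv ℂ Θ u₀ γ / Θ u₀ * Θ u₀ = fderiv ℂ Θ u₀ γ := div_mul_cancel₀ _ hu₀
  linear_combination h6 - Θ u * h9

/-- `∂_γ Θ = (l + c) Θ` contradicts nondegeneracy -/
theorem eq_zero_of_deriv {ι : Type} {ω : ι → G} {m : ι → G →L[ℂ] ℂ} {Θ : G → ℂ}
    (hΘ : Differentiable ℂ Θ) (h0 : Θ ≠ 0) (hω : ∀ i, Mult Θ (ω i) (m i))
    (hND : ∀ (u₀ : G) (A : G →L[ℂ] ℂ), (∀ i, m i u₀ = A (ω i)) → u₀ = 0) {γ : G} {l : G →L[ℂ] ℂ}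
    {c : ℂ} (h : ∀ u, fderiv ℂ Θ u γ = (l u + c) * Θ u) : γ = 0 := by
  obtain ⟨u₀, hu₀⟩ := exists_ne_of_ne h0
  apply hND γ l
  intro i
  obtain ⟨ci, hci⟩ := hω i
  have hfun : (fun u => Θ (u + ω i)) = fun u => Complex.exp (m i u + ci) * Θ u := funext hci
  have h1 : HasFDerivAt (fun u => Θ (u + ω i)) (fderiv ℂ Θ (u₀ + ω i)) u₀ := by
    have h2 : HasFDerivAt (fun u : G => u + ω i) (ContinuousLinearMap.id ℂ G) u₀ :=
      (hasFDerivAt_id u₀).add_const _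
    have h3 := HasFDerivAt.comp u₀ (hΘ (u₀ + ω i)).hasFDerivAt h2
    rwa [ContinuousLinearMap.comp_id] at h3
  have h4 : HasFDerivAt (fun u => Complex.exp (m i u + ci) * Θ u)
      (Complex.exp (m i u₀ + ci) • fderiv ℂ Θ u₀ +
        Θ u₀ • (Complex.exp (m i u₀ + ci) • m i)) u₀ :=
    ((((m i).hasFDerivAt).add_const ci).cexp).mul (hΘ u₀).hasFDerivAt
  rw [hfun] at h1
  have h5 := h1.unique h4
  have h6 := DFunLike.congr_fun h5 γ
  simp only [add_apply, smul_apply, smul_eq_mul] at h6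
  rw [h (u₀ + ω i), h u₀, hci u₀, map_add] at h6
  have h7 : Complex.exp (m i u₀ + ci) * Θ u₀ ≠ 0 := mul_ne_zero (Complex.exp_ne_zero _) hu₀
  apply mul_right_cancel₀ h7
  linear_combination -h6

/-- **a common period which is not divisible by `2`** -/
theorem exists_primitive {ι : Type} {ω : ι → G} {m : ι → G →L[ℂ] ℂ} {Θ Θ' : G → ℂ}
    (hΘ : Differentiable ℂ Θ) (h0 : Θ ≠ 0) (hΘ' : Differentiable ℂ Θ') (h0' : Θ' ≠ 0)
    (hω : ∀ i, Mult Θ (ω i) (m i)) (hω' : ∀ i, Mult Θ' (ω i) (m i))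
    (hND : ∀ (u₀ : G) (A : G →L[ℂ] ℂ), (∀ i, m i u₀ = A (ω i)) → u₀ = 0) (i₀ : ι)
    (hi₀ : ω i₀ ≠ 0) :
    ∃ J : ℕ, Mult Θ (((1 : ℝ) / 2 ^ J) • ω i₀) (((1 : ℂ) / 2 ^ J) • m i₀) ∧
      Mult Θ' (((1 : ℝ) / 2 ^ J) • ω i₀) (((1 : ℂ) / 2 ^ J) • m i₀) ∧
      ¬ ∃ l, Mult Θ (((1 : ℝ) / 2 ^ (J + 1)) • ω i₀) l ∧
        Mult Θ' (((1 : ℝ) / 2 ^ (J + 1)) • ω i₀) l := by
  by_contra hcon
  push Not at hcon
  have hP : ∀ J : ℕ, Mult Θ (((1 : ℝ) / 2 ^ J) • ω i₀) (((1 : ℂ) / 2 ^ J) • m i₀) ∧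
      Mult Θ' (((1 : ℝ) / 2 ^ J) • ω i₀) (((1 : ℂ) / 2 ^ J) • m i₀) := by
    intro J
    induction J with
    | zero =>
      have h1 : ((1 : ℝ) / 2 ^ 0) • ω i₀ = ω i₀ := by simp
      have h2 : ((1 : ℂ) / 2 ^ 0) • m i₀ = m i₀ := by simp
      rw [h1, h2]
      exact ⟨hω i₀, hω' i₀⟩
    | succ J ih =>
      obtain ⟨l, hl, hl'⟩ := hcon J ih.1 ih.2
      have h3 : ((1 : ℝ) / 2 ^ (J + 1)) • ω i₀ + ((1 : ℝ) / 2 ^ (J + 1)) • ω i₀ =
          ((1 : ℝ) / 2 ^ J) • ω i₀ := by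
        rw [← add_smul]
        congr 1
        rw [pow_succ]
        field_simp
        norm_num
      have h4 := hl.add hl
      rw [h3] at h4
      have h5 := Mult.unique hΘ h0 h4 ih.1
      have h6 : l = ((1 : ℂ) / 2 ^ (J + 1)) • m i₀ := by
        have h7 : l = ((1 : ℂ) / 2) • (l + l) := by
          rw [smul_add, ← add_smul]
          norm_num
        rw [h7, h5, smul_smul]
        congr 1
        rw [pow_succ]
        field_simp
      rw [← h6]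
      exact ⟨hl, hl'⟩
  obtain ⟨c, hc⟩ := deriv_of_divisible hΘ h0 (fun j => (hP j).1)
  exact hi₀ (eq_zero_of_deriv hΘ h0 hω hND hc)

end Pool.Agent.Lib.MP_db21fa_an.TF
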