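import Pool.Agent.Lib.MP_db21fa_an.TP.Fc
import Pool.Agent.Lib.MP_db21fa_an.TP.Prim

/-!
Project THETA, part 2: parities of Fourier coefficients.
-/

set_option autoImplicit false

open Filter Topology Metric

namespace Pool.Agent.Lib.MP_db21fa_an.TF

variable {H ι : Type} [NormedAddCommGroup H] [NormedSpace ℂ H] [FiniteDimensional ℂ H] [Fintype ι]

/-- the parities -/
theorem exists_parities {Θ Θ' : ℂ × H → ℂ} (hd : Differentiable ℂ Θ) (hd' : Differentiable ℂ Θ')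
    (h0 : Θ ≠ 0) (h0' : Θ' ≠ 0) (hper : ∀ u, Θ (u + (1, 0)) = Θ u)
    (hper' : ∀ u, Θ' (u + (1, 0)) = Θ' u)
    (hprim : ¬ ∃ l, Mult Θ (1 / 2, 0) l ∧ Mult Θ' (1 / 2, 0) l) :
    (∃ α β : ℤ, Even (α + β) ∧ fc Θ α ≠ 0 ∧ fc Θ' β ≠ 0) ∧
      ∃ α β : ℤ, Odd (α + β) ∧ fc Θ α ≠ 0 ∧ fc Θ' β ≠ 0 := by
  obtain ⟨a₀, ha₀⟩ := exists_fc_ne_zero hd h0 hper
  obtain ⟨b₀, hb₀⟩ := exists_fc_ne_zero hd' h0' hper'
  -- a half period of `Θ` gives a multiplier
  have m1 : ∀ {F : ℂ × H → ℂ}, (∀ u, F (u + (1 / 2, 0)) = F u) → Mult F (1 / 2, 0) 0 := by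
    intro F hF
    exact ⟨0, fun u => by rw [hF]; simp⟩
  have m2 : ∀ {F : ℂ × H → ℂ}, (∀ u, F (u + (1 / 2, 0)) = -F u) → Mult F (1 / 2, 0) 0 := by
    intro F hF
    refine ⟨Real.pi * Complex.I, fun u => ?_⟩
    rw [hF]
    simp
  have m3 : ∀ {F : ℂ × H → ℂ}, Differentiable ℂ F → (∀ u, F (u + (1, 0)) = F u) →
      (∀ k k' : ℤ, fc F k ≠ 0 → fc F k' ≠ 0 → Even (k + k')) → Mult F (1 / 2, 0) 0 := by
    intro F hF hp h
    by_cases hex : ∃ k : ℤ, fc F k ≠ 0 ∧ Even k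
    · obtain ⟨k, hk, hke⟩ := hex
      refine m1 (half_period_of_odd hF hp fun k' hk' => ?_)
      by_contra hne
      have h1 := h k k' hk hne
      have h2 : Odd (k + k') := hke.add_odd hk'
      exact (Int.not_even_iff_odd.2 h2) h1
    · push Not at hex
      refine m2 (half_period_of_even hF hp fun k' hk' => ?_)
      by_contra hne
      exact hex k' hne hk'
  constructor
  · by_contra hcon
    push Not at hcon
    refine hprim ⟨0, m3 hd hper fun k k' hk hk' => ?_, m3 hd' hper' fun k k' hk hk' => ?_⟩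
    · have h1 : ¬ Even (k + b₀) := fun h => hb₀ (hcon k b₀ h hk)
      have h2 : ¬ Even (k' + b₀) := fun h => hb₀ (hcon k' b₀ h hk')
      rw [Int.even_add] at h1 h2 ⊢
      tauto
    · have h1 : ¬ Even (a₀ + k) := fun h => hk (hcon a₀ k h ha₀)
      have h2 : ¬ Even (a₀ + k') := fun h => hk' (hcon a₀ k' h ha₀)
      rw [Int.even_add] at h1 h2 ⊢
      tauto
  · by_contra hcon
    push Not at hcon
    refine hprim ⟨0, m3 hd hper fun k k' hk hk' => ?_, m3 hd' hper' fun k k' hk hk' => ?_⟩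
    · have h1 : ¬ Odd (k + b₀) := fun h => hb₀ (hcon k b₀ h hk)
      have h2 : ¬ Odd (k' + b₀) := fun h => hb₀ (hcon k' b₀ h hk')
      rw [Int.not_odd_iff_even, Int.even_add] at h1 h2
      rw [Int.even_add]
      tauto
    · have h1 : ¬ Odd (a₀ + k) := fun h => hk (hcon a₀ k h ha₀)
      have h2 : ¬ Odd (a₀ + k') := fun h => hk' (hcon a₀ k' h ha₀)
      rw [Int.not_odd_iff_even, Int.even_add] at h1 h2
      rw [Int.even_add]
      tauto

end Pool.Agent.Lib.MP_db21fa_an.TF
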