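import Pool.Agent.Lib.MP_db21fa_an.TP.Next
import Pool.Agent.Lib.MP_db21fa_an.TP.Parity
import Pool.Agent.Lib.MP_db21fa_an.TP.Normalise
import Pool.Agent.Lib.MP_db21fa_an.TP.FcSplit

/-!
Project THETA, part 2: the rank bound for scalar theta functions.
-/

set_option autoImplicit false

open Filter Topology Metric

namespace Pool.Agent.Lib.MP_db21fa_an.TF

variable {H ι : Type} [NormedAddCommGroup H] [NormedSpace ℂ H] [FiniteDimensional ℂ H] [Fintype ι]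

/-- the rank of a nonzero kernel is positive -/
theorem one_le_of_rankLE {G : Type} [NormedAddCommGroup G] [NormedSpace ℂ G] {Θ Θ' : G → ℂ}
    (h0 : Θ ≠ 0) (h0' : Θ' ≠ 0) {N : ℕ} (hN : RankLE (PK Θ Θ') N) : 1 ≤ N := by
  rcases Nat.eq_zero_or_pos N with rfl | h
  · exfalso
    obtain ⟨f, g, hfg⟩ := hN
    obtain ⟨u₁, hu₁⟩ := Function.ne_iff.1 h0
    obtain ⟨u₂, hu₂⟩ := Function.ne_iff.1 h0'
    have h := hfg ((1 / 2 : ℂ) • (u₁ + u₂)) ((1 / 2 : ℂ) • (u₂ - u₁))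
    have e1 : (1 / 2 : ℂ) • (u₁ + u₂) - (1 / 2 : ℂ) • (u₂ - u₁) = u₁ := by
      rw [← smul_sub]
      have : u₁ + u₂ - (u₂ - u₁) = (2 : ℂ) • u₁ := by rw [two_smul]; abel
      rw [this, smul_smul]; norm_num
    have e2 : (1 / 2 : ℂ) • (u₁ + u₂) + (1 / 2 : ℂ) • (u₂ - u₁) = u₂ := by
      rw [← smul_add]
      have : u₁ + u₂ + (u₂ - u₁) = (2 : ℂ) • u₂ := by rw [two_smul]; abel
      rw [this, smul_smul]; norm_num
    simp only [PK, e1, e2, Finset.univ_eq_empty, Finset.sum_empty] at h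
    rcases mul_eq_zero.1 h with h | h
    · exact hu₁ h
    · exact hu₂ h
  · exact h

/-- **the rank bound for scalar theta functions** -/
theorem BData.two_pow_le {M : ℕ} : ∀ {G ι : Type} [NormedAddCommGroup G] [NormedSpace ℂ G]
    [FiniteDimensional ℂ G] [Fintype ι] (ω : Module.Basis ι ℝ G) {m : ι → G →L[ℂ] ℂ}
    {Θ Θ' : G → ℂ}, Module.finrank ℂ G = M → BData ω m Θ Θ' → ∀ {N : ℕ}, RankLE (PK Θ Θ') N →
    2 ^ M ≤ N := by
  induction M with
  | zero =>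
    intro G ι _ _ _ _ ω m Θ Θ' _ D N hN
    simpa using one_le_of_rankLE D.ne D.ne' hN
  | succ M ih =>
    intro G ι _ _ _ _ ω m Θ Θ' hG D N hN
    have hcard : Fintype.card ι = 2 * (M + 1) := by
      rw [← Module.finrank_eq_card_basis ω, finrank_real_of_complex, hG]
    have hne : Nonempty ι := Fintype.card_pos_iff.1 (by omega)
    obtain ⟨i₀⟩ := hne
    obtain ⟨ω₁, m₁, Θ₁, Θ₁', J, D₁, hper, hper', hi₀, hm₀, hprim, hN₁⟩ :=
      D.exists_normalised ω hG i₀ hN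
    obtain ⟨κ, hκ, ω', m', hnd, hmult⟩ := D₁.exists_next ω₁ hper hper' hi₀ hm₀
    obtain ⟨⟨α, β, he, hα, hβ⟩, α', β', ho, hα', hβ'⟩ :=
      exists_parities D₁.d D₁.d' D₁.ne D₁.ne' hper hper' hprim
    have key : ∀ α β : ℤ, fc Θ₁ α ≠ 0 → fc Θ₁' β ≠ 0 → ∀ n,
        RankLE (PK (fc Θ₁ α) (fc Θ₁' β)) n → 2 ^ M ≤ n := by
      intro α β hα hβ n hn
      exact ih ω' (by simp) ⟨differentiable_fc D₁.d α, differentiable_fc D₁.d' β, hα, hβ,
        (hmult α).1, (hmult β).2, hnd⟩ hn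
    have h := rank_split D₁.d D₁.d' hper hper' hN₁ he ho (key α β hα hβ) (key α' β' hα' hβ')
    rw [pow_succ]
    omega

end Pool.Agent.Lib.MP_db21fa_an.TF
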