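import Pool.Agent.Lib.MP_db21fa_an.TF.Final
import Pool.Agent.Lib.MP_db21fa_an.TP.ScalarPair
import Pool.Agent.Lib.MP_db21fa_an.TP.RankG
import Pool.Agent.Lib.MP_db21fa_an.TP.RepOfDat
import Pool.Agent.Lib.MP_db21fa_an.TP.MinData2
import Pool.Agent.Lib.MP_db21fa_an.TP.TwoPow

/-!
Project THETA, part 2: the final statement.
-/

set_option autoImplicit false

open Filter Topology Metric

namespace Pool.Agent.Lib.MP_db21fa_an.TF

/-- **the bound** -/
theorem two_pow_le_of_rep {E G ι : Type} [NormedAddCommGroup E] [NormedSpace ℂ E]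
    [FiniteDimensional ℂ E] [NormedAddCommGroup G] [NormedSpace ℂ G] [FiniteDimensional ℂ G]
    [Fintype ι] {v : E →L[ℂ] G} {l : ι → G →L[ℂ] ℂ} (ω : Module.Basis ι ℝ G) (hm : HMin v ω)
    (hND : ∀ (u₀ : G) (A : G →L[ℂ] ℂ), (∀ i, l i u₀ = A (ω i)) → u₀ = 0)
    {h b : E → ℂ} {N : ℕ} (hh : h ≠ 0) (hb : b ≠ 0) (hh' : ∃ k, HasRep v ω l h k)
    (hb' : ∃ k, HasRep v ω l b k) (hN : RankLE (PK h b) N) : 2 ^ Module.finrank ℂ G ≤ N := by
  obtain ⟨Θ, Θ', K, C, C', hK, hd, hd', ⟨x₁, hx₁⟩, ⟨x₂, hx₂⟩, hp, hp', hr⟩ :=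
    exists_scalar_pair ω hm hh hb hh' hb' hN
  have hK0 : (K : ℝ) ≠ 0 := Nat.cast_ne_zero.2 hK.ne'
  have hKc : (K : ℂ) ≠ 0 := Nat.cast_ne_zero.2 hK.ne'
  let ω' : Module.Basis ι ℝ G := ω.isUnitSMul (w := fun _ => (K : ℝ)) fun _ => hK0.isUnit
  have hω' : ∀ i, ω' i = (K : ℝ) • ω i := fun i => ω.isUnitSMul_apply _ i
  have hZ := zprin_smul v ω ω' hm hK hω'
  have hΘ : Θ ∈ ThetaSp ω' (fun i => (K : ℂ) • l i) C := by
    refine ⟨hd, fun i u => ?_⟩
    rw [hω', hp]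
    rfl
  have hΘ' : Θ' ∈ ThetaSp ω' (fun i => (K : ℂ) • l i) C' := by
    refine ⟨hd', fun i u => ?_⟩
    rw [hω', hp']
    rfl
  have hr' := rankLE_of_comp v ω' hZ hΘ hΘ' hr
  refine BData.two_pow_le ω' (m := fun i => (K : ℂ) • l i) rfl
    ⟨hd, hd', fun h0 => hx₁ (congrFun h0 _), fun h0 => hx₂ (congrFun h0 _),
      fun i => ⟨C i, fun u => hΘ.2 i u⟩, fun i => ⟨C' i, fun u => hΘ'.2 i u⟩, ?_⟩ hr'
  intro u₀ A hA
  refine hND u₀ A fun i => ?_
  have h1 := hA i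
  rw [hω'] at h1
  have h2 : A ((K : ℝ) • ω i) = (K : ℂ) * A (ω i) := by
    rw [← Complex.coe_smul, map_smul, smul_eq_mul]
    norm_cast
  rw [h2] at h1
  have h3 : ((K : ℂ) • l i) u₀ = (K : ℂ) * l i u₀ := rfl
  rw [h3] at h1
  exact mul_left_cancel₀ hKc h1

open ModX1 in
/-- **forward direction with the bound** -/
theorem forward_bound {n : ℕ} {h b : (Fin n → ℂ) → ℂ} (hh : Differentiable ℂ h)
    (hb : Differentiable ℂ b) (hh0 : h ≠ 0) (hb0 : b ≠ 0) {N : ℕ} (hs : RankLE (PK h b) N) :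
    ∃ (m : ℕ) (A : Matrix (Fin n) (Fin n) ℂ) (V : Matrix (Fin m) (Fin n) ℂ)
      (ω L : Fin (2 * m) → Fin m → ℂ), 2 ^ m ≤ N ∧ LinearIndependent ℝ ω ∧
      ThetaExp A V ω L h ∧ ThetaExp A V ω L b := by
  have hsim : Sim h b := ⟨N, hs⟩
  have hhh : Sim h h := Sim.self hh hb hb0 hsim
  obtain ⟨m, v, B, κ, p, ω, l, c, hp, hpv, hsp, hper, hZ, hND, hHM⟩ := exists_min_data' hh hh0 hhh
  have hd : Differentiable ℂ (fun x => gs B κ x * p (v x)) :=
    (differentiable_gs B κ).mul (hp.comp v.differentiable)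
  have hbp : Sim b (fun x => gs B κ x * p (v x)) := Sim.trans hb hh hd hh0 hsim.symm hsp
  -- representations of both functions
  have hrep : ∀ {f : (Fin n → ℂ) → ℂ}, Differentiable ℂ f → f ≠ 0 →
      Sim f (fun x => gs B κ x * p (v x)) →
      ∃ k, HasRep v ω l (fun x => gs (-B) (-κ) x * f x) k := by
    intro f hf hf0 hs
    have hs' : Sim (fun x => gs (-B) (-κ) x * f x) (fun x => p (v x)) := by
      have h1 := hs.gauss (-B) (-κ) (-κ)
      refine (congrArg (fun F => Sim (fun x => gs (-B) (-κ) x * f x) F) ?_).mpr h1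
      funext x
      rw [← mul_assoc, gs_neg_mul, one_mul]
    obtain ⟨x₀, hx₀⟩ : ∃ x, f x ≠ 0 := Function.ne_iff.1 hf0
    let D : Dat (Fin n → ℂ) (Fin m → ℂ) (Fin (2 * m)) :=
      { v := v
        ω := ω
        l := l
        c := c
        p := p
        h := fun x => gs (-B) (-κ) x * f x
        hp := hp
        per := hper
        hh := (differentiable_gs _ _).mul hf
        pv := hpv
        h0 := fun h => (mul_ne_zero (gs_ne_zero _ _ x₀) hx₀) (congrFun h x₀)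
        Z := hZ
        sim := hs'
        fd := thetaSp_finiteDimensional ω l c }
    exact hasRep_of_dat D
  have hne : ∀ {f : (Fin n → ℂ) → ℂ}, f ≠ 0 → (fun x => gs (-B) (-κ) x * f x) ≠ 0 := by
    intro f hf0 h0
    obtain ⟨x₀, hx₀⟩ : ∃ x, f x ≠ 0 := Function.ne_iff.1 hf0
    exact (mul_ne_zero (gs_ne_zero _ _ x₀) hx₀) (congrFun h0 x₀)
  have hbound := two_pow_le_of_rep ω hHM hND (hne hh0) (hne hb0) (hrep hh hh0 hsp)
    (hrep hb hb0 hbp) (rankLE_PK_gauss hs (-B) (-κ) (-κ))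
  rw [Module.finrank_fin_fun] at hbound
  exact ⟨m, _, _, ω, _, hbound, ω.linearIndependent, thetaExp_of_sim hh hh0 hp hpv hsp hper hZ hND,
    thetaExp_of_sim hb hb0 hp hpv hbp hper hZ hND⟩

end Pool.Agent.Lib.MP_db21fa_an.TF
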