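import Pool.Agent.Lib.MP_db21fa_an.TP.Defs

/-!
Project THETA, part 2: operations on representations.
-/

set_option autoImplicit false

open Filter Topology Metric NormedSpace

namespace Pool.Agent.Lib.MP_db21fa_an.TF

variable {E G ι : Type} [NormedAddCommGroup E] [NormedSpace ℂ E] [NormedAddCommGroup G]
  [NormedSpace ℂ G] [FiniteDimensional ℂ G] {v : E →L[ℂ] G} {ω : ι → G}
  {l : ι → G →L[ℂ] ℂ} {A : Type} [NormedCommRing A] [NormedAlgebra ℂ A] [FiniteDimensional ℂ A]

theorem Rep.q_add (ρ : Rep v ω l A) (w : G) (X Y : A) (x : E) :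
    ρ.q w (X + Y) x = ρ.q w X x + ρ.q w Y x := by
  simp [Rep.q, mul_add]

theorem Rep.q_smul (ρ : Rep v ω l A) (w : G) (c : ℂ) (X : A) (x : E) :
    ρ.q w (c • X) x = c * ρ.q w X x := by
  simp [Rep.q]

theorem Rep.q_shift (ρ : Rep v ω l A) (w : G) (X : A) (a x : E) :
    ρ.q (w + v a) (ρ.R a * X) x = ρ.q w X (x + a) := by
  simp only [Rep.q, ρ.R_add, map_add, mul_assoc]
  congr 1
  congr 1
  abel

theorem Rep.q_per (ρ : Rep v ω l A) (w : G) (X : A) (i : ι) (x : E) :
    ρ.q (w + ω i) X x = Complex.exp (l i w) * Complex.exp (l i (v x)) * ρ.q w (ρ.g i * X) x := by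
  have h : v x + (w + ω i) = (v x + w) + ω i := by abel
  simp only [Rep.q, h, ρ.per, map_add, Complex.exp_add]
  have h2 : ρ.g i * (ρ.R x * X) = ρ.R x * (ρ.g i * X) := by ring
  rw [h2]
  ring

/-- the evaluation in coordinates -/
theorem Rep.ev_coord (ρ : Rep v ω l A) (w : G) (X : A) : ρ.ev w X =
    ∑ j, (Module.finBasis ℂ A).equivFunL X j * ρ.ev w (Module.finBasis ℂ A j) := by
  conv_lhs => rw [← (Module.finBasis ℂ A).sum_equivFun X]
  rw [map_sum]
  refine Finset.sum_congr rfl fun j _ => ?_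
  rw [map_smul, smul_eq_mul]
  rfl

/-- analyticity of evaluations -/
theorem Rep.differentiable_ev (ρ : Rep v ω l A) {V : Type*} [NormedAddCommGroup V]
    [NormedSpace ℂ V] {f : V → G} {g : V → A} (hf : Differentiable ℂ f) (hg : Differentiable ℂ g) :
    Differentiable ℂ fun z => ρ.ev (f z) (g z) := by
  have h1 : (fun z => ρ.ev (f z) (g z)) = fun z =>
      ∑ j, (Module.finBasis ℂ A).equivFunL (g z) j * ρ.ev (f z) (Module.finBasis ℂ A j) := by
    funext z
    exact ρ.ev_coord _ _
  rw [h1]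
  refine Differentiable.fun_sum fun j _ => Differentiable.mul ?_ ((ρ.ev_diff _).comp hf)
  exact ((ContinuousLinearMap.proj (R := ℂ) (φ := fun _ : Fin (Module.finrank ℂ A) => ℂ) j).comp
      ((Module.finBasis ℂ A).equivFunL :
        A →L[ℂ] (Fin (Module.finrank ℂ A) → ℂ))).differentiable.comp hg

/-- joint continuity and analyticity -/
theorem Rep.continuous_q (ρ : Rep v ω l A) (x : E) :
    Continuous fun p : G × A => ρ.q p.1 p.2 x := by
  have h1 : Differentiable ℂ fun p : G × A => ρ.q p.1 p.2 x :=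
    ρ.differentiable_ev (f := fun p : G × A => v x + p.1) (g := fun p : G × A => ρ.R x * p.2)
      ((differentiable_fst).const_add _) (differentiable_snd.const_mul _)
  exact h1.continuous

omit [FiniteDimensional ℂ G] in
theorem differentiable_exp_line (ξ X : A) : Differentiable ℂ fun t : ℂ => exp (t • ξ) * X := by
  have hQ : NormedAlgebra ℚ A := NormedAlgebra.restrictScalars ℚ ℂ A
  have hcs : CompleteSpace A := FiniteDimensional.complete ℂ A
  have h3 : Differentiable ℂ (exp : A → A) := fun x => (hasFDerivAt_exp (𝕂 := ℂ)).differentiableAt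
  exact (h3.comp (differentiable_id.smul_const ξ)).mul_const X

theorem Rep.differentiable_line (ρ : Rep v ω l A) (w w₁ : G) (X ξ : A) (x : E) :
    Differentiable ℂ fun t : ℂ => ρ.q (w + t • w₁) (exp (t • ξ) * X) x := by
  refine ρ.differentiable_ev (f := fun t : ℂ => v x + (w + t • w₁))
    (g := fun t : ℂ => ρ.R x * (exp (t • ξ) * X)) ?_ ((differentiable_exp_line ξ X).const_mul _)
  exact ((differentiable_id.smul_const w₁).const_add w).const_add _

theorem Rep.differentiable_q (ρ : Rep v ω l A) (w : G) (X : A) : Differentiable ℂ (ρ.q w X) :=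
  ρ.differentiable_ev (f := fun x => v x + w) (g := fun x => ρ.R x * X)
    (v.differentiable.add_const w) (ρ.R_diff.mul_const X)

/-- gauge transformation -/
theorem Rep.exists_gauge (ρ : Rep v ω l A) (ξ : G →L[ℂ] A) :
    ∃ ρ' : Rep v ω l A, (∀ x, ρ'.R x = exp (-(ξ (v x))) * ρ.R x) ∧
      (∀ i, ρ'.g i = exp (ξ (ω i)) * ρ.g i) ∧ (∀ w X, ρ'.ev w X = ρ.ev w (exp (ξ w) * X)) ∧
      ∀ w X x, ρ'.q w X x = ρ.q w (exp (ξ w) * X) x := by
  have hQ : NormedAlgebra ℚ A := NormedAlgebra.restrictScalars ℚ ℂ A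
  have hcs : CompleteSpace A := FiniteDimensional.complete ℂ A
  have h3 : Differentiable ℂ (exp : A → A) := fun x => (hasFDerivAt_exp (𝕂 := ℂ)).differentiableAt
  let ρ' : Rep v ω l A :=
    { R := fun x => exp (-(ξ (v x))) * ρ.R x
      R_zero := by simp [ρ.R_zero]
      R_add := fun x y => by
        have e1 : exp (-(ξ (v (x + y)))) = exp (-(ξ (v x))) * exp (-(ξ (v y))) := by
          rw [← exp_add]
          congr 1
          rw [map_add, map_add]
          abel
        rw [e1, ρ.R_add]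
        ring
      R_diff := (h3.comp (ξ.differentiable.comp v.differentiable).neg).mul ρ.R_diff
      g := fun i => exp (ξ (ω i)) * ρ.g i
      g_unit := fun i => (isUnit_exp _).mul (ρ.g_unit i)
      ev := fun w => (ρ.ev w).comp (ContinuousLinearMap.mul ℂ A (exp (ξ w)))
      ev_diff := fun X => ρ.differentiable_ev (f := fun w => w) (g := fun w => exp (ξ w) * X)
        differentiable_id ((h3.comp ξ.differentiable).mul_const X)
      per := fun i w X => by
        show ρ.ev (w + ω i) (exp (ξ (w + ω i)) * X) =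
          Complex.exp (l i w) * ρ.ev w (exp (ξ w) * (exp (ξ (ω i)) * ρ.g i * X))
        rw [ρ.per, map_add, exp_add]
        congr 2
        ring }
  refine ⟨ρ', fun x => rfl, fun i => rfl, fun w X => rfl, fun w X x => ?_⟩
  show ρ.ev (v x + w) (exp (ξ (v x + w)) * (exp (-(ξ (v x))) * ρ.R x * X)) =
    ρ.ev (v x + w) (ρ.R x * (exp (ξ w) * X))
  congr 1
  rw [map_add, exp_add]
  have e1 : exp (ξ (v x)) * exp (-(ξ (v x))) = 1 := by
    rw [← exp_add, add_neg_cancel, exp_zero]
  calc exp (ξ (v x)) * exp (ξ w) * (exp (-(ξ (v x))) * ρ.R x * X)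
      = (exp (ξ (v x)) * exp (-(ξ (v x)))) * (ρ.R x * (exp (ξ w) * X)) := by ring
    _ = _ := by rw [e1, one_mul]

end Pool.Agent.Lib.MP_db21fa_an.TF
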