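import Pool.Agent.Lib.MP_db21fa_an.TP.ZMain
import Pool.Agent.Lib.MP_db21fa_an.TP.RepOps

/-!
Project THETA, part 2: flat families of zeros.
-/

set_option autoImplicit false

open Filter Topology Metric NormedSpace

namespace Pool.Agent.Lib.MP_db21fa_an.TF

private theorem entire_zero_of_real {F : ℂ → ℂ} (hF : Differentiable ℂ F)
    (h : ∀ t : ℝ, F t = 0) (t : ℂ) : F t = 0 := by
  have hA : AnalyticOnNhd ℂ F Set.univ := fun z _ => hF.analyticAt z
  have h0 : Tendsto (fun n : ℕ => ((1 / ((n : ℝ) + 1) : ℝ) : ℂ)) atTop (𝓝[≠] 0) := by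
    refine tendsto_nhdsWithin_of_tendsto_nhds_of_eventually_within _ ?_
      (Eventually.of_forall fun n => ?_)
    · have := (Complex.continuous_ofReal.tendsto 0).comp
        (tendsto_one_div_add_atTop_nhds_zero_nat (𝕜 := ℝ))
      rw [Complex.ofReal_zero] at this
      exact this
    · have : (0 : ℝ) < 1 / ((n : ℝ) + 1) := by positivity
      simpa using (Complex.ofReal_ne_zero.2 this.ne')
  have h1 : ∃ᶠ z in 𝓝[≠] (0 : ℂ), F z = 0 :=
    h0.frequently (Frequently.of_forall fun n => h _)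
  exact hA.eqOn_zero_of_preconnected_of_frequently_eq_zero isPreconnected_univ
    (Set.mem_univ 0) h1 (Set.mem_univ t)

variable {E G ι : Type} [NormedAddCommGroup E] [NormedSpace ℂ E] [NormedAddCommGroup G]
  [NormedSpace ℂ G] [FiniteDimensional ℂ G] [Fintype ι] {v : E →L[ℂ] G}
  {l : ι → G →L[ℂ] ℂ} {A : Type} [NormedCommRing A] [NormedAlgebra ℂ A] [FiniteDimensional ℂ A]

omit [Fintype ι] in
/-- the zero set over a quotient -/
private theorem zset_aux {ω : ι → G} (ρ : Rep v ω l A) {A₀ : Type} [NormedCommRing A₀]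
    [NormedAlgebra ℂ A₀] [FiniteDimensional ℂ A₀] (π : A →ₐ[ℂ] A₀) (hπ : Function.Surjective π)
    (J : A₀ →ₗ[ℂ] A) (hJ : Function.Injective J) (hJm : ∀ a Y, J (π a * Y) = a * J Y)
    (w₁ : G) (h1 : J 1 ≠ 0) (h2 : ρ.q w₁ (J 1) = 0)
    (hmin : ∀ w X, X ≠ 0 → ρ.q w X = 0 →
      Module.finrank ℂ (LinearMap.range (LinearMap.mulLeft ℂ (J 1))) ≤
        Module.finrank ℂ (LinearMap.range (LinearMap.mulLeft ℂ X))) :
    ZSet v ω (fun x => π (ρ.R x)) (fun i => π (ρ.g i))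
      {p : G × A₀ | p.2 ≠ 0 ∧ ρ.q p.1 (J p.2) = 0} := by
  have hcs : CompleteSpace A := FiniteDimensional.complete ℂ A
  have hcs0 : CompleteSpace A₀ := FiniteDimensional.complete ℂ A₀
  have hQ : NormedAlgebra ℚ A := NormedAlgebra.restrictScalars ℚ ℂ A
  have hQ0 : NormedAlgebra ℚ A₀ := NormedAlgebra.restrictScalars ℚ ℂ A₀
  have hJc : Continuous J := J.continuous_of_finiteDimensional
  have hπc : Continuous π := π.toLinearMap.continuous_of_finiteDimensional
  have hJ0 : ∀ Y, Y ≠ 0 → J Y ≠ 0 := fun Y hY h => hY (hJ (by rw [h, map_zero]))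
  have hRinv : ∀ a, ρ.R (-a) * ρ.R a = 1 := fun a => by
    rw [← ρ.R_add, neg_add_cancel, ρ.R_zero]
  have hRu : ∀ a, IsUnit (ρ.R a) := fun a =>
    IsUnit.of_mul_eq_one (ρ.R (-a)) (by rw [mul_comm]; exact hRinv a)
  refine
    { nonempty := ⟨(w₁, 1), ?_, h2⟩
      unit := ?_
      ne := fun w X h => h.1
      closed := ?_
      line := ?_
      smul := ?_
      tr := ?_
      per := ?_ }
  · intro h
    apply h1
    have : (1 : A₀) = 0 := h
    rw [this, map_zero]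
  · rintro w Y ⟨hY0, hY⟩
    change Y ≠ 0 at hY0
    change ρ.q w (J Y) = 0 at hY
    obtain ⟨a, rfl⟩ := hπ Y
    have e1 : J (π a) = a * J 1 := by rw [← hJm, mul_one]
    have h3 := hmin w (J (π a)) (hJ0 _ hY0) hY
    have h4 : LinearMap.range (LinearMap.mulLeft ℂ (J (π a))) ≤
        LinearMap.range (LinearMap.mulLeft ℂ (J 1)) := by
      rintro _ ⟨b, rfl⟩
      refine ⟨a * b, ?_⟩
      simp only [LinearMap.mulLeft_apply]
      rw [e1]
      ring
    have h5 := Submodule.eq_of_le_of_finrank_le h4 h3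
    have h6 : J 1 ∈ LinearMap.range (LinearMap.mulLeft ℂ (J (π a))) := by
      rw [h5]
      exact ⟨1, by simp⟩
    obtain ⟨b, hb⟩ := h6
    simp only [LinearMap.mulLeft_apply] at hb
    refine IsUnit.of_mul_eq_one (π b) (hJ ?_)
    rw [← hb, mul_comm, hJm]
    ring
  · rintro s w Y hs hlim hY
    refine ⟨hY, ?_⟩
    funext x
    have h3 : Tendsto (fun j => ρ.q (s j).1 (J (s j).2) x) atTop (𝓝 (ρ.q w (J Y) x)) := by
      have h4 : Continuous fun p : G × A₀ => ρ.q p.1 (J p.2) x :=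
        (ρ.continuous_q x).comp (continuous_fst.prodMk (hJc.comp continuous_snd))
      exact (h4.tendsto (w, Y)).comp hlim
    have h5 : (fun j => ρ.q (s j).1 (J (s j).2) x) = fun _ => (0 : ℂ) := by
      funext j
      have := (hs j).2
      rw [this]
      rfl
    rw [h5] at h3
    exact (tendsto_nhds_unique h3 tendsto_const_nhds)
  · intro w w' X ξ h t
    obtain ⟨a, rfl⟩ := hπ X
    obtain ⟨η, rfl⟩ := hπ ξ
    have e1 : ∀ t : ℂ, exp (t • π η) * π a = π (exp (t • η) * a) := by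
      intro t
      rw [map_mul, map_exp π hπc, map_smul]
    have e2 : ∀ t : ℂ, J (exp (t • π η) * π a) = exp (t • η) * (a * J 1) := by
      intro t
      rw [e1, ← mul_one (π _), hJm, mul_assoc]
    have h00 := h 0
    have ha0 : π a ≠ 0 := by
      intro h0
      apply h00.1
      show exp (((0 : ℝ) : ℂ) • π η) * π a = 0
      rw [h0, mul_zero]
    refine ⟨?_, ?_⟩
    · show exp (t • π η) * π a ≠ 0
      intro h0
      exact ha0 (((isUnit_exp (t • π η)).mul_right_eq_zero).1 h0)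
    · show ρ.q (w + t • w') (J (exp (t • π η) * π a)) = 0
      rw [e2]
      funext x
      refine entire_zero_of_real (ρ.differentiable_line w w' (a * J 1) η x) (fun r => ?_) t
      have h3 := (h r).2
      change ρ.q (w + (r : ℂ) • w') (J (exp ((r : ℂ) • π η) * π a)) = 0 at h3
      rw [e2] at h3
      rw [h3]
      rfl
  · rintro w Y c hc ⟨hY0, hY⟩
    refine ⟨smul_ne_zero hc hY0, ?_⟩
    show ρ.q w (J (c • Y)) = 0
    funext x
    change ρ.q w (J Y) = 0 at hY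
    rw [map_smul, ρ.q_smul, hY]
    simp
  · rintro w Y a ⟨hY0, hY⟩
    change Y ≠ 0 at hY0
    change ρ.q w (J Y) = 0 at hY
    refine ⟨?_, ?_⟩
    · show π (ρ.R a) * Y ≠ 0
      intro h0
      exact hY0 ((((hRu a).map π).mul_right_eq_zero).1 h0)
    · show ρ.q (w + v a) (J (π (ρ.R a) * Y)) = 0
      funext x
      rw [hJm, ρ.q_shift, hY]
      rfl
  · intro w Y i
    show (Y ≠ 0 ∧ ρ.q (w + ω i) (J Y) = 0) ↔
      (π (ρ.g i) * Y ≠ 0 ∧ ρ.q w (J (π (ρ.g i) * Y)) = 0)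
    have hu : IsUnit (π (ρ.g i)) := (ρ.g_unit i).map π
    refine and_congr (not_congr (hu.mul_right_eq_zero).symm) ?_
    rw [hJm]
    constructor
    · intro h
      funext x
      have h3 : ρ.q (w + ω i) (J Y) x = 0 := by rw [h]; rfl
      rw [ρ.q_per, mul_eq_zero, mul_eq_zero] at h3
      rcases h3 with (h3 | h3) | h3
      · exact absurd h3 (Complex.exp_ne_zero _)
      · exact absurd h3 (Complex.exp_ne_zero _)
      · exact h3
    · intro h
      funext x
      rw [ρ.q_per, h]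
      simp

/-- if some `q w X` with `X ≠ 0` vanishes, there is a flat family of them -/
theorem Rep.exists_flat_zero (ω : Module.Basis ι ℝ G) (hm : HMin v ω) (ρ : Rep v ω l A) {w₀ : G}
    {X₀ : A} (hX₀ : X₀ ≠ 0) (h0 : ρ.q w₀ X₀ = 0) :
    ∃ (w₁ : G) (X₁ : A) (ξ : G →L[ℂ] A), X₁ ≠ 0 ∧
      ∀ w, ρ.q (w₁ + w) (exp (ξ w) * X₁) = 0 := by
  classical
  have hcs : CompleteSpace A := FiniteDimensional.complete ℂ A
  have hQ : NormedAlgebra ℚ A := NormedAlgebra.restrictScalars ℚ ℂ A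
  -- an element of minimal dimension
  have hex : ∃ n : ℕ, ∃ (w : G) (X : A), X ≠ 0 ∧ ρ.q w X = 0 ∧
      Module.finrank ℂ (LinearMap.range (LinearMap.mulLeft ℂ X)) = n :=
    ⟨_, w₀, X₀, hX₀, h0, rfl⟩
  obtain ⟨w₁, X₁, hX₁, hq₁, hn⟩ := Nat.find_spec hex
  have hmin : ∀ w X, X ≠ 0 → ρ.q w X = 0 →
      Module.finrank ℂ (LinearMap.range (LinearMap.mulLeft ℂ X₁)) ≤
        Module.finrank ℂ (LinearMap.range (LinearMap.mulLeft ℂ X)) := by
    intro w X hX hq
    rw [hn]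
    exact Nat.find_min' hex ⟨w, X, hX, hq, rfl⟩
  -- the quotient
  let I : Ideal A := LinearMap.ker (LinearMap.toSpanSingleton A A X₁)
  have hmem : ∀ Y, Y ∈ I ↔ Y * X₁ = 0 := fun Y => Iff.rfl
  have hcl : IsClosed (I : Set A) :=
    Submodule.closed_of_finiteDimensional (Submodule.restrictScalars ℂ I)
  have hs : Function.Surjective (Ideal.Quotient.mkₐ ℂ I) := Ideal.Quotient.mkₐ_surjective ℂ I
  have hfd : FiniteDimensional ℂ (A ⧸ I) :=
    Module.Finite.of_surjective (Ideal.Quotient.mkₐ ℂ I).toLinearMap hs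
  let π : A →ₐ[ℂ] (A ⧸ I) := Ideal.Quotient.mkₐ ℂ I
  obtain ⟨σ, hσ⟩ := π.toLinearMap.exists_rightInverse_of_surjective
    (LinearMap.range_eq_top.2 hs)
  have hσ' : ∀ Y, π (σ Y) = Y := fun Y => LinearMap.congr_fun hσ Y
  have hker : ∀ a b : A, π a = π b → a * X₁ = b * X₁ := by
    intro a b hab
    have h1 : a - b ∈ I := by
      rw [← Ideal.Quotient.eq_zero_iff_mem]
      have : π (a - b) = 0 := by rw [map_sub, hab, sub_self]
      exact this
    have h2 := (hmem _).1 h1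
    rw [sub_mul] at h2
    exact sub_eq_zero.1 h2
  let J : (A ⧸ I) →ₗ[ℂ] A := (LinearMap.mulRight ℂ X₁).comp σ
  have hJa : ∀ a, J (π a) = a * X₁ := by
    intro a
    show σ (π a) * X₁ = a * X₁
    exact hker _ _ (hσ' _)
  have hJm : ∀ a Y, J (π a * Y) = a * J Y := by
    intro a Y
    obtain ⟨b, rfl⟩ := hs Y
    show J (π a * π b) = a * J (π b)
    rw [← map_mul, hJa, hJa, mul_assoc]
  have hJ1 : J 1 = X₁ := by
    rw [← map_one π, hJa, one_mul]
  have hJinj : Function.Injective J := by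
    intro Y Y' h
    obtain ⟨b, rfl⟩ := hs Y
    obtain ⟨b', rfl⟩ := hs Y'
    change J (π b) = J (π b') at h
    rw [hJa, hJa] at h
    have h1 : b - b' ∈ I := by
      rw [hmem, sub_mul, h, sub_self]
    exact Ideal.Quotient.eq.2 h1
  have hZ := zset_aux ρ π hs J hJinj hJm w₁ (by rw [hJ1]; exact hX₁) (by rw [hJ1]; exact hq₁)
    (by rw [hJ1]; exact hmin)
  have hπc : Continuous π := π.toLinearMap.continuous_of_finiteDimensional
  let πL : A →L[ℂ] (A ⧸ I) := ⟨π.toLinearMap, hπc⟩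
  obtain ⟨ξ₀, hξ₀, -, -⟩ := hZ.main ω hm (by show π (ρ.R 0) = 1; rw [ρ.R_zero, map_one])
    (fun x y => by show π (ρ.R (x + y)) = π (ρ.R x) * π (ρ.R y); rw [ρ.R_add, map_mul])
    (πL.differentiable.comp ρ.R_diff) (fun i => (ρ.g_unit i).map π)
  have hQ0 : NormedAlgebra ℚ (A ⧸ I) := NormedAlgebra.restrictScalars ℚ ℂ (A ⧸ I)
  let ξ : G →L[ℂ] A := LinearMap.toContinuousLinearMap (σ.comp ξ₀.toLinearMap)
  have hξ : ∀ w, π (ξ w) = ξ₀ w := fun w => hσ' _
  refine ⟨w₁, X₁, ξ, hX₁, fun w => ?_⟩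
  have h1 : ((w₁, 1) : G × (A ⧸ I)) ∈ {p : G × (A ⧸ I) | p.2 ≠ 0 ∧ ρ.q p.1 (J p.2) = 0} := by
    refine ⟨?_, ?_⟩
    · intro h
      have h' : (1 : A ⧸ I) = 0 := h
      apply hX₁
      rw [← hJ1, h', map_zero]
    · show ρ.q w₁ (J 1) = 0
      rw [hJ1]
      exact hq₁
  have h2 := (hξ₀ w₁ 1 h1 w).2
  change ρ.q (w₁ + w) (J (exp (ξ₀ w) * 1)) = 0 at h2
  have h3 : J (exp (ξ₀ w) * 1) = exp (ξ w) * X₁ := by
    rw [← hξ, ← map_exp π hπc, hJm, hJ1]
  rw [h3] at h2
  exact h2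

end Pool.Agent.Lib.MP_db21fa_an.TF
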