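import Pool.Agent.Lib.MP_db21fa_an.TP.RepOps

/-!
Project THETA, part 2: quotients of representations.
-/

set_option autoImplicit false

open Filter Topology Metric NormedSpace

namespace Pool.Agent.Lib.MP_db21fa_an.TF

variable {E G ι : Type} [NormedAddCommGroup E] [NormedSpace ℂ E] [NormedAddCommGroup G]
  [NormedSpace ℂ G] [FiniteDimensional ℂ G] {v : E →L[ℂ] G} {ω : ι → G}
  {l : ι → G →L[ℂ] ℂ} {A : Type} [NormedCommRing A] [NormedAlgebra ℂ A] [FiniteDimensional ℂ A]

/-- a linear section of a quotient -/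
theorem exists_section_quot (I : Ideal A) : ∃ σ : (A ⧸ I) →ₗ[ℂ] A,
    ∀ Y, Ideal.Quotient.mk I (σ Y) = Y := by
  have hs : Function.Surjective (Ideal.Quotient.mkₐ ℂ I).toLinearMap :=
    Ideal.Quotient.mkₐ_surjective ℂ I
  obtain ⟨σ, hσ⟩ := (Ideal.Quotient.mkₐ ℂ I).toLinearMap.exists_rightInverse_of_surjective
    (LinearMap.range_eq_top.2 hs)
  exact ⟨σ, fun Y => LinearMap.congr_fun hσ Y⟩

/-- quotient by an ideal killed by all evaluations -/
theorem Rep.hasRep_quot (ρ : Rep v ω l A) (I : Ideal A) (hI : ∀ w, ∀ X ∈ I, ρ.ev w X = 0) :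
    HasRep v ω l (ρ.q 0 1) (Module.finrank ℂ (A ⧸ I)) := by
  have hcl : IsClosed (I : Set A) :=
    Submodule.closed_of_finiteDimensional (Submodule.restrictScalars ℂ I)
  have hfd : FiniteDimensional ℂ (A ⧸ I) := by
    have hs : Function.Surjective (Ideal.Quotient.mkₐ ℂ I).toLinearMap :=
      Ideal.Quotient.mkₐ_surjective ℂ I
    exact Module.Finite.of_surjective _ hs
  obtain ⟨σ, hσ⟩ := exists_section_quot I
  have hev : ∀ w X, ρ.ev w (σ (Ideal.Quotient.mk I X)) = ρ.ev w X := by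
    intro w X
    have h1 : σ (Ideal.Quotient.mk I X) - X ∈ I := by
      rw [← Ideal.Quotient.eq_zero_iff_mem, map_sub, hσ, sub_self]
    have h2 := hI w _ h1
    rw [map_sub] at h2
    exact sub_eq_zero.1 h2
  have hπ : Continuous (Ideal.Quotient.mkₐ ℂ I).toLinearMap :=
    LinearMap.continuous_of_finiteDimensional _
  let π : A →L[ℂ] (A ⧸ I) := ⟨(Ideal.Quotient.mkₐ ℂ I).toLinearMap, hπ⟩
  let ρ' : Rep v ω l (A ⧸ I) :=
    { R := fun x => Ideal.Quotient.mk I (ρ.R x)
      R_zero := by rw [ρ.R_zero, map_one]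
      R_add := fun x y => by rw [ρ.R_add, map_mul]
      R_diff := π.differentiable.comp ρ.R_diff
      g := fun i => Ideal.Quotient.mk I (ρ.g i)
      g_unit := fun i => (ρ.g_unit i).map (Ideal.Quotient.mk I)
      ev := fun w => (ρ.ev w).comp (LinearMap.toContinuousLinearMap σ)
      ev_diff := fun Y => ρ.ev_diff (σ Y)
      per := fun i w Y => by
        show ρ.ev (w + ω i) (σ Y) = Complex.exp (l i w) * ρ.ev w (σ (Ideal.Quotient.mk I (ρ.g i) * Y))
        have h1 : Ideal.Quotient.mk I (ρ.g i) * Y = Ideal.Quotient.mk I (ρ.g i * σ Y) := by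
          rw [map_mul, hσ]
        rw [h1, hev, ρ.per] }
  refine ⟨A ⧸ I, inferInstance, inferInstance, hfd, ρ', rfl, ?_⟩
  funext x
  show ρ.ev (v x + 0) (ρ.R x * 1) = ρ.ev (v x + 0) (σ (Ideal.Quotient.mk I (ρ.R x) * 1))
  rw [mul_one, mul_one, hev]

theorem finrank_quot (I : Ideal A) : Module.finrank ℂ (A ⧸ I) ≤ Module.finrank ℂ A ∧
    (I ≠ ⊥ → Module.finrank ℂ (A ⧸ I) < Module.finrank ℂ A) := by
  have h1 := Submodule.finrank_quotient_add_finrank (Submodule.restrictScalars ℂ I)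
  have h2 := (Submodule.Quotient.restrictScalarsEquiv ℂ I).finrank_eq
  rw [h2] at h1
  refine ⟨by omega, fun hne => ?_⟩
  have h3 : 0 < Module.finrank ℂ (Submodule.restrictScalars ℂ I) := by
    rw [Module.finrank_pos_iff]
    obtain ⟨x, hx, hx0⟩ := Submodule.exists_mem_ne_zero_of_ne_bot hne
    exact ⟨⟨⟨x, hx⟩, 0, fun h => hx0 (congrArg Subtype.val h)⟩⟩
  omega

/-- in a finite dimensional algebra an element with trivial annihilator is a unit -/
theorem isUnit_of_ann {X : A} (h : ∀ Y, Y * X = 0 → Y = 0) : IsUnit X := by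
  let f : A →ₗ[ℂ] A := LinearMap.mulRight ℂ X
  have hf : Function.Injective f := by
    rw [← LinearMap.ker_eq_bot, LinearMap.ker_eq_bot']
    exact fun Y hY => h Y hY
  obtain ⟨Y, hY⟩ := (LinearMap.injective_iff_surjective.1 hf) 1
  exact IsUnit.of_mul_eq_one Y (by rw [mul_comm]; exact hY)

/-- `q w X` has a representation; it is smaller if `X` is not a unit -/
theorem Rep.hasRep_q (ρ : Rep v ω l A) (w : G) (X : A) :
    ∃ k ≤ Module.finrank ℂ A, HasRep v ω l (ρ.q w X) k ∧
      (¬ IsUnit X → k < Module.finrank ℂ A) := by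
  let ρ' : Rep v ω l A :=
    { R := ρ.R
      R_zero := ρ.R_zero
      R_add := ρ.R_add
      R_diff := ρ.R_diff
      g := fun i => Complex.exp (l i w) • ρ.g i
      g_unit := fun i => by
        have h1 : Complex.exp (l i w) • ρ.g i = algebraMap ℂ A (Complex.exp (l i w)) * ρ.g i :=
          Algebra.smul_def _ _
        rw [h1]
        exact ((Complex.exp_ne_zero _).isUnit.map (algebraMap ℂ A)).mul (ρ.g_unit i)
      ev := fun u => (ρ.ev (u + w)).comp (ContinuousLinearMap.mul ℂ A X)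
      ev_diff := fun Y => (ρ.ev_diff (X * Y)).comp (differentiable_id.add_const w)
      per := fun i u Y => by
        show ρ.ev (u + ω i + w) (X * Y) =
          Complex.exp (l i u) * ρ.ev (u + w) (X * (Complex.exp (l i w) • ρ.g i * Y))
        have e1 : u + ω i + w = (u + w) + ω i := by abel
        have e2 : X * (Complex.exp (l i w) • ρ.g i * Y) =
            Complex.exp (l i w) • (ρ.g i * (X * Y)) := by
          rw [smul_mul_assoc, mul_smul_comm]
          congr 1
          ring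
        rw [e1, ρ.per, e2, map_smul, smul_eq_mul, map_add, Complex.exp_add]
        ring }
  have hq : ρ'.q 0 1 = ρ.q w X := by
    funext x
    show ρ.ev (v x + 0 + w) (X * (ρ.R x * 1)) = ρ.ev (v x + w) (ρ.R x * X)
    rw [add_zero, mul_one, mul_comm]
  let I : Ideal A := LinearMap.ker (LinearMap.toSpanSingleton A A X)
  have hmem : ∀ Y, Y ∈ I ↔ Y * X = 0 := fun Y => Iff.rfl
  have hI : ∀ u, ∀ Y ∈ I, ρ'.ev u Y = 0 := by
    intro u Y hY
    show ρ.ev (u + w) (X * Y) = 0
    rw [mul_comm, (hmem Y).1 hY, map_zero]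
  refine ⟨_, (finrank_quot I).1, hq ▸ ρ'.hasRep_quot I hI, fun hX => (finrank_quot I).2 ?_⟩
  intro hbot
  apply hX
  refine isUnit_of_ann fun Y hY => ?_
  have h1 : Y ∈ I := (hmem Y).2 hY
  rw [hbot] at h1
  exact (Submodule.mem_bot A).1 h1

end Pool.Agent.Lib.MP_db21fa_an.TF
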