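import Pool.Agent.Lib.MP_db21fa_an.TP.RepOps

/-!
Project THETA, part 2: restriction of representations to subalgebras.
-/

set_option autoImplicit false

open Filter Topology Metric NormedSpace

namespace Pool.Agent.Lib.MP_db21fa_an.TF

variable {E G ι : Type} [NormedAddCommGroup E] [NormedSpace ℂ E] [NormedAddCommGroup G]
  [NormedSpace ℂ G] [FiniteDimensional ℂ G] {v : E →L[ℂ] G} {ω : ι → G}
  {l : ι → G →L[ℂ] ℂ} {A : Type} [NormedCommRing A] [NormedAlgebra ℂ A] [FiniteDimensional ℂ A]

/-- a unit of `A` in `B` is a unit of `B` -/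
theorem isUnit_sub (B : Subalgebra ℂ A) (X : B) (h : IsUnit (X : A)) : IsUnit X := by
  have hfd : FiniteDimensional ℂ B := inferInstance
  let f : B →ₗ[ℂ] B := LinearMap.mulRight ℂ X
  have hf : Function.Injective f := by
    rw [← LinearMap.ker_eq_bot, LinearMap.ker_eq_bot']
    intro Y hY
    have h1 : (Y : A) * (X : A) = 0 := congrArg Subtype.val hY
    exact Subtype.ext (h.mul_left_eq_zero.1 h1)
  obtain ⟨Y, hY⟩ := (LinearMap.injective_iff_surjective.1 hf) 1
  exact IsUnit.of_mul_eq_one Y (by rw [mul_comm]; exact hY)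

/-- restriction to a subalgebra -/
theorem Rep.hasRep_sub (ρ : Rep v ω l A) (B : Subalgebra ℂ A) (hR : ∀ x, ρ.R x ∈ B)
    (hg : ∀ i, ρ.g i ∈ B) : HasRep v ω l (ρ.q 0 1) (Module.finrank ℂ B) := by
  have hfd : FiniteDimensional ℂ B := inferInstance
  -- a linear retraction
  obtain ⟨r, hr⟩ := (Subalgebra.toSubmodule B).subtype.exists_leftInverse_of_injective
    (Submodule.ker_subtype _)
  let r' : A →ₗ[ℂ] B := r
  have hr' : ∀ Y : B, r' (Y : A) = Y := fun Y => LinearMap.congr_fun hr Y
  let R' : E → B := fun x => ⟨ρ.R x, hR x⟩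
  have hRd : Differentiable ℂ R' := by
    have h1 : R' = fun x => (LinearMap.toContinuousLinearMap r') (ρ.R x) := by
      funext x
      exact (hr' (R' x)).symm
    rw [h1]
    exact (LinearMap.toContinuousLinearMap r').differentiable.comp ρ.R_diff
  let ρ' : Rep v ω l B :=
    { R := R'
      R_zero := Subtype.ext ρ.R_zero
      R_add := fun x y => Subtype.ext (ρ.R_add x y)
      R_diff := hRd
      g := fun i => ⟨ρ.g i, hg i⟩
      g_unit := fun i => isUnit_sub B _ (ρ.g_unit i)
      ev := fun w => (ρ.ev w).comp (LinearMap.toContinuousLinearMap (Subalgebra.toSubmodule B).subtype)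
      ev_diff := fun X => ρ.ev_diff (X : A)
      per := fun i w X => ρ.per i w (X : A) }
  exact ⟨B, inferInstance, inferInstance, hfd, ρ', rfl, rfl⟩

end Pool.Agent.Lib.MP_db21fa_an.TF
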