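import Pool.Agent.Lib.MP_db21fa_an.TP.FlatZero
import Pool.Agent.Lib.MP_db21fa_an.TP.RepQuot
import Pool.Agent.Lib.MP_db21fa_an.TP.RepSub

/-!
Project THETA, part 2: minimal representations are injective.
-/

set_option autoImplicit false

open Filter Topology Metric NormedSpace

namespace Pool.Agent.Lib.MP_db21fa_an.TF

variable {E G ι : Type} [NormedAddCommGroup E] [NormedSpace ℂ E] [NormedAddCommGroup G]
  [NormedSpace ℂ G] [FiniteDimensional ℂ G] [Fintype ι] {v : E →L[ℂ] G}
  {l : ι → G →L[ℂ] ℂ} {A : Type} [NormedCommRing A] [NormedAlgebra ℂ A] [FiniteDimensional ℂ A]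

/-- the elements of `A` which give the zero function for every `w` -/
private def nullSub {ω : ι → G} (ρ : Rep v ω l A) : Submodule ℂ A where
  carrier := {X | ∀ w, ρ.q w X = 0}
  zero_mem' := fun w => by
    funext x
    simp [Rep.q]
  add_mem' := fun {X Y} hX hY w => by
    funext x
    rw [ρ.q_add, hX w, hY w]
    simp
  smul_mem' := fun c X hX w => by
    funext x
    rw [ρ.q_smul, hX w]
    simp

/-- the elements of `A` whose multiplication preserves a submodule -/
private def stab (I : Submodule ℂ A) : Subalgebra ℂ A where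
  carrier := {b | ∀ X ∈ I, b * X ∈ I}
  mul_mem' := fun {a b} ha hb X hX => by
    rw [mul_assoc]
    exact ha _ (hb _ hX)
  add_mem' := fun {a b} ha hb X hX => by
    rw [add_mul]
    exact I.add_mem (ha _ hX) (hb _ hX)
  algebraMap_mem' := fun c X hX => by
    rw [← Algebra.smul_def]
    exact I.smul_mem c hX

/-- **injectivity of minimal representations** -/
theorem Rep.q_ne_zero (ω : Module.Basis ι ℝ G) (hm : HMin v ω) (ρ : Rep v ω l A)
    (h1 : ρ.q 0 1 ≠ 0) (hmin : ∀ k < Module.finrank ℂ A, ¬ HasRep v ω l (ρ.q 0 1) k) (w : G) {X : A}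
    (hX : X ≠ 0) : ρ.q w X ≠ 0 := by
  intro h0
  have hQ : NormedAlgebra ℚ A := NormedAlgebra.restrictScalars ℚ ℂ A
  have hcs : CompleteSpace A := FiniteDimensional.complete ℂ A
  obtain ⟨w₁, X₁, ξ, hX₁, hflat⟩ := ρ.exists_flat_zero ω hm hX h0
  obtain ⟨ρ', hR', hg', hev', hq'⟩ := ρ.exists_gauge ξ
  have hq1 : ρ'.q 0 1 = ρ.q 0 1 := by
    funext x
    rw [hq', map_zero, exp_zero, one_mul]
  set X₂ : A := exp (-(ξ w₁)) * X₁ with hX₂
  have hX₂0 : X₂ ≠ 0 := by
    intro h
    have hu : IsUnit (exp (-(ξ w₁)) : A) := isUnit_exp _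
    exact hX₁ ((hu.mul_right_eq_zero).1 h)
  have hX₂m : X₂ ∈ nullSub ρ' := by
    intro w
    funext x
    rw [hq']
    have e1 : exp (ξ w) * X₂ = exp (ξ (w - w₁)) * X₁ := by
      rw [hX₂, ← mul_assoc, ← exp_add, map_sub, sub_eq_add_neg]
    have e2 := hflat (w - w₁)
    rw [add_sub_cancel] at e2
    rw [e1, e2]
  -- stability
  have hstR : ∀ a, ρ'.R a ∈ stab (nullSub ρ') := by
    intro a X hX w
    funext x
    have h := ρ'.q_shift (w - v a) X a x
    rw [sub_add_cancel] at h
    rw [h, hX (w - v a)]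
    rfl
  have hstg : ∀ i, ρ'.g i ∈ stab (nullSub ρ') := by
    intro i X hX w
    funext x
    have h := ρ'.q_per w X i x
    rw [hX (w + ω i)] at h
    have h3 : Complex.exp (l i w) * Complex.exp (l i (v x)) ≠ 0 :=
      mul_ne_zero (Complex.exp_ne_zero _) (Complex.exp_ne_zero _)
    exact (mul_eq_zero.1 h.symm).resolve_left h3
  set B : Subalgebra ℂ A := Algebra.adjoin ℂ (Set.range ρ'.R ∪ Set.range ρ'.g) with hB
  have hRB : ∀ x, ρ'.R x ∈ B := fun x => Algebra.subset_adjoin (Or.inl ⟨x, rfl⟩)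
  have hgB : ∀ i, ρ'.g i ∈ B := fun i => Algebra.subset_adjoin (Or.inr ⟨i, rfl⟩)
  have hBst : B ≤ stab (nullSub ρ') := by
    refine Algebra.adjoin_le ?_
    rintro _ (⟨x, rfl⟩ | ⟨i, rfl⟩)
    · exact hstR x
    · exact hstg i
  have hBtop : Subalgebra.toSubmodule B = ⊤ := by
    refine Submodule.eq_top_of_finrank_eq ?_
    refine le_antisymm (Submodule.finrank_le _) ?_
    by_contra hlt
    push Not at hlt
    have h := ρ'.hasRep_sub B hRB hgB
    rw [hq1] at h
    exact hmin _ hlt h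
  have hall : ∀ b : A, b ∈ stab (nullSub ρ') := by
    intro b
    refine hBst ?_
    have : b ∈ Subalgebra.toSubmodule B := by rw [hBtop]; trivial
    exact this
  let I : Ideal A :=
    { carrier := {X | X ∈ nullSub ρ'}
      zero_mem' := (nullSub ρ').zero_mem
      add_mem' := fun {X Y} hX hY => (nullSub ρ').add_mem hX hY
      smul_mem' := fun b X hX => hall b X hX }
  have hI : ∀ w, ∀ X ∈ I, ρ'.ev w X = 0 := by
    intro w X hX
    have h := congrFun (hX w) 0
    simpa [Rep.q, ρ'.R_zero] using h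
  have hrep := ρ'.hasRep_quot I hI
  rw [hq1] at hrep
  refine hmin _ ?_ hrep
  have hsurj : LinearMap.range (Ideal.Quotient.mkₐ ℂ I).toLinearMap = ⊤ :=
    LinearMap.range_eq_top.2 (Ideal.Quotient.mkₐ_surjective ℂ I)
  have hker : 0 < Module.finrank ℂ (LinearMap.ker (Ideal.Quotient.mkₐ ℂ I).toLinearMap) := by
    have : Nontrivial (LinearMap.ker (Ideal.Quotient.mkₐ ℂ I).toLinearMap) := by
      refine ⟨⟨⟨X₂, ?_⟩, 0, ?_⟩⟩
      · rw [LinearMap.mem_ker]
        exact Ideal.Quotient.eq_zero_iff_mem.2 hX₂m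
      · intro h
        exact hX₂0 (congrArg Subtype.val h)
    exact Module.finrank_pos
  have h5 := LinearMap.finrank_range_add_finrank_ker (Ideal.Quotient.mkₐ ℂ I).toLinearMap
  rw [hsurj, finrank_top] at h5
  omega

end Pool.Agent.Lib.MP_db21fa_an.TF
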