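import Pool.Agent.Lib.MP_db21fa_an.TP.FiberLine

/-!
Project THETA, part 2: lifting lines.
-/

set_option autoImplicit false

open Filter Topology Metric NormedSpace

namespace Pool.Agent.Lib.MP_db21fa_an.TF

variable {G A : Type} [NormedAddCommGroup G] [NormedSpace ℂ G] [FiniteDimensional ℂ G]
  [NormedCommRing A] [NormedAlgebra ℂ A] [FiniteDimensional ℂ A]

/-- elements of the group can be normalised -/
theorem CGrp.normalise (C : CGrp G A) {w : G} {γ : A} (h : (w, γ) ∈ C.S) :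
    ∃ γ', C.χ γ' = 1 ∧ (w, γ') ∈ C.S := by
  have h1 : C.χ γ ≠ 0 := ((C.unit _ _ h).map C.χ).ne_zero
  refine ⟨(C.χ γ)⁻¹ • γ, ?_, C.smul _ _ _ (inv_ne_zero h1) h⟩
  rw [map_smul, smul_eq_mul, inv_mul_cancel₀ h1]

/-- lines in the projection can be lifted -/
theorem CGrp.lift (C : CGrp G A) {u : G} (h : ∀ t : ℝ, ∃ γ, ((t : ℂ) • u, γ) ∈ C.S) :
    ∃ ξ : A, C.χ ξ = 0 ∧ ∀ t : ℂ, (t • u, exp (t • ξ)) ∈ C.S := by
  let t : ℕ → ℝ := fun j => 1 / ((j : ℝ) + 1)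
  have ht0 : Tendsto t atTop (𝓝 0) := tendsto_one_div_add_atTop_nhds_zero_nat
  have htpos : ∀ j, 0 < t j := fun j => by positivity
  have hex : ∀ j, ∃ γ, C.χ γ = 1 ∧ ((t j : ℂ) • u, γ) ∈ C.S := by
    intro j
    obtain ⟨γ, hγ⟩ := h (t j)
    exact C.normalise hγ
  choose γ hγ1 hγS using hex
  have htu : Tendsto (fun j => (t j : ℂ) • u) atTop (𝓝 0) := by
    have h1 : Tendsto (fun j => (t j : ℂ)) atTop (𝓝 ((0 : ℝ) : ℂ)) :=
      (Complex.continuous_ofReal.tendsto 0).comp ht0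
    have h2 := h1.smul_const u
    rwa [Complex.ofReal_zero, zero_smul] at h2
  obtain ⟨φ, w, γ', hφ, hlim, hmem⟩ := C.cpt (fun j => ((t j : ℂ) • u, γ j)) hγS hγ1 (by
    obtain ⟨M, hM⟩ := htu.norm.bddAbove_range
    exact ⟨M, fun j => hM ⟨j, rfl⟩⟩)
  have hl2 : Tendsto (fun j => γ (φ j)) atTop (𝓝 γ') := (continuous_snd.tendsto _).comp hlim
  have hl1 : Tendsto (fun j => (t (φ j) : ℂ) • u) atTop (𝓝 w) :=
    (continuous_fst.tendsto _).comp hlim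
  have htu' : Tendsto (fun j => (t (φ j) : ℂ) • u) atTop (𝓝 0) := htu.comp hφ.tendsto_atTop
  have hw : w = 0 := tendsto_nhds_unique hl1 htu'
  subst hw
  have hu : IsUnit γ' := C.unit _ _ hmem
  have hχ' : C.χ γ' = 1 := by
    have h1 : Tendsto (fun j => C.χ (γ (φ j))) atTop (𝓝 (C.χ γ')) :=
      ((chiA_continuous C.χ).tendsto _).comp hl2
    have h2 : (fun j => C.χ (γ (φ j))) = fun _ => (1 : ℂ) := funext fun j => hγ1 _
    rw [h2] at h1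
    exact tendsto_nhds_unique h1 tendsto_const_nhds |>.symm ▸ rfl
  have hinv : γ' * Ring.inverse γ' = 1 := Ring.mul_inverse_cancel _ hu
  have hχi : C.χ (Ring.inverse γ') = 1 := by
    have h1 := congrArg C.χ hinv
    rwa [map_mul, hχ', one_mul, map_one] at h1
  let δ : ℕ → A := fun j => γ (φ j) * Ring.inverse γ'
  have hδlim : Tendsto δ atTop (𝓝 1) := by
    have h1 : Tendsto δ atTop (𝓝 (γ' * Ring.inverse γ')) := hl2.mul_const _
    rwa [hinv] at h1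
  have hδχ : ∀ j, C.χ (δ j) = 1 := by
    intro j
    show C.χ (γ (φ j) * Ring.inverse γ') = 1
    rw [map_mul, hγ1, hχi, one_mul]
  have hδS : ∀ j, ((t (φ j) : ℂ) • u, δ j) ∈ C.S := by
    intro j
    have h1 := C.mul _ _ _ _ (hγS (φ j)) (C.inv _ _ _ hmem hinv)
    rwa [neg_zero, add_zero] at h1
  obtain ⟨ξ, hξ, he⟩ := log_seq C.χ hδlim hδχ
  have h3 : Tendsto (fun j => ((t (φ j) : ℂ) • u, ξ j)) atTop (𝓝 0) := htu'.prodMk_nhds hξ
  have h4 : ∀ᶠ j in atTop, ((t (φ j) : ℂ) • u, ξ j) ∈ C.logGrp := by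
    filter_upwards [he] with j hj
    rw [C.mem_logGrp, hj.1]
    exact ⟨hj.2, hδS j⟩
  obtain ⟨j, hj⟩ := (C.small_line h3 h4).exists
  have htj : ((t (φ j) : ℝ) : ℂ) ≠ 0 := by
    exact_mod_cast (htpos (φ j)).ne'
  refine ⟨((t (φ j) : ℝ) : ℂ)⁻¹ • ξ j, ?_, ?_⟩
  · have h5 := (hj 0).1
    rw [map_smul]
    have h6 : C.χ (ξ j) = 0 := h5
    rw [h6, smul_zero]
  · apply C.line
    intro s
    have h7 := (hj (s * (t (φ j))⁻¹)).2
    have h8 : ((s * (t (φ j))⁻¹ : ℝ) : ℂ) = (s : ℂ) * ((t (φ j) : ℝ) : ℂ)⁻¹ := by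
      push_cast
      rfl
    rw [h8] at h7
    have h9 : ((s : ℂ) * ((t (φ j) : ℝ) : ℂ)⁻¹) • ((t (φ j) : ℂ) • u) = (s : ℂ) • u := by
      rw [smul_smul, mul_assoc, inv_mul_cancel₀ htj, mul_one]
    have h10 : (s : ℂ) • (((t (φ j) : ℝ) : ℂ)⁻¹ • ξ j) = ((s : ℂ) * ((t (φ j) : ℝ) : ℂ)⁻¹) • ξ j := by
      rw [smul_smul]
    rw [h10]
    simp only [h9] at h7
    exact h7

end Pool.Agent.Lib.MP_db21fa_an.TF
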