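import Pool.Agent.Lib.MP_db21fa_an.TP.Pos

/-!
Project THETA, part 2: the data in one variable less.
-/

set_option autoImplicit false
set_option linter.unusedSectionVars false

open Filter Topology Metric

namespace Pool.Agent.Lib.MP_db21fa_an.TF

variable {H ι : Type} [NormedAddCommGroup H] [NormedSpace ℂ H] [FiniteDimensional ℂ H] [Fintype ι]

/-- A spanning family contains a basis (indexed by a subset of the space). -/
private theorem exists_basis_of_span {W : Type} [NormedAddCommGroup W] [NormedSpace ℝ W]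
    [FiniteDimensional ℝ W] {ι : Type} (f : ι → W) (hf : ∀ w, w ∈ Submodule.span ℝ (Set.range f)) :
    ∃ (κ : Type) (_ : Fintype κ) (ω' : Module.Basis κ ℝ W) (s : κ → ι), ∀ j, ω' j = f (s j) := by
  obtain ⟨b, hb, hspan, hli⟩ := exists_linearIndependent ℝ (Set.range f)
  have htop : ⊤ ≤ Submodule.span ℝ (Set.range ((↑) : b → W)) := by
    rw [Subtype.range_coe, hspan]
    intro w _
    exact hf w
  let B : Module.Basis b ℝ W := Module.Basis.mk hli htop
  have hfin : Finite b := Module.Finite.finite_basis B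
  choose s hs using fun j : b => hb j.2
  refine ⟨b, Fintype.ofFinite b, B, s, fun j => ?_⟩
  rw [hs j]
  exact Module.Basis.mk_apply hli htop j

/-- **the new data** -/
theorem BData.exists_next (ω : Module.Basis ι ℝ (ℂ × H)) {m : ι → ℂ × H →L[ℂ] ℂ}
    {Θ Θ' : ℂ × H → ℂ} (D : BData ω m Θ Θ') (hper : ∀ u, Θ (u + (1, 0)) = Θ u)
    (hper' : ∀ u, Θ' (u + (1, 0)) = Θ' u) {i₀ : ι} {J : ℕ} (hi₀ : ω i₀ = ((2 : ℂ) ^ J, 0))
    (hm₀ : m i₀ = 0) :
    ∃ (κ : Type) (_ : Fintype κ) (ω' : Module.Basis κ ℝ H) (m' : κ → H →L[ℂ] ℂ),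
      (∀ (u₀ : H) (A : H →L[ℂ] ℂ), (∀ i, m' i u₀ = A (ω' i)) → u₀ = 0) ∧
      ∀ k : ℤ, (∀ i, Mult (fc Θ k) (ω' i) (m' i)) ∧ ∀ i, Mult (fc Θ' k) (ω' i) (m' i) := by
  obtain ⟨n, hn, i₁, hi₁⟩ := D.exists_int hper
  -- the real linear extension of `n`
  let ν₀ : ℂ × H →ₗ[ℝ] ℝ := ω.constr ℝ fun i => (n i : ℝ)
  let ν : ℂ × H →L[ℝ] ℝ := LinearMap.toContinuousLinearMap ν₀
  have hν : ∀ i, ν (ω i) = n i := fun i =>
    Module.Basis.constr_basis ω ℝ (fun i => (n i : ℝ)) i
  have hpos : ν (Complex.I, 0) ≠ 0 := D.positivity ω hper hn ν hν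
  have hpi : (2 * Real.pi * Complex.I : ℂ) ≠ 0 := Complex.two_pi_I_ne_zero
  have hn₀ : n i₀ = 0 := by
    have h := hn i₀
    rw [hm₀] at h
    have h' : (2 * Real.pi * Complex.I : ℂ) * n i₀ = 0 := by rw [← h]; simp
    have h'' := (mul_eq_zero.1 h').resolve_left hpi
    exact_mod_cast h''
  have hI0 : ω i₀ = ((2 : ℝ) ^ J) • ((1 : ℂ), (0 : H)) := by
    rw [hi₀, Prod.smul_mk, smul_zero]
    congr 1
    rw [Complex.real_smul]
    push_cast
    ring
  have h2J : ((2 : ℝ) ^ J) ≠ 0 := by positivity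
  have hν1 : ν (1, 0) = 0 := by
    have h := hν i₀
    rw [hI0, map_smul, hn₀, smul_eq_mul] at h
    simpa [h2J] using h
  -- the bilinear form
  let Bf : ℂ × H →ₗ[ℝ] (ℂ × H →L[ℂ] ℂ) := ω.constr ℝ m
  have hBf : ∀ i, Bf (ω i) = m i := fun i => Module.Basis.constr_basis ω ℝ m i
  have hB1 : Bf (1, 0) = 0 := by
    have h := hBf i₀
    rw [hI0, map_smul, hm₀] at h
    exact (smul_eq_zero.1 h).resolve_left h2J
  -- the vectors `lam i`
  let lam : ι → ℂ × H := fun i => n i₁ • ω i - n i • ω i₁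
  let L : ι → ℂ × H →L[ℂ] ℂ := fun i => n i₁ • m i - n i • m i₁
  have hL : ∀ i, L i (1, 0) = 0 := fun i => by
    have h1 : L i (1, 0) = (n i₁ : ℂ) * m i (1, 0) - (n i : ℂ) * m i₁ (1, 0) := by
      simp [L]
    rw [h1, hn, hn]
    ring
  have hmul : ∀ {F : ℂ × H → ℂ}, (∀ i, Mult F (ω i) (m i)) → ∀ i, Mult F (lam i) (L i) := by
    intro F hF i
    have h1 := (hF i).zsmul (n i₁)
    have h2 := ((hF i₁).zsmul (n i)).neg
    have h3 := h1.add h2
    have e1 : n i₁ • ω i + -(n i • ω i₁) = lam i := by simp only [lam]; abel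
    have e2 : n i₁ • m i + -(n i • m i₁) = L i := by simp only [L]; abel
    rw [e1, e2] at h3
    exact h3
  have hνlam : ∀ i, ν (lam i) = 0 := fun i => by
    simp only [lam, map_sub, map_zsmul, hν, zsmul_eq_mul]
    ring
  have hBlam : ∀ i, Bf (lam i) = L i := fun i => by
    simp only [lam, L, map_sub, map_zsmul, hBf]
  -- the section `σ`
  let t : H →ₗ[ℝ] ℝ :=
    (-(ν (Complex.I, 0))⁻¹) • (ν₀.comp (LinearMap.inr ℝ ℂ H))
  have ht : ∀ w, t w = -(ν (Complex.I, 0))⁻¹ * ν (0, w) := fun w => rfl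
  let σ : H →ₗ[ℝ] ℂ × H :=
    (LinearMap.inl ℝ ℂ H).comp (t.smulRight Complex.I) + LinearMap.inr ℝ ℂ H
  have hσ : ∀ w, σ w = (t w • Complex.I, w) := fun w => by
    simp [σ]
  have hσ' : ∀ w, σ w = t w • (Complex.I, (0 : H)) + (0, w) := fun w => by
    rw [hσ]; simp
  have hνσ : ∀ w, ν (σ w) = 0 := fun w => by
    rw [hσ', map_add, map_smul, ht, smul_eq_mul]
    field_simp
    ring
  -- a vector `(z, 0)` killed by `ν` is killed by `Bf`
  have hker : ∀ z : ℂ, ν (z, 0) = 0 → Bf (z, 0) = 0 := by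
    intro z hz
    have e : ((z, 0) : ℂ × H) = z.re • ((1 : ℂ), (0 : H)) + z.im • (Complex.I, (0 : H)) := by
      refine Prod.ext ?_ (by simp)
      simp only [Prod.fst_add, Prod.smul_fst]
      rw [Complex.real_smul, Complex.real_smul, mul_one]
      exact (Complex.re_add_im z).symm
    rw [e, map_add, map_smul, map_smul, hν1, smul_zero, zero_add, smul_eq_mul] at hz
    have him : z.im = 0 := (mul_eq_zero.1 hz).resolve_right hpos
    have h1 : z.re • Bf ((1 : ℂ), (0 : H)) = 0 := by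
      rw [hB1]
      refine ContinuousLinearMap.ext fun u => ?_
      exact smul_zero z.re
    have h2 : z.im • Bf (Complex.I, (0 : H)) = 0 := by
      rw [him]
      refine ContinuousLinearMap.ext fun u => ?_
      exact zero_smul ℝ (Bf (Complex.I, (0 : H)) u)
    rw [e, map_add, map_smul, map_smul, h1, h2, add_zero]
  have hBσ : ∀ i, Bf (σ (lam i).2) = L i := fun i => by
    have e : lam i - σ (lam i).2 = ((lam i - σ (lam i).2).1, 0) := by
      refine Prod.ext rfl ?_
      rw [hσ]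
      simp
    have h1 : ν (lam i - σ (lam i).2) = 0 := by rw [map_sub, hνlam, hνσ, sub_zero]
    rw [e] at h1
    have h2 := hker _ h1
    rw [← e, map_sub, hBlam] at h2
    exact (sub_eq_zero.1 h2).symm
  -- the second components of `lam` span `H`
  have hni₁ : ((n i₁ : ℤ) : ℝ) ≠ 0 := by exact_mod_cast hi₁
  have hspan : ∀ w : H, w ∈ Submodule.span ℝ (Set.range fun i => (lam i).2) := by
    intro w
    have h1 := ω.sum_repr (σ w)
    have h2 : ∑ i, ω.repr (σ w) i * (n i : ℝ) = 0 := by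
      have h3 := congrArg ν h1
      rw [map_sum, hνσ] at h3
      rw [← h3]
      refine Finset.sum_congr rfl fun i _ => ?_
      rw [map_smul, hν, smul_eq_mul]
    have h4 : ∑ i, ω.repr (σ w) i • lam i = (n i₁ : ℝ) • σ w := by
      have h5 : ∀ i, ω.repr (σ w) i • lam i
          = (n i₁ : ℝ) • (ω.repr (σ w) i • ω i) - (ω.repr (σ w) i * (n i : ℝ)) • ω i₁ := by
        intro i
        have e1 : n i₁ • ω i = (n i₁ : ℝ) • ω i := (Int.cast_smul_eq_zsmul ℝ _ _).symm
        have e2 : n i • ω i₁ = (n i : ℝ) • ω i₁ := (Int.cast_smul_eq_zsmul ℝ _ _).symm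
        simp only [lam]
        rw [e1, e2, smul_sub, smul_smul, smul_smul, smul_smul, mul_comm (n i₁ : ℝ)]
      rw [Finset.sum_congr rfl fun i _ => h5 i, Finset.sum_sub_distrib, ← Finset.smul_sum, h1,
        ← Finset.sum_smul, h2, zero_smul, sub_zero]
    have h6 : w = (n i₁ : ℝ)⁻¹ • ∑ i, ω.repr (σ w) i • (lam i).2 := by
      have h7 := congrArg Prod.snd h4
      rw [Prod.snd_sum] at h7
      simp only [Prod.smul_snd] at h7
      rw [h7, hσ, smul_smul, inv_mul_cancel₀ hni₁, one_smul]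
    rw [h6]
    refine Submodule.smul_mem _ _ (Submodule.sum_mem _ fun i _ => Submodule.smul_mem _ _ ?_)
    exact Submodule.subset_span ⟨i, rfl⟩
  obtain ⟨κ, hκ, ω', s, hs⟩ := exists_basis_of_span (fun i => (lam i).2) hspan
  refine ⟨κ, hκ, ω', fun j => (L (s j)).comp (ContinuousLinearMap.inr ℂ ℂ H), ?_, ?_⟩
  · -- nondegeneracy
    intro u₀ A hA
    have hA' : ∀ j, L (s j) (0, u₀) = A (lam (s j)).2 := fun j => by
      have h := hA j
      rw [hs j] at h
      simpa using h
    let D' : H →ₗ[ℝ] ℂ :=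
      { toFun := fun w => Bf (σ w) (0, u₀) - A w
        map_add' := fun w w' => by
          simp only [map_add, add_apply]
          ring
        map_smul' := fun c w => by
          simp only [map_smul, FunLike.coe_smul, Pi.smul_apply, RingHom.id_apply,
            smul_sub]
          congr 1
          have e : (c • w : H) = (c : ℂ) • w := (Complex.coe_smul c w).symm
          rw [e, map_smul, Complex.real_smul, smul_eq_mul] }
    have hD' : D' = 0 := by
      refine ω'.ext fun j => ?_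
      change Bf (σ (ω' j)) (0, u₀) - A (ω' j) = 0
      have h1 : Bf (σ (ω' j)) = L (s j) := by rw [hs j]; exact hBσ (s j)
      rw [h1, hA', hs j, sub_self]
    have hall : ∀ i, L i (0, u₀) = A (lam i).2 := fun i => by
      have h1 : D' (lam i).2 = 0 := by rw [hD']; rfl
      change Bf (σ (lam i).2) (0, u₀) - A (lam i).2 = 0 at h1
      rw [hBσ] at h1
      exact sub_eq_zero.1 h1
    have hni₁c : ((n i₁ : ℤ) : ℂ) ≠ 0 := by exact_mod_cast hi₁
    let c₁ : ℂ := m i₁ (0, u₀) - A (ω i₁).2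
    let C : ℂ := c₁ / (2 * Real.pi * Complex.I * n i₁)
    have key : ∀ i, m i (-C, u₀) = (A.comp (ContinuousLinearMap.snd ℂ ℂ H)) (ω i) := by
      intro i
      have h1 := hall i
      have h2 : L i (0, u₀) = (n i₁ : ℂ) * m i (0, u₀) - (n i : ℂ) * m i₁ (0, u₀) := by
        simp [L]
      have h3 : A (lam i).2 = (n i₁ : ℂ) * A (ω i).2 - (n i : ℂ) * A (ω i₁).2 := by
        simp [lam]
      rw [h2, h3] at h1
      have h4 : ((-C, u₀) : ℂ × H) = (0, u₀) - C • ((1 : ℂ), (0 : H)) := by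
        simp
      rw [h4, map_sub, map_smul, hn, smul_eq_mul]
      change _ = A (ω i).2
      have h5 : C * (2 * Real.pi * Complex.I * n i) = c₁ * n i / n i₁ := by
        simp only [C]
        field_simp
      rw [h5]
      have h6 : (n i₁ : ℂ) * (m i (0, u₀) - A (ω i).2) = n i * c₁ := by
        simp only [c₁]
        linear_combination h1
      have h7 : m i (0, u₀) - A (ω i).2 = c₁ * n i / n i₁ := by
        rw [eq_div_iff hni₁c]
        linear_combination h6
      linear_combination h7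
    have h := D.nd (-C, u₀) _ key
    exact congrArg Prod.snd h
  · intro k
    have hfc : ∀ {F : ℂ × H → ℂ}, Differentiable ℂ F → (∀ u, F (u + (1, 0)) = F u) →
        (∀ i, Mult F (ω i) (m i)) → ∀ j, Mult (fc F k) (ω' j)
          ((L (s j)).comp (ContinuousLinearMap.inr ℂ ℂ H)) := by
      intro F hd hp hF j
      obtain ⟨c, hc⟩ := hmul hF (s j)
      refine ⟨c - 2 * Real.pi * Complex.I * k * (lam (s j)).1, fun u => ?_⟩
      rw [hs j]
      exact fc_quasi hd hp (hL (s j)) hc k u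
    exact ⟨hfc D.d hper D.mult, hfc D.d' hper' D.mult'⟩

end Pool.Agent.Lib.MP_db21fa_an.TF
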