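import Pool.Agent.Lib.MP_db21fa_an.TP.BData
import Pool.Agent.Lib.MP_db21fa_an.TP.Fc

/-!
Project THETA, part 2: positivity.
-/

set_option autoImplicit false

open Filter Topology Metric

namespace Pool.Agent.Lib.MP_db21fa_an.TF

variable {H ι : Type} [NormedAddCommGroup H] [NormedSpace ℂ H] [FiniteDimensional ℂ H] [Fintype ι]

/-- if `1` in the first variable is a period, the forms take values in `2 π i ℤ` -/
theorem Mult.exists_int {Θ : ℂ × H → ℂ} (h0 : Θ ≠ 0) (hper : ∀ u, Θ (u + (1, 0)) = Θ u)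
    {γ : ℂ × H} {l : ℂ × H →L[ℂ] ℂ} (h : Mult Θ γ l) :
    ∃ n : ℤ, l (1, 0) = 2 * Real.pi * Complex.I * n := by
  obtain ⟨c, hc⟩ := h
  obtain ⟨u, hu⟩ := exists_ne_of_ne h0
  have h1 : Θ (u + (1, 0) + γ) = Θ (u + γ) := by
    rw [add_right_comm, hper]
  rw [hc, hc, hper] at h1
  have h2 := mul_right_cancel₀ hu h1
  have h3 : Complex.exp (l (1, 0)) = 1 := by
    have h4 : l (u + (1, 0)) + c = l (1, 0) + (l u + c) := by
      rw [map_add]; ring
    rw [h4, Complex.exp_add] at h2
    have h5 : Complex.exp (l (1, 0)) * Complex.exp (l u + c) = 1 * Complex.exp (l u + c) := by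
      rw [h2, one_mul]
    exact mul_right_cancel₀ (Complex.exp_ne_zero _) h5
  obtain ⟨n, hn⟩ := Complex.exp_eq_one_iff.mp h3
  exact ⟨n, by rw [hn]; ring⟩

/-- integers `n i` with `m i (1, 0) = 2 π i (n i)` -/
theorem BData.exists_int {ω : ι → ℂ × H} {m : ι → ℂ × H →L[ℂ] ℂ} {Θ Θ' : ℂ × H → ℂ}
    (D : BData ω m Θ Θ') (hper : ∀ u, Θ (u + (1, 0)) = Θ u) :
    ∃ n : ι → ℤ, (∀ i, m i (1, 0) = 2 * Real.pi * Complex.I * n i) ∧ ∃ i, n i ≠ 0 := by
  have h1 : ∀ i, ∃ n : ℤ, m i (1, 0) = 2 * Real.pi * Complex.I * n :=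
    fun i => (D.mult i).exists_int D.ne hper
  choose n hn using h1
  refine ⟨n, hn, ?_⟩
  by_contra hcon
  push Not at hcon
  have h2 : ((1, 0) : ℂ × H) = 0 := by
    apply D.nd (1, 0) 0
    intro i
    rw [hn i, hcon i]
    simp
  have h3 : (1 : ℂ) = 0 := congrArg Prod.fst h2
  exact one_ne_zero h3

/-- lattice vectors near large multiples of a vector -/
theorem exists_lattice {V κ : Type*} [NormedAddCommGroup V] [NormedSpace ℝ V]
    [FiniteDimensional ℝ V] [Fintype κ] (ω : Module.Basis κ ℝ V) (s : V) {ε : ℝ} (hε : 0 < ε)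
    (T : ℝ) : ∃ lam ∈ AddSubgroup.closure (Set.range ω), ∃ t : ℝ, T ≤ t ∧ ‖lam - t • s‖ < ε := by
  let r : ℕ → V := fun k => ZSpan.fract ω ((k : ℝ) • s)
  have hrb : ∀ k, r k ∈ closedBall (0 : V) (∑ i, ‖ω i‖) := by
    intro k
    rw [mem_closedBall_zero_iff]
    exact ZSpan.norm_fract_le ω _
  obtain ⟨x, -, φ, hφ, hlim⟩ := (isCompact_closedBall (0 : V) (∑ i, ‖ω i‖)).tendsto_subseq hrb
  obtain ⟨n, hn⟩ := Metric.cauchySeq_iff.mp hlim.cauchySeq ε hε
  obtain ⟨N, hN⟩ := exists_nat_ge (T + φ n)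
  have hd := hn (max n N) (le_max_left _ _) n le_rfl
  have hfloor : ∀ u : V, ((ZSpan.floor ω u : V)) ∈ AddSubgroup.closure (Set.range ω) := by
    intro u
    have h1 := (ZSpan.floor ω u).2
    have h2 : (Submodule.span ℤ (Set.range ω)).toAddSubgroup =
        AddSubgroup.closure (Set.range ω) := Submodule.span_int_eq_addSubgroupClosure _
    rw [← h2]
    exact h1
  refine ⟨(ZSpan.floor ω ((φ (max n N) : ℝ) • s) : V) - (ZSpan.floor ω ((φ n : ℝ) • s) : V),
    AddSubgroup.sub_mem _ (hfloor _) (hfloor _), (φ (max n N) : ℝ) - φ n, ?_, ?_⟩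
  · have h3 : (N : ℝ) ≤ φ (max n N) := by
      have h4 : N ≤ φ (max n N) := le_trans (le_max_right _ _) (hφ.id_le _)
      exact_mod_cast h4
    linarith
  · have h1 : (φ (max n N) : ℝ) • s = (ZSpan.floor ω ((φ (max n N) : ℝ) • s) : V) +
        r (φ (max n N)) := by
      simp [r, ZSpan.fract_apply]
    have h2 : (φ n : ℝ) • s = (ZSpan.floor ω ((φ n : ℝ) • s) : V) + r (φ n) := by
      simp [r, ZSpan.fract_apply]
    have h3 : (ZSpan.floor ω ((φ (max n N) : ℝ) • s) : V) - (ZSpan.floor ω ((φ n : ℝ) • s) : V) -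
        ((φ (max n N) : ℝ) - φ n) • s = -(r (φ (max n N)) - r (φ n)) := by
      rw [sub_smul]
      conv_lhs => rw [h1, h2]
      simp only [h1.symm, h2.symm]
      have h5 : (ZSpan.floor ω ((φ (max n N) : ℝ) • s) : V) =
          (φ (max n N) : ℝ) • s - r (φ (max n N)) := by
        rw [eq_sub_iff_add_eq]; exact h1.symm
      have h6 : (ZSpan.floor ω ((φ n : ℝ) • s) : V) = (φ n : ℝ) • s - r (φ n) := by
        rw [eq_sub_iff_add_eq]; exact h2.symm
      rw [h5, h6]
      abel
    rw [h3, norm_neg, ← dist_eq_norm]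
    exact hd

/-- a product of nonzero entire functions is not zero -/
theorem exists_common_ne {F F' : H → ℂ} (hF : Differentiable ℂ F) (hF' : Differentiable ℂ F')
    (h : F ≠ 0) (h' : F' ≠ 0) : ∃ u, F u ≠ 0 ∧ F' u ≠ 0 := by
  obtain ⟨u₁, hu₁⟩ := exists_ne_of_ne h
  obtain ⟨u₂, hu₂⟩ := exists_ne_of_ne h'
  by_contra hcon
  push Not at hcon
  let L : ℂ → H := fun z => u₁ + z • (u₂ - u₁)
  have hL : Differentiable ℂ L := by fun_prop
  have hf : AnalyticOnNhd ℂ (F ∘ L) Set.univ := fun z _ => (hF.comp hL).analyticAt z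
  have hg : AnalyticOnNhd ℂ (F' ∘ L) Set.univ := fun z _ => (hF'.comp hL).analyticAt z
  have h1 := AnalyticOnNhd.eq_zero_or_eq_zero_of_mul_eq_zero hf hg (by
    intro z _
    by_cases hz : F (L z) = 0
    · simp [hz]
    · simp [hcon _ hz]) isPreconnected_univ
  rcases h1 with h1 | h1
  · have h2 := h1 0 (Set.mem_univ _)
    apply hu₁
    simpa [L] using h2
  · have h2 := h1 1 (Set.mem_univ _)
    apply hu₂
    simpa [L] using h2

/-- **positivity**: the real linear extension of `n` does not vanish at `(i, 0)` -/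
theorem BData.positivity (ω : Module.Basis ι ℝ (ℂ × H)) {m : ι → ℂ × H →L[ℂ] ℂ}
    {Θ Θ' : ℂ × H → ℂ} (D : BData ω m Θ Θ') (hper : ∀ u, Θ (u + (1, 0)) = Θ u) {n : ι → ℤ}
    (hn : ∀ i, m i (1, 0) = 2 * Real.pi * Complex.I * n i) (ν : ℂ × H →L[ℝ] ℝ)
    (hν : ∀ i, ν (ω i) = n i) : ν (Complex.I, 0) ≠ 0 := by
  intro hν0
  haveI : FiniteDimensional ℝ (ℂ × H) := Module.Finite.of_basis ω
  -- all lattice vectors
  have hlat : ∀ lam ∈ AddSubgroup.closure (Set.range ω), ∃ (l : ℂ × H →L[ℂ] ℂ) (k : ℤ),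
      Mult Θ lam l ∧ l (1, 0) = 2 * Real.pi * Complex.I * k ∧ ν lam = k := by
    intro lam hlam
    induction hlam using AddSubgroup.closure_induction with
    | mem x hx =>
      obtain ⟨i, rfl⟩ := hx
      exact ⟨m i, n i, D.mult i, hn i, hν i⟩
    | zero => exact ⟨0, 0, Mult.zero Θ, by simp, by simp⟩
    | add x y _ _ hx hy =>
      obtain ⟨l, k, h1, h2, h3⟩ := hx
      obtain ⟨l', k', h1', h2', h3'⟩ := hy
      refine ⟨l + l', k + k', h1.add h1', ?_, ?_⟩
      · rw [add_apply, h2, h2']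
        push_cast
        ring
      · rw [map_add, h3, h3']
        push_cast
        ring
    | neg x _ hx =>
      obtain ⟨l, k, h1, h2, h3⟩ := hx
      refine ⟨-l, -k, h1.neg, ?_, ?_⟩
      · rw [neg_apply, h2]
        push_cast
        ring
      · rw [map_neg, h3]
        push_cast
        ring
  -- the sequence
  have hseq : ∀ j : ℕ, ∃ lam ∈ AddSubgroup.closure (Set.range ω), ∃ t : ℝ, (j : ℝ) ≤ t ∧
      ‖lam - t • ((Complex.I, 0) : ℂ × H)‖ < 1 / ((j : ℝ) + 1) :=
    fun j => exists_lattice ω _ (by positivity) _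
  choose lam hlam t htj hlt using hseq
  have hdiff : Tendsto (fun j => lam j - t j • ((Complex.I, 0) : ℂ × H)) atTop (𝓝 0) := by
    apply squeeze_zero_norm (a := fun j : ℕ => 1 / ((j : ℝ) + 1))
    · intro j; exact (hlt j).le
    · exact tendsto_one_div_add_atTop_nhds_zero_nat
  have htinf : Tendsto t atTop atTop := tendsto_atTop_mono htj tendsto_natCast_atTop_atTop
  have hνlim : Tendsto (fun j => ν (lam j)) atTop (𝓝 0) := by
    have h1 := (ν.continuous.tendsto 0).comp hdiff
    rw [map_zero] at h1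
    refine h1.congr fun j => ?_
    have h2 : ν (t j • ((Complex.I, 0) : ℂ × H)) = 0 := by
      rw [ν.map_smul, hν0, smul_zero]
    rw [Function.comp_apply, map_sub, h2, sub_zero]
  have hsnd : Tendsto (fun j => (lam j).2) atTop (𝓝 0) := by
    have h1 := ((continuous_snd (X := ℂ) (Y := H)).tendsto 0).comp hdiff
    simpa [Function.comp_def] using h1
  have him : Tendsto (fun j => (lam j).1.im) atTop atTop := by
    have h1 := ((continuous_fst (X := ℂ) (Y := H)).tendsto 0).comp hdiff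
    have h2 := (Complex.continuous_im.tendsto _).comp h1
    have h3 : Tendsto (fun j => (lam j).1.im - t j) atTop (𝓝 0) := by
      simpa [Function.comp_def] using h2
    have h4 := h3.add_atTop htinf
    simpa using h4
  -- the coefficients
  have hkey : ∀ k k' : ℤ, k' < k → fc Θ k ≠ 0 → fc Θ k' ≠ 0 → False := by
    intro k k' hkk hk hk'
    obtain ⟨u, hu, hu'⟩ := exists_common_ne (differentiable_fc D.d k) (differentiable_fc D.d k')
      hk hk'
    have hev : ∀ᶠ j in atTop, ‖fc Θ k (u + (lam j).2)‖ * ‖fc Θ k' u‖ =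
        ‖fc Θ k' (u + (lam j).2)‖ * ‖fc Θ k u‖ *
          Real.exp (2 * Real.pi * (k - k') * (lam j).1.im) := by
      have h1 : ∀ᶠ j in atTop, |ν (lam j)| < 1 := by
        have h2 := hνlim.abs
        rw [abs_zero] at h2
        exact h2.eventually_lt_const one_pos
      filter_upwards [h1] with j hj
      obtain ⟨l, q, hl, hle, hq⟩ := hlat _ (hlam j)
      have hq0 : q = 0 := by
        rw [hq] at hj
        have h3 : |q| < 1 := by exact_mod_cast hj
        exact Int.abs_lt_one_iff.mp h3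
      rw [hq0] at hle
      have hle0 : l (1, 0) = 0 := by simpa using hle
      obtain ⟨c, hc⟩ := hl
      have e1 := fc_quasi D.d hper hle0 hc k u
      have e2 := fc_quasi D.d hper hle0 hc k' u
      rw [e1, e2, norm_mul, norm_mul, Complex.norm_exp, Complex.norm_exp]
      have e3 : (l (0, u) + (c - 2 * Real.pi * Complex.I * k * (lam j).1)).re =
          (l (0, u)).re + c.re + 2 * Real.pi * k * (lam j).1.im := by
        simp [Complex.add_re, Complex.sub_re, Complex.mul_re, Complex.mul_im]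
        ring
      have e4 : (l (0, u) + (c - 2 * Real.pi * Complex.I * k' * (lam j).1)).re =
          (l (0, u)).re + c.re + 2 * Real.pi * k' * (lam j).1.im := by
        simp [Complex.add_re, Complex.sub_re, Complex.mul_re, Complex.mul_im]
        ring
      rw [e3, e4]
      have e5 : (l (0, u)).re + c.re + 2 * Real.pi * k * (lam j).1.im =
          ((l (0, u)).re + c.re + 2 * Real.pi * k' * (lam j).1.im) +
            2 * Real.pi * (k - k') * (lam j).1.im := by ring
      rw [e5, Real.exp_add]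
      ring
    have hL : Tendsto (fun j => ‖fc Θ k (u + (lam j).2)‖ * ‖fc Θ k' u‖) atTop
        (𝓝 (‖fc Θ k u‖ * ‖fc Θ k' u‖)) := by
      have h1 : Tendsto (fun j => u + (lam j).2) atTop (𝓝 u) := by
        simpa using hsnd.const_add u
      exact ((((differentiable_fc D.d k).continuous.tendsto u).comp h1).norm).mul_const _
    have hB : Tendsto (fun j => ‖fc Θ k' (u + (lam j).2)‖ * ‖fc Θ k u‖) atTop
        (𝓝 (‖fc Θ k' u‖ * ‖fc Θ k u‖)) := by
      have h1 : Tendsto (fun j => u + (lam j).2) atTop (𝓝 u) := by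
        simpa using hsnd.const_add u
      exact ((((differentiable_fc D.d k').continuous.tendsto u).comp h1).norm).mul_const _
    have hE : Tendsto (fun j => Real.exp (2 * Real.pi * (k - k') * (lam j).1.im)) atTop atTop := by
      apply Real.tendsto_exp_atTop.comp
      apply Tendsto.const_mul_atTop _ him
      have h1 : (0 : ℝ) < (k : ℝ) - k' := by
        rw [sub_pos]
        exact_mod_cast hkk
      have := Real.pi_pos
      positivity
    have hR : Tendsto (fun j => ‖fc Θ k' (u + (lam j).2)‖ * ‖fc Θ k u‖ *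
        Real.exp (2 * Real.pi * (k - k') * (lam j).1.im)) atTop atTop := by
      apply Tendsto.pos_mul_atTop _ hB hE
      exact mul_pos (norm_pos_iff.mpr hu') (norm_pos_iff.mpr hu)
    have hR' := hR.congr' (hev.mono fun j hj => hj.symm)
    exact not_tendsto_nhds_of_tendsto_atTop hR' _ hL
  obtain ⟨k₀, hk₀⟩ := exists_fc_ne_zero D.d D.ne hper
  have hsingle : ∀ k : ℤ, k ≠ k₀ → fc Θ k = 0 := by
    intro k hk
    by_contra hne
    rcases lt_or_gt_of_ne hk with h | h
    · exact hkey k₀ k h hk₀ hne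
    · exact hkey k k₀ h hne hk₀
  have hder := deriv_of_single D.d hper k₀ hsingle
  have h2 : ((1, 0) : ℂ × H) = 0 := by
    apply eq_zero_of_deriv D.d D.ne D.mult D.nd (l := 0) (c := 2 * Real.pi * Complex.I * k₀)
    intro u
    rw [hder u]
    simp
  have h3 : (1 : ℂ) = 0 := congrArg Prod.fst h2
  exact one_ne_zero h3

end Pool.Agent.Lib.MP_db21fa_an.TF
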