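import Pool.Agent.Lib.MP_db21fa_an.TP.ZGrp
import Pool.Agent.Lib.MP_db21fa_an.TP.RepOps

/-!
Project THETA, part 2: the rank condition defines an invariant set.
-/

set_option autoImplicit false

open Filter Topology Metric NormedSpace

namespace Pool.Agent.Lib.MP_db21fa_an.TF

variable {E G ι : Type} [NormedAddCommGroup E] [NormedSpace ℂ E] [FiniteDimensional ℂ E]
  [NormedAddCommGroup G] [NormedSpace ℂ G] [FiniteDimensional ℂ G] [Fintype ι] {v : E →L[ℂ] G}
  {l : ι → G →L[ℂ] ℂ}

/-- an entire function which vanishes on the real line vanishes -/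
theorem eq_zero_of_real {f : ℂ → ℂ} (hf : Differentiable ℂ f) (h : ∀ t : ℝ, f (t : ℂ) = 0) (t : ℂ) :
    f t = 0 := by
  have h1 : AnalyticOnNhd ℂ f Set.univ := fun z _ => hf.analyticAt z
  have h2 : Tendsto (fun n : ℕ => ((1 / ((n : ℝ) + 1) : ℝ) : ℂ)) atTop (𝓝[≠] 0) := by
    rw [tendsto_nhdsWithin_iff]
    refine ⟨?_, Eventually.of_forall fun n => ?_⟩
    · have h3 := tendsto_one_div_add_atTop_nhds_zero_nat (𝕜 := ℝ)
      have h4 := (Complex.continuous_ofReal.tendsto 0).comp h3
      rw [Complex.ofReal_zero] at h4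
      exact h4
    · simp only [Set.mem_compl_iff, Set.mem_singleton_iff, Complex.ofReal_eq_zero]
      positivity
  have h5 : ∃ᶠ z in 𝓝[≠] (0 : ℂ), f z = (fun _ => (0 : ℂ)) z :=
    h2.frequently (Eventually.of_forall fun n => h _).frequently
  have h6 := h1.eq_of_frequently_eq (g := fun _ => (0 : ℂ)) (fun z _ => analyticAt_const) h5
  exact congrFun h6 t

/-- the set of all members of the family which give rank `≤ N` with `b` -/
theorem Rep.zset_rank (ω : Module.Basis ι ℝ G) {A : Type} [NormedCommRing A] [NormedAlgebra ℂ A]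
    [FiniteDimensional ℂ A] (ρ : Rep v ω l A) {b : E → ℂ} {N : ℕ}
    (hu : ∀ w X, X ≠ 0 → RankLE (PK (ρ.q w X) b) N → IsUnit X)
    (hne : ∃ w X, X ≠ 0 ∧ RankLE (PK (ρ.q w X) b) N) :
    ZSet v ω ρ.R ρ.g {p : G × A | p.2 ≠ 0 ∧ RankLE (PK (ρ.q p.1 p.2) b) N} := by
  have hRu : ∀ a, IsUnit (ρ.R a) := fun a => IsUnit.of_mul_eq_one (ρ.R (-a)) (by
    rw [← ρ.R_add, add_neg_cancel, ρ.R_zero])
  refine ⟨?_, ?_, ?_, ?_, ?_, ?_, ?_, ?_⟩
  · obtain ⟨w, X, h1, h2⟩ := hne
    exact ⟨(w, X), h1, h2⟩
  · exact fun w X h => hu w X h.1 h.2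
  · exact fun w X h => h.1
  · intro s w X hs ht hX
    refine ⟨hX, ?_⟩
    refine rankLE_of_tendsto (Kj := fun j => PK (ρ.q (s j).1 (s j).2) b) (fun j => (hs j).2) ?_
    intro x y
    have h1 := ((ρ.continuous_q (x - y)).tendsto (w, X)).comp ht
    exact h1.mul_const _
  · intro w w₁ X ξ h t
    have h0 : X ≠ 0 := by
      have := (h 0).1
      simpa using this
    refine ⟨?_, ?_⟩
    · intro h1
      have h2 : exp (t • ξ) * X = 0 := h1
      have h3 : exp (-(t • ξ)) * (exp (t • ξ) * X) = X := by
        have : NormedAlgebra ℚ A := NormedAlgebra.restrictScalars ℚ ℂ A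
        have hc : CompleteSpace A := FiniteDimensional.complete ℂ A
        rw [← mul_assoc, ← exp_add, neg_add_cancel, exp_zero, one_mul]
      rw [h2, mul_zero] at h3
      exact h0 h3.symm
    · rw [rankLE_iff_minors]
      intro a c
      refine eq_zero_of_real (f := fun t : ℂ =>
        (mm (PK (ρ.q (w + t • w₁) (exp (t • ξ) * X)) b) a c).det) ?_ (fun t => ?_) t
      · simp only [Matrix.det_apply, mm, PK, Matrix.of_apply]
        refine Differentiable.fun_sum fun σ _ => ?_
        refine Differentiable.const_smul ?_ _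
        refine Differentiable.fun_finsetProd fun i _ => ?_
        exact (ρ.differentiable_line w w₁ X ξ _).mul_const _
      · exact rankLE_iff_minors.1 (h t).2 a c
  · intro w X c hc h
    refine ⟨smul_ne_zero hc h.1, ?_⟩
    have h1 := h.2.scale (fun _ => c) (fun _ => 1)
    refine (congrArg (fun K => RankLE K N) ?_).mpr h1
    funext x y
    simp only [PK, ρ.q_smul]
    ring
  · intro w X a h
    refine ⟨fun h1 => h.1 ((hRu a).mul_right_eq_zero.1 h1), ?_⟩
    have h1 := rankLE_PK_shift h.2 a 0
    refine (congrArg (fun K => RankLE K N) ?_).mpr h1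
    congr 1
    · funext x
      exact ρ.q_shift w X a x
    · funext x
      rw [add_zero]
  · intro w X i
    have hc : ∀ x, ρ.q (w + ω i) X x = Complex.exp (l i w) * Complex.exp ((l i).comp v x) *
        ρ.q w (ρ.g i * X) x := fun x => ρ.q_per w X i x
    constructor
    · rintro ⟨h1, h2⟩
      refine ⟨fun h3 => h1 ((ρ.g_unit i).mul_right_eq_zero.1 h3), ?_⟩
      have h4 := rankLE_PK_exp h2 (-((l i).comp v)) 0 (Complex.exp (-(l i w))) 1
      refine (congrArg (fun K => RankLE K N) ?_).mpr h4
      congr 1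
      · funext x
        rw [hc]
        have h5 : Complex.exp (-(l i w)) * Complex.exp (l i w) = 1 := by
          rw [← Complex.exp_add]; simp
        have h6 : Complex.exp ((-((l i).comp v)) x) * Complex.exp ((l i).comp v x) = 1 := by
          rw [← Complex.exp_add]; simp
        calc ρ.q w (ρ.g i * X) x = (Complex.exp (-(l i w)) * Complex.exp (l i w)) *
              (Complex.exp ((-((l i).comp v)) x) * Complex.exp ((l i).comp v x)) *
              ρ.q w (ρ.g i * X) x := by rw [h5, h6]; ring
          _ = _ := by ring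
      · funext x
        simp
    · rintro ⟨h1, h2⟩
      refine ⟨fun h3 => h1 (by
        have h3' : X = 0 := h3
        show ρ.g i * X = 0
        rw [h3', mul_zero]), ?_⟩
      have h4 := rankLE_PK_exp h2 ((l i).comp v) 0 (Complex.exp (l i w)) 1
      refine (congrArg (fun K => RankLE K N) ?_).mpr h4
      congr 1
      · funext x
        rw [hc]
      · funext x
        simp

end Pool.Agent.Lib.MP_db21fa_an.TF
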