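import Pool.Agent.Lib.MP_db21fa_an.TP.Inj
import Pool.Agent.Lib.MP_db21fa_an.TP.ZsetRank

/-!
Project THETA, part 2: reduction to scalar theta functions.
-/

set_option autoImplicit false

open Filter Topology Metric NormedSpace

namespace Pool.Agent.Lib.MP_db21fa_an.TF

variable {E G ι : Type} [NormedAddCommGroup E] [NormedSpace ℂ E] [FiniteDimensional ℂ E]
  [NormedAddCommGroup G] [NormedSpace ℂ G] [FiniteDimensional ℂ G] [Fintype ι] {v : E →L[ℂ] G}
  {l : ι → G →L[ℂ] ℂ}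

/-- iterated periods of the evaluations -/
theorem Rep.ev_iter {A : Type} [NormedCommRing A] [NormedAlgebra ℂ A] {ω : ι → G}
    (ρ : Rep v ω l A) (i : ι) (n : ℕ) : ∃ c : ℂ, ∀ w X,
      ρ.ev (w + (n : ℝ) • ω i) X = Complex.exp ((n : ℂ) * l i w + c) * ρ.ev w (ρ.g i ^ n * X) := by
  induction n with
  | zero => exact ⟨0, fun w X => by simp⟩
  | succ n ih =>
    obtain ⟨c, hc⟩ := ih
    refine ⟨c + l i ((n : ℝ) • ω i), fun w X => ?_⟩
    have e1 : w + ((n + 1 : ℕ) : ℝ) • ω i = (w + (n : ℝ) • ω i) + ω i := by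
      push_cast
      rw [add_smul, one_smul, add_assoc]
    rw [e1, ρ.per, hc, ← mul_assoc, ← Complex.exp_add]
    have e2 : ρ.g i ^ n * (ρ.g i * X) = ρ.g i ^ (n + 1) * X := by rw [pow_succ]; ring
    rw [e2]
    congr 2
    rw [map_add]
    push_cast
    ring

/-- **reduction to scalar theta functions** -/
theorem exists_scalar (ω : Module.Basis ι ℝ G) (hm : HMin v ω) {q b : E → ℂ} {N : ℕ} (hq : q ≠ 0)
    (hr : ∃ k, HasRep v ω l q k) (hN : RankLE (PK q b) N) :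
    ∃ (Θ : G → ℂ) (μ : E →L[ℂ] ℂ) (K : ℕ) (C : ι → ℂ), 0 < K ∧ Differentiable ℂ Θ ∧
      (∃ x, Θ (v x) ≠ 0) ∧
      (∀ i u, Θ (u + (K : ℝ) • ω i) = Complex.exp ((K : ℂ) * l i u + C i) * Θ u) ∧
      RankLE (PK (fun x => Complex.exp (μ x) * Θ (v x)) b) N := by
  classical
  let P : ℕ → Prop := fun k => ∃ q' : E → ℂ, q' ≠ 0 ∧ HasRep v ω l q' k ∧ RankLE (PK q' b) N
  have hP : ∃ k, P k := by
    obtain ⟨k, hk⟩ := hr
    exact ⟨k, q, hq, hk, hN⟩
  obtain ⟨q', hq', ⟨A, nr, na, fd, ρ, hk, rfl⟩, hN'⟩ := Nat.find_spec hP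
  have hmin : ∀ k < Module.finrank ℂ A, ¬ P k := by
    intro k hk'
    rw [hk] at hk'
    exact Nat.find_min hP hk'
  have hinj : ∀ w {X : A}, X ≠ 0 → ρ.q w X ≠ 0 := by
    intro w X hX
    refine ρ.q_ne_zero ω hm hq' (fun k hk' hrep => hmin k hk' ⟨_, hq', hrep, hN'⟩) w hX
  have hu : ∀ w X, X ≠ 0 → RankLE (PK (ρ.q w X) b) N → IsUnit X := by
    intro w X hX hr'
    by_contra hun
    obtain ⟨k, _, hk2, hk3⟩ := ρ.hasRep_q w X
    exact hmin k (hk3 hun) ⟨_, hinj w hX, hk2, hr'⟩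
  have h1ne : (1 : A) ≠ 0 := by
    intro h
    apply hq'
    rw [h]
    funext x
    simp [Rep.q]
  have hZ := ρ.zset_rank ω hu ⟨0, 1, h1ne, hN'⟩
  obtain ⟨ξ, -, ⟨μ, hμ⟩, K, c, hK, hc⟩ := hZ.main ω hm ρ.R_zero ρ.R_add ρ.R_diff ρ.g_unit
  have hQ : NormedAlgebra ℚ A := NormedAlgebra.restrictScalars ℚ ℂ A
  have hcs : CompleteSpace A := FiniteDimensional.complete ℂ A
  let Θ : G → ℂ := fun w => ρ.ev w (exp (ξ w))
  have hqΘ : ∀ x, ρ.q 0 1 x = Complex.exp (μ x) * Θ (v x) := by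
    intro x
    simp only [Rep.q, Θ, add_zero, mul_one, hμ x, map_smul, smul_eq_mul]
  have hΘd : Differentiable ℂ Θ := by
    let B := Module.finBasis ℂ A
    have h1 : Θ = fun w => ∑ j, (B.equivFunL (exp (ξ w))) j * ρ.ev w (B j) := by
      funext w
      show ρ.ev w (exp (ξ w)) = _
      conv_lhs => rw [← B.sum_equivFun (exp (ξ w))]
      rw [map_sum]
      refine Finset.sum_congr rfl fun j _ => ?_
      rw [map_smul, smul_eq_mul]
      rfl
    rw [h1]
    refine Differentiable.fun_sum fun j _ => Differentiable.mul ?_ (ρ.ev_diff (B j))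
    have h2 : Differentiable ℂ fun w => exp (ξ w) := by
      have h3 : Differentiable ℂ (exp : A → A) := fun x => (hasFDerivAt_exp (𝕂 := ℂ)).differentiableAt
      exact h3.comp ξ.differentiable
    have h4 := (ContinuousLinearMap.proj (R := ℂ) (φ := fun _ : Fin (Module.finrank ℂ A) => ℂ) j).comp
      (B.equivFunL : A →L[ℂ] (Fin (Module.finrank ℂ A) → ℂ))
    exact ((ContinuousLinearMap.proj (R := ℂ) (φ := fun _ : Fin (Module.finrank ℂ A) => ℂ) j).comp
      (B.equivFunL : A →L[ℂ] (Fin (Module.finrank ℂ A) → ℂ))).differentiable.comp h2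
  choose d hd using fun i => ρ.ev_iter i K
  refine ⟨Θ, μ, K, fun i => d i + c i, hK, hΘd, ?_, ?_, ?_⟩
  · obtain ⟨x, hx⟩ := Function.ne_iff.1 hq'
    refine ⟨x, fun h => hx ?_⟩
    rw [hqΘ, h, mul_zero]
    rfl
  · intro i u
    show ρ.ev (u + (K : ℝ) • ω i) (exp (ξ (u + (K : ℝ) • ω i))) = _
    rw [hd i, hc i]
    have e1 : ξ (u + (K : ℝ) • ω i) = ξ u + (K : ℂ) • ξ (ω i) := by
      rw [map_add]
      congr 1
      have : (K : ℝ) • ω i = (K : ℂ) • ω i := by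
        rw [← Complex.coe_smul]
        norm_cast
      rw [this, map_smul]
    have e2 : Complex.exp (c i) • exp (-((K : ℂ) • ξ (ω i))) * exp (ξ (u + (K : ℝ) • ω i)) =
        Complex.exp (c i) • exp (ξ u) := by
      rw [e1, smul_mul_assoc, ← exp_add]
      congr 2
      abel
    rw [e2, map_smul, smul_eq_mul, ← mul_assoc, ← Complex.exp_add, add_assoc]
  · refine (congrArg (fun F => RankLE (PK F b) N) ?_).mp hN'
    funext x
    exact hqΘ x

end Pool.Agent.Lib.MP_db21fa_an.TF
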