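import Pool.Agent.Lib.MP_db21fa_an.TP.Lift

/-!
Project THETA, part 2: the flat section.
-/

set_option autoImplicit false

open Filter Topology Metric NormedSpace

namespace Pool.Agent.Lib.MP_db21fa_an.TF

variable {G A : Type} [NormedAddCommGroup G] [NormedSpace ℂ G] [FiniteDimensional ℂ G]
  [NormedCommRing A] [NormedAlgebra ℂ A] [FiniteDimensional ℂ A]

/-- the projection of the group to `G` -/
noncomputable def CGrp.proj (C : CGrp G A) : AddSubgroup G where
  carrier := {w | ∃ γ, (w, γ) ∈ C.S}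
  add_mem' := by
    rintro w w' ⟨γ, h⟩ ⟨γ', h'⟩
    exact ⟨γ * γ', C.mul _ _ _ _ h h'⟩
  zero_mem' := ⟨1, C.one⟩
  neg_mem' := by
    rintro w ⟨γ, h⟩
    obtain ⟨γ', hγ'⟩ := (C.unit _ _ h).exists_right_inv
    exact ⟨γ', C.inv _ _ _ h hγ'⟩

theorem CGrp.mem_proj (C : CGrp G A) {w : G} : w ∈ C.proj ↔ ∃ γ, (w, γ) ∈ C.S := Iff.rfl

theorem CGrp.isClosed_proj (C : CGrp G A) : IsClosed (C.proj : Set G) := by
  apply IsSeqClosed.isClosed
  intro s w hs hlim
  have hex : ∀ j, ∃ γ, C.χ γ = 1 ∧ (s j, γ) ∈ C.S := by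
    intro j
    obtain ⟨γ, hγ⟩ := hs j
    exact C.normalise hγ
  choose γ hγ1 hγS using hex
  obtain ⟨φ, w', γ', hφ, hl, hmem⟩ := C.cpt (fun j => (s j, γ j)) hγS hγ1 (by
    obtain ⟨M, hM⟩ := hlim.norm.bddAbove_range
    exact ⟨M, fun j => hM ⟨j, rfl⟩⟩)
  have h1 : Tendsto (fun j => s (φ j)) atTop (𝓝 w') := (continuous_fst.tendsto _).comp hl
  have h2 : w' = w := tendsto_nhds_unique h1 (hlim.comp hφ.tendsto_atTop)
  exact ⟨γ', h2 ▸ hmem⟩

/-- flat lifts are unique -/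
theorem CGrp.lift_unique (C : CGrp G A) {w : G} {ξ ξ' : A} (h1 : C.χ ξ = 0) (h1' : C.χ ξ' = 0)
    (h2 : ∀ t : ℂ, (t • w, exp (t • ξ)) ∈ C.S) (h2' : ∀ t : ℂ, (t • w, exp (t • ξ')) ∈ C.S) :
    ξ = ξ' := by
  rw [← sub_eq_zero]
  apply C.fiber_line (by rw [map_sub, h1, h1', sub_zero])
  intro t
  have h3 := C.inv _ _ _ (h2' (t : ℂ)) (expA_mul_neg _)
  have h4 := C.mul _ _ _ _ (h2 (t : ℂ)) h3
  rw [add_neg_cancel, ← expA_add, ← sub_eq_add_neg, ← smul_sub] at h4
  exact h4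

/-- the flat section -/
theorem CGrp.exists_xi (C : CGrp G A) {E ι : Type} [NormedAddCommGroup E] [NormedSpace ℂ E]
    [Fintype ι] (v : E →L[ℂ] G) (ω : Module.Basis ι ℝ G) (hm : HMin v ω)
    (hv : ∀ a, ∃ γ, (v a, γ) ∈ C.S) (hω : ∀ i, ∃ γ, (ω i, γ) ∈ C.S) :
    ∃ ξ : G →L[ℂ] A, (∀ w, C.χ (ξ w) = 0) ∧ ∀ w, (w, exp (ξ w)) ∈ C.S := by
  have : FiniteDimensional ℝ G := FiniteDimensional.complexToReal G
  have hlift : ∀ u ∈ lineSub C.proj, ∃ ξ : A, C.χ ξ = 0 ∧
      ∀ t : ℂ, (t • u, exp (t • ξ)) ∈ C.S := by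
    intro u hu
    apply C.lift
    intro t
    have h1 := hu t
    rw [← Complex.coe_smul] at h1
    exact h1
  let U : Submodule ℂ G :=
    { carrier := {u | u ∈ lineSub C.proj}
      add_mem' := fun ha hb => (lineSub C.proj).add_mem ha hb
      zero_mem' := (lineSub C.proj).zero_mem
      smul_mem' := by
        intro c u hu t
        obtain ⟨ξ, -, hξ⟩ := hlift u hu
        have h1 := hξ ((t : ℂ) * c)
        rw [mul_smul] at h1
        rw [← Complex.coe_smul]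
        exact ⟨_, h1⟩ }
  have hU : U = ⊤ := by
    apply hm U
    · intro x t
      obtain ⟨γ, hγ⟩ := hv ((t : ℂ) • x)
      rw [map_smul] at hγ
      rw [← Complex.coe_smul]
      exact ⟨γ, hγ⟩
    · intro s hs
      exact closed_subgroup ω C.proj C.isClosed_proj hω s hs
  have hall : ∀ w : G, ∃ ξ : A, C.χ ξ = 0 ∧ ∀ t : ℂ, (t • w, exp (t • ξ)) ∈ C.S := by
    intro w
    apply hlift
    have : w ∈ U := by rw [hU]; trivial
    exact this
  choose ξ hξ0 hξ using hall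
  let L : G →ₗ[ℂ] A :=
    { toFun := ξ
      map_add' := by
        intro w w'
        apply C.lift_unique (hξ0 _) (by rw [map_add, hξ0, hξ0, add_zero]) (hξ _)
        intro t
        have h1 := C.mul _ _ _ _ (hξ w t) (hξ w' t)
        rw [← smul_add, ← expA_add, ← smul_add] at h1
        exact h1
      map_smul' := by
        intro c w
        apply C.lift_unique (hξ0 _) (by rw [RingHom.id_apply, map_smul, hξ0, smul_zero]) (hξ _)
        intro t
        have h1 := hξ w (t * c)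
        rw [mul_smul, mul_smul] at h1
        exact h1 }
  refine ⟨LinearMap.toContinuousLinearMap L, fun w => hξ0 w, fun w => ?_⟩
  have h1 := hξ w 1
  rw [one_smul, one_smul] at h1
  exact h1

end Pool.Agent.Lib.MP_db21fa_an.TF
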