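import Pool.Agent.Lib.MP_db21fa_an.TP.CGrp

/-!
Project THETA, part 2: the stabiliser of an invariant set.
-/

set_option autoImplicit false

open Filter Topology Metric NormedSpace

namespace Pool.Agent.Lib.MP_db21fa_an.TF

/-- invariant closed analytic families of units -/
structure ZSet {E G ι : Type} [NormedAddCommGroup E] [NormedSpace ℂ E] [NormedAddCommGroup G]
    [NormedSpace ℂ G] (v : E →L[ℂ] G) (ω : ι → G) {A : Type} [NormedCommRing A]
    [NormedAlgebra ℂ A] (R : E → A) (g : ι → A) (Z : Set (G × A)) : Prop where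
  nonempty : Z.Nonempty
  unit : ∀ w X, (w, X) ∈ Z → IsUnit X
  ne : ∀ w X, (w, X) ∈ Z → X ≠ 0
  closed : ∀ (s : ℕ → G × A) (w : G) (X : A), (∀ j, s j ∈ Z) → Tendsto s atTop (𝓝 (w, X)) →
    X ≠ 0 → (w, X) ∈ Z
  line : ∀ (w w₁ : G) (X ξ : A), (∀ t : ℝ, (w + (t : ℂ) • w₁, exp ((t : ℂ) • ξ) * X) ∈ Z) →
    ∀ t : ℂ, (w + t • w₁, exp (t • ξ) * X) ∈ Z
  smul : ∀ w X (c : ℂ), c ≠ 0 → (w, X) ∈ Z → (w, c • X) ∈ Z
  tr : ∀ w X a, (w, X) ∈ Z → (w + v a, R a * X) ∈ Z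
  per : ∀ w X i, (w + ω i, X) ∈ Z ↔ (w, g i * X) ∈ Z

private theorem exists_character {A : Type} [NormedCommRing A] [NormedAlgebra ℂ A]
    [FiniteDimensional ℂ A] [Nontrivial A] : Nonempty (A →ₐ[ℂ] ℂ) := by
  obtain ⟨m, hm⟩ := Ideal.exists_maximal A
  let _ : Field (A ⧸ m) := Ideal.Quotient.field m
  have : Module.Finite ℂ (A ⧸ m) :=
    Module.Finite.of_surjective (Ideal.Quotient.mkₐ ℂ m).toLinearMap
      (Ideal.Quotient.mkₐ_surjective ℂ m)
  have : Algebra.IsAlgebraic ℂ (A ⧸ m) := Algebra.IsAlgebraic.of_finite ℂ (A ⧸ m)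
  exact ⟨(IsAlgClosed.lift (R := ℂ) (S := A ⧸ m) (M := ℂ)).comp (Ideal.Quotient.mkₐ ℂ m)⟩

variable {E G ι : Type} [NormedAddCommGroup E] [NormedSpace ℂ E] [NormedAddCommGroup G]
  [NormedSpace ℂ G] [FiniteDimensional ℂ G] [Fintype ι] {A : Type} [NormedCommRing A]
  [NormedAlgebra ℂ A] [FiniteDimensional ℂ A]

/-- the stabiliser -/
private def stab (Z : Set (G × A)) : Set (G × A) :=
  {p | IsUnit p.2 ∧ ∀ w' X, (w', X) ∈ Z ↔ (w' + p.1, p.2 * X) ∈ Z}

omit [FiniteDimensional ℂ G] [Fintype ι] in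
private theorem stab_closed {v : E →L[ℂ] G} {ω : ι → G} {R : E → A} {g : ι → A} {Z : Set (G × A)}
    (hZ : ZSet v ω R g Z) (s : ℕ → G × A) (w : G) (γ : A) (hs : ∀ j, s j ∈ stab Z)
    (hlim : Tendsto s atTop (𝓝 (w, γ))) (hγ : IsUnit γ) : (w, γ) ∈ stab Z := by
  have hcs : CompleteSpace A := FiniteDimensional.complete ℂ A
  have h1 : Tendsto (fun j => (s j).1) atTop (𝓝 w) := (continuous_fst.tendsto _).comp hlim
  have h2 : Tendsto (fun j => (s j).2) atTop (𝓝 γ) := (continuous_snd.tendsto _).comp hlim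
  refine ⟨hγ, fun w' X => ⟨fun hX => ?_, fun hX => ?_⟩⟩
  · refine hZ.closed (fun j => (w' + (s j).1, (s j).2 * X)) _ _
      (fun j => ((hs j).2 w' X).1 hX) ?_ ?_
    · exact (h1.const_add w').prodMk_nhds (h2.mul_const X)
    · intro h0
      exact hZ.ne _ _ hX ((hγ.mul_right_eq_zero).1 h0)
  · have hX0 : X ≠ 0 := by
      rintro rfl
      exact hZ.ne _ _ hX (mul_zero γ)
    obtain ⟨u, rfl⟩ := hγ
    have h3 : Tendsto (fun j => Ring.inverse (s j).2) atTop (𝓝 (Ring.inverse (u : A))) :=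
      (NormedRing.inverse_continuousAt u).tendsto.comp h2
    have e1 : Ring.inverse (u : A) * ((u : A) * X) = X := by
      rw [← mul_assoc, Ring.inverse_mul_cancel _ u.isUnit, one_mul]
    refine hZ.closed (fun j => (w' + w - (s j).1, Ring.inverse (s j).2 * ((u : A) * X))) _ _
      (fun j => ?_) ?_ hX0
    · refine ((hs j).2 _ _).2 ?_
      have e2 : w' + w - (s j).1 + (s j).1 = w' + w := sub_add_cancel _ _
      have e3 : (s j).2 * (Ring.inverse (s j).2 * ((u : A) * X)) = (u : A) * X := by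
        rw [← mul_assoc, Ring.mul_inverse_cancel _ (hs j).1, one_mul]
      rw [e2, e3]
      exact hX
    · have h4 : Tendsto (fun j => w' + w - (s j).1) atTop (𝓝 (w' + w - w)) := h1.const_sub _
      have h5 := h3.mul_const ((u : A) * X)
      rw [e1] at h5
      rw [add_sub_cancel_right] at h4
      exact h4.prodMk_nhds h5

omit [Fintype ι] in
private theorem stab_cpt {v : E →L[ℂ] G} {ω : ι → G} {R : E → A} {g : ι → A} {Z : Set (G × A)}
    (hZ : ZSet v ω R g Z) (χ : A →ₐ[ℂ] ℂ) (s : ℕ → G × A) (hs : ∀ j, s j ∈ stab Z)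
    (h1 : ∀ j, χ (s j).2 = 1) (hb : ∃ C, ∀ j, ‖(s j).1‖ ≤ C) :
    ∃ (φ : ℕ → ℕ) (w : G) (γ : A), StrictMono φ ∧ Tendsto (s ∘ φ) atTop (𝓝 (w, γ)) ∧
      (w, γ) ∈ stab Z := by
  have : ProperSpace G := FiniteDimensional.proper ℂ G
  have : ProperSpace A := FiniteDimensional.proper ℂ A
  obtain ⟨C, hC⟩ := hb
  obtain ⟨⟨w₀, X₀⟩, hX₀⟩ := hZ.nonempty
  have hχ : Continuous χ := χ.toLinearMap.continuous_of_finiteDimensional
  have hne : ∀ j, (s j).2 ≠ 0 := fun j h => by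
    have := h1 j
    rw [h, map_zero] at this
    exact zero_ne_one this
  have hn : ∀ j, (‖(s j).2‖ : ℂ) ≠ 0 := fun j => by
    simpa using hne j
  have hK : IsCompact (closedBall (0 : G) C ×ˢ sphere (0 : A) 1) :=
    (isCompact_closedBall _ _).prod (isCompact_sphere _ _)
  obtain ⟨⟨w, γ⟩, hK1, φ, hφ, hlim⟩ := hK.tendsto_subseq
    (x := fun j => ((s j).1, ((‖(s j).2‖ : ℂ)⁻¹) • (s j).2)) (fun j => by
      refine ⟨by simpa using hC j, ?_⟩
      rw [mem_sphere_zero_iff_norm, norm_smul, norm_inv, Complex.norm_real, norm_norm,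
        inv_mul_cancel₀ (norm_ne_zero_iff.2 (hne j))])
  have hw : Tendsto (fun j => (s (φ j)).1) atTop (𝓝 w) := (continuous_fst.tendsto _).comp hlim
  have hγ : Tendsto (fun j => ((‖(s (φ j)).2‖ : ℂ)⁻¹) • (s (φ j)).2) atTop (𝓝 γ) :=
    (continuous_snd.tendsto _).comp hlim
  have hγ0 : γ ≠ 0 := by
    have : ‖γ‖ = 1 := by simpa using hK1.2
    intro h
    rw [h, norm_zero] at this
    exact zero_ne_one this
  have hu : IsUnit γ := by
    have h2 : (w₀ + w, γ * X₀) ∈ Z := by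
      refine hZ.closed (fun j => (w₀ + (s (φ j)).1, (((‖(s (φ j)).2‖ : ℂ)⁻¹) • (s (φ j)).2) * X₀))
        _ _ (fun j => ?_) ((hw.const_add w₀).prodMk_nhds (hγ.mul_const X₀)) ?_
      · rw [smul_mul_assoc]
        exact hZ.smul _ _ _ (inv_ne_zero (hn _)) (((hs (φ j)).2 w₀ X₀).1 hX₀)
      · intro h0
        exact hγ0 (((hZ.unit _ _ hX₀).mul_left_eq_zero).1 h0)
    exact isUnit_of_mul_isUnit_left (hZ.unit _ _ h2)
  have hχγ : χ γ ≠ 0 := (hu.map χ).ne_zero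
  have h3 : Tendsto (fun j => ((‖(s (φ j)).2‖ : ℂ)⁻¹)) atTop (𝓝 (χ γ)) := by
    refine ((hχ.tendsto γ).comp hγ).congr fun j => ?_
    show χ (((‖(s (φ j)).2‖ : ℂ)⁻¹) • (s (φ j)).2) = _
    rw [map_smul, h1, smul_eq_mul, mul_one]
  have h4 : Tendsto (fun j => (‖(s (φ j)).2‖ : ℂ)) atTop (𝓝 (χ γ)⁻¹) := by
    refine (h3.inv₀ hχγ).congr fun j => ?_
    rw [inv_inv]
  have h5 : Tendsto (fun j => (s (φ j)).2) atTop (𝓝 ((χ γ)⁻¹ • γ)) := by
    refine (h4.smul hγ).congr fun j => ?_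
    rw [smul_smul, mul_inv_cancel₀ (hn _), one_smul]
  have h6 : Tendsto (s ∘ φ) atTop (𝓝 (w, (χ γ)⁻¹ • γ)) := hw.prodMk_nhds h5
  refine ⟨φ, w, (χ γ)⁻¹ • γ, hφ, h6, stab_closed hZ (s ∘ φ) _ _ (fun j => hs _) h6 ?_⟩
  have : (χ γ)⁻¹ • γ = algebraMap ℂ A (χ γ)⁻¹ * γ := Algebra.smul_def _ _
  rw [this]
  exact ((IsUnit.mk0 _ (inv_ne_zero hχγ)).map (algebraMap ℂ A)).mul hu

/-- **the stabiliser of `Z` is a closed group** -/
theorem ZSet.exists_cgrp {v : E →L[ℂ] G} {ω : ι → G} {R : E → A} {g : ι → A} {Z : Set (G × A)}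
    (hZ : ZSet v ω R g Z) (hR0 : R 0 = 1) (hRadd : ∀ x y, R (x + y) = R x * R y)
    (hg : ∀ i, IsUnit (g i)) :
    ∃ C : CGrp G A, (∀ a, (v a, R a) ∈ C.S) ∧ (∀ i, (-ω i, g i) ∈ C.S) ∧
      ∀ w γ, (w, γ) ∈ C.S → ∀ w' X, (w', X) ∈ Z → (w' + w, γ * X) ∈ Z := by
  have hcs : CompleteSpace A := FiniteDimensional.complete ℂ A
  have hQ : NormedAlgebra ℚ A := NormedAlgebra.restrictScalars ℚ ℂ A
  obtain ⟨⟨w₀, X₀⟩, hX₀⟩ := hZ.nonempty
  have : Nontrivial A := ⟨⟨X₀, 0, hZ.ne _ _ hX₀⟩⟩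
  obtain ⟨χ⟩ := exists_character (A := A)
  let C : CGrp G A :=
    { S := stab Z
      χ := χ
      unit := fun w γ h => h.1
      one := ⟨isUnit_one, fun w' X => by simp⟩
      mul := fun w γ w' γ' h h' => ⟨h.1.mul h'.1, fun u X => by
        show (u, X) ∈ Z ↔ (u + (w + w'), γ * γ' * X) ∈ Z
        rw [h.2 u X, h'.2 (u + w) (γ * X)]
        have e1 : u + w + w' = u + (w + w') := add_assoc _ _ _
        have e2 : γ' * (γ * X) = γ * γ' * X := by ring
        show (u + w + w', γ' * (γ * X)) ∈ Z ↔ _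
        rw [e1, e2]⟩
      inv := fun w γ γ' h h1 => ⟨IsUnit.of_mul_eq_one γ (by rw [mul_comm]; exact h1), fun u X => by
        show (u, X) ∈ Z ↔ (u + -w, γ' * X) ∈ Z
        rw [h.2 (u + -w) (γ' * X)]
        have e1 : u + -w + w = u := by abel
        have e2 : γ * (γ' * X) = X := by rw [← mul_assoc, h1, one_mul]
        show _ ↔ (u + -w + w, γ * (γ' * X)) ∈ Z
        rw [e1, e2]⟩
      smul := fun w γ c hc h => ⟨by
          show IsUnit (c • γ)
          rw [Algebra.smul_def]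
          exact ((IsUnit.mk0 _ hc).map (algebraMap ℂ A)).mul h.1, fun u X => by
        show (u, X) ∈ Z ↔ (u + w, c • γ * X) ∈ Z
        rw [h.2 u X]
        show (u + w, γ * X) ∈ Z ↔ _
        rw [smul_mul_assoc]
        refine ⟨fun hh => hZ.smul _ _ c hc hh, fun hh => ?_⟩
        have := hZ.smul _ _ c⁻¹ (inv_ne_zero hc) hh
        rwa [smul_smul, inv_mul_cancel₀ hc, one_smul] at this⟩
      closed := fun s w γ hs hlim hγ => stab_closed hZ s w γ hs hlim hγ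
      line := fun w ξ h => by
        have key : ∀ (t : ℂ) (w' : G) (X : A), (w', X) ∈ Z →
            (w' + t • w, exp (t • ξ) * X) ∈ Z := fun t w' X hX =>
          hZ.line w' w X ξ (fun r => ((h r).2 w' X).1 hX) t
        intro t
        refine ⟨isUnit_exp _, fun w' X => ⟨fun hX => key t w' X hX, fun hX => ?_⟩⟩
        have h2 := key (-t) _ _ hX
        have e1 : w' + t • w + -t • w = w' := by rw [neg_smul]; abel
        have e2 : exp (-t • ξ) * (exp (t • ξ) * X) = X := by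
          rw [← mul_assoc, ← exp_add, neg_smul, neg_add_cancel, exp_zero, one_mul]
        have e3 : (w' + t • w + -t • w, exp (-t • ξ) * (exp (t • ξ) * X)) = (w', X) := by
          rw [e1, e2]
        rw [← e3]
        exact h2
      cpt := fun s hs h1 hb => stab_cpt hZ χ s hs h1 hb }
  have hRinv : ∀ a, R (-a) * R a = 1 := fun a => by rw [← hRadd, neg_add_cancel, hR0]
  refine ⟨C, fun a => ⟨IsUnit.of_mul_eq_one (R (-a)) (by rw [mul_comm]; exact hRinv a),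
    fun w' X => ⟨fun hX => hZ.tr _ _ a hX, fun hX => ?_⟩⟩, fun i => ⟨hg i, fun w' X => ?_⟩,
    fun w γ h w' X hX => (h.2 w' X).1 hX⟩
  · have h2 := hZ.tr _ _ (-a) hX
    have e1 : w' + v a + v (-a) = w' := by rw [map_neg]; abel
    have e2 : R (-a) * (R a * X) = X := by rw [← mul_assoc, hRinv, one_mul]
    have e3 : (w' + v a + v (-a), R (-a) * (R a * X)) = (w', X) := by rw [e1, e2]
    rw [← e3]
    exact h2
  · show _ ↔ (w' + -ω i, g i * X) ∈ Z
    rw [← hZ.per]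
    have e1 : w' + -ω i + ω i = w' := by abel
    rw [e1]

end Pool.Agent.Lib.MP_db21fa_an.TF
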