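import Pool.Agent.Lib.MP_db21fa_an.TP.ZGrp
import Pool.Agent.Lib.MP_db21fa_an.TP.CGrpMain

/-!
Project THETA, part 2: flat sections of invariant sets (complete).
-/

set_option autoImplicit false

open Filter Topology Metric NormedSpace

namespace Pool.Agent.Lib.MP_db21fa_an.TF

variable {E G ι : Type} [NormedAddCommGroup E] [NormedSpace ℂ E] [NormedAddCommGroup G]
  [NormedSpace ℂ G] [FiniteDimensional ℂ G] [Fintype ι] {A : Type} [NormedCommRing A]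
  [NormedAlgebra ℂ A] [FiniteDimensional ℂ A]

/-- **flat sections** -/
theorem ZSet.main {v : E →L[ℂ] G} (ω : Module.Basis ι ℝ G) (hm : HMin v ω) {R : E → A} {g : ι → A}
    {Z : Set (G × A)} (hZ : ZSet v ω R g Z) (hR0 : R 0 = 1)
    (hRadd : ∀ x y, R (x + y) = R x * R y) (hRd : Differentiable ℂ R) (hg : ∀ i, IsUnit (g i)) :
    ∃ ξ : G →L[ℂ] A, (∀ w X, (w, X) ∈ Z → ∀ u, (w + u, exp (ξ u) * X) ∈ Z) ∧
      (∃ μ : E →L[ℂ] ℂ, ∀ a, R a = Complex.exp (μ a) • exp (ξ (v a))) ∧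
      ∃ (k : ℕ) (c : ι → ℂ), 0 < k ∧
        ∀ i, g i ^ k = Complex.exp (c i) • exp (-((k : ℂ) • ξ (ω i))) := by
  obtain ⟨C, h1, h2, h3⟩ := hZ.exists_cgrp hR0 hRadd hg
  obtain ⟨ξ, h4, h5, h6⟩ := C.main v ω hm R hR0 hRadd hRd h1 g h2
  exact ⟨ξ, fun w X hX u => h3 _ _ (h4 u) w X hX, h5, h6⟩

end Pool.Agent.Lib.MP_db21fa_an.TF
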